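import Mathlib

/-!
# Number fields: the house and coordinates
-/

set_option autoImplicit false

namespace Pool.Agent.X4.KA

open NumberField Module Finset

variable (K : Type) [Field K] [NumberField K]

/-- rational functionals are bounded by the house -/
theorem fun_bound (f : K →ₗ[ℚ] ℚ) : ∃ C : ℝ, 0 ≤ C ∧ ∀ x, |((f x : ℚ) : ℝ)| ≤ C * house x := by
  classical
  set β := (LinearMap.BilinForm.toDual (Algebra.traceForm ℚ K)
    (traceForm_nondegenerate ℚ K)).symm f with hβ
  have hf : ∀ x, f x = Algebra.trace ℚ K (β * x) := by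
    intro x
    have h1 : (LinearMap.BilinForm.toDual (Algebra.traceForm ℚ K)
      (traceForm_nondegenerate ℚ K)) β = f := LinearEquiv.apply_symm_apply _ _
    rw [← h1, LinearMap.BilinForm.toDual_def, Algebra.traceForm_apply]
  refine ⟨(finrank ℚ K : ℝ) * house β, mul_nonneg (Nat.cast_nonneg _) (house_nonneg _), fun x => ?_⟩
  rw [hf x]
  have h2 : (((Algebra.trace ℚ K (β * x) : ℚ) : ℂ)) = ∑ σ : K →ₐ[ℚ] ℂ, σ (β * x) := by
    have := trace_eq_sum_embeddings (K := ℚ) (L := K) ℂ (x := β * x)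
    simpa using this
  have h3 : |((Algebra.trace ℚ K (β * x) : ℚ) : ℝ)| = ‖(((Algebra.trace ℚ K (β * x) : ℚ) : ℂ))‖ := by
    rw [← Complex.ofReal_ratCast, Complex.norm_real, Real.norm_eq_abs]
  rw [h3, h2]
  calc ‖∑ σ : K →ₐ[ℚ] ℂ, σ (β * x)‖ ≤ ∑ σ : K →ₐ[ℚ] ℂ, ‖σ (β * x)‖ := norm_sum_le _ _
    _ ≤ ∑ _σ : K →ₐ[ℚ] ℂ, house β * house x := by
        refine Finset.sum_le_sum fun σ _ => ?_
        exact (norm_embedding_le_house (β * x) (σ : K →+* ℂ)).trans (house_mul_le _ _)
    _ = (finrank ℚ K : ℝ) * house β * house x := by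
        rw [Finset.sum_const, nsmul_eq_mul, Finset.card_univ, AlgHom.card]
        ring

/-- the degree -/
noncomputable abbrev dg : ℕ := finrank ℚ K

/-- the integral basis, indexed by `Fin` -/
noncomputable def om : Basis (Fin (dg K)) ℤ (𝓞 K) :=
  (RingOfIntegers.basis K).reindex (Fintype.equivFinOfCardEq (by
    rw [← finrank_eq_card_basis (RingOfIntegers.basis K), RingOfIntegers.rank]))

/-- the coordinates as rational functionals -/
noncomputable def omQ : Basis (Fin (dg K)) ℚ K :=
  (integralBasis K).reindex (Fintype.equivFinOfCardEq (by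
    rw [← finrank_eq_card_basis (RingOfIntegers.basis K), RingOfIntegers.rank]))

theorem omQ_repr (x : 𝓞 K) (i : Fin (dg K)) :
    (omQ K).repr (x : K) i = (((om K).repr x i : ℤ) : ℚ) := by
  unfold omQ om
  rw [Basis.repr_reindex_apply, Basis.repr_reindex_apply]
  have := integralBasis_repr_apply K x ((Fintype.equivFinOfCardEq (by
    rw [← finrank_eq_card_basis (RingOfIntegers.basis K), RingOfIntegers.rank])).symm i)
  simpa using this

theorem omQ_apply (i : Fin (dg K)) : omQ K i = ((om K i : 𝓞 K) : K) := by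
  unfold omQ om
  rw [Basis.reindex_apply, Basis.reindex_apply, integralBasis_apply]

/-- coordinates are bounded by the house -/
theorem coord_bound : ∃ C : ℝ, 1 ≤ C ∧ ∀ (x : 𝓞 K) (i : Fin (dg K)),
    |(((om K).repr x i : ℤ) : ℝ)| ≤ C * house (x : K) := by
  classical
  choose C hC0 hC using fun i : Fin (dg K) => fun_bound K ((omQ K).coord i)
  refine ⟨1 + ∑ i, C i, ?_, fun x i => ?_⟩
  · have := Finset.sum_nonneg fun i (_ : i ∈ Finset.univ) => hC0 i
    linarith
  · have h1 := hC i (x : K)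
    rw [Basis.coord_apply, omQ_repr] at h1
    have h2 : C i ≤ ∑ i, C i := Finset.single_le_sum (fun i _ => hC0 i) (Finset.mem_univ i)
    have h3 := house_nonneg (x : K)
    have h4 : C i * house (x : K) ≤ (1 + ∑ i, C i) * house (x : K) :=
      mul_le_mul_of_nonneg_right (by linarith) h3
    push_cast at h1
    exact h1.trans h4

/-- the house is bounded by the coordinates -/
theorem house_bound : ∃ C : ℝ, 1 ≤ C ∧ ∀ (c : Fin (dg K) → ℝ) (B : ℝ) (x : K),
    (∀ i, ((((omQ K).repr x i : ℚ)) : ℝ) = c i) → (∀ i, |c i| ≤ B) → house x ≤ C * B := by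
  classical
  refine ⟨1 + ∑ i, house (omQ K i), ?_, fun c B x hc hB => ?_⟩
  · have := Finset.sum_nonneg fun i (_ : i ∈ Finset.univ) => house_nonneg (omQ K i)
    linarith
  · have hd : 0 < dg K := finrank_pos
    have hB0 : 0 ≤ B := (abs_nonneg _).trans (hB ⟨0, hd⟩)
    have h1 : house x ≤ ∑ i, house (((omQ K).repr x i) • omQ K i) := by
      conv_lhs => rw [← (omQ K).sum_repr x]
      exact house_sum_le_sum_house _ _
    refine h1.trans ?_
    have h2 : ∀ i, house (((omQ K).repr x i) • omQ K i) ≤ B * house (omQ K i) := by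
      intro i
      have h3 : house (((omQ K).repr x i) • omQ K i) = |c i| * house (omQ K i) := by
        unfold house
        have h4 : canonicalEmbedding K (((omQ K).repr x i) • omQ K i) =
            (((omQ K).repr x i : ℚ) : ℂ) • canonicalEmbedding K (omQ K i) := by
          funext σ
          rw [Rat.smul_def, canonicalEmbedding.apply_at, map_mul, map_ratCast, Pi.smul_apply,
            canonicalEmbedding.apply_at, smul_eq_mul]
        rw [h4, norm_smul, ← Complex.ofReal_ratCast, Complex.norm_real, Real.norm_eq_abs, hc i]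
      rw [h3]
      exact mul_le_mul_of_nonneg_right (hB i) (house_nonneg _)
    calc ∑ i, house (((omQ K).repr x i) • omQ K i) ≤ ∑ i, B * house (omQ K i) :=
          Finset.sum_le_sum fun i _ => h2 i
      _ = (∑ i, house (omQ K i)) * B := by rw [← Finset.mul_sum, mul_comm]
      _ ≤ _ := mul_le_mul_of_nonneg_right (by linarith) hB0

/-- rounding -/
theorem round : ∃ C : ℝ, 1 ≤ C ∧ ∀ a : K, ∃ u : 𝓞 K, house (a - u) ≤ C := by
  classical
  obtain ⟨C, hC1, hC⟩ := house_bound K
  refine ⟨C, hC1, fun a => ?_⟩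
  refine ⟨(om K).equivFun.symm fun i => ⌊(omQ K).repr a i⌋, ?_⟩
  have h1 := hC (fun i => ((Int.fract ((omQ K).repr a i) : ℚ) : ℝ)) 1
    (a - (((om K).equivFun.symm fun i => ⌊(omQ K).repr a i⌋ : 𝓞 K) : K)) (fun i => ?_) (fun i => ?_)
  · rwa [mul_one] at h1
  · rw [map_sub, Finsupp.sub_apply, omQ_repr]
    have h2 : (om K).repr ((om K).equivFun.symm fun i => ⌊(omQ K).repr a i⌋) i =
        ⌊(omQ K).repr a i⌋ := by
      have := (om K).equivFun.apply_symm_apply (fun i => ⌊(omQ K).repr a i⌋)
      exact congrFun this i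
    rw [h2]
    rfl
  · rw [abs_le]
    have h3 := Int.fract_nonneg ((omQ K).repr a i)
    have h4 := (Int.fract_lt_one ((omQ K).repr a i)).le
    constructor
    · have : (0 : ℝ) ≤ ((Int.fract ((omQ K).repr a i) : ℚ) : ℝ) := by exact_mod_cast h3
      linarith
    · exact_mod_cast h4

/-- few integers of small house -/
theorem count_up : ∃ C : ℝ, 1 ≤ C ∧ ∀ (R : ℝ), 0 ≤ R → ∀ F : Finset (𝓞 K),
    (∀ a ∈ F, house (a : K) ≤ R) → (F.card : ℝ) ≤ (C * (R + 1)) ^ (dg K) := by
  classical
  obtain ⟨C, hC1, hC⟩ := coord_bound K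
  refine ⟨3 * C, by linarith, fun R hR F hF => ?_⟩
  set m : ℕ := ⌊C * R⌋₊ with hm
  have h1 : F.card ≤ (Fintype.piFinset fun _ : Fin (dg K) => Finset.Icc (-(m : ℤ)) m).card := by
    apply Finset.card_le_card_of_injOn (fun a => (om K).equivFun a)
    · intro a ha
      have ha' : a ∈ F := ha
      rw [Finset.mem_coe, Fintype.mem_piFinset]
      intro i
      rw [Finset.mem_Icc, ← abs_le]
      have h2 := hC a i
      have h3 : C * house (a : K) ≤ C * R := mul_le_mul_of_nonneg_left (hF a ha') (by linarith)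
      have h4 : ((((om K).repr a i).natAbs : ℕ) : ℝ) ≤ C * R := by
        rw [Nat.cast_natAbs, Int.cast_abs]
        exact h2.trans h3
      have h5 : ((om K).repr a i).natAbs ≤ m := Nat.le_floor h4
      have h6 : (om K).equivFun a i = (om K).repr a i := rfl
      change |(om K).repr a i| ≤ (m : ℤ)
      rw [Int.abs_eq_natAbs]
      exact_mod_cast h5
    · intro a _ b _ hab
      exact (om K).equivFun.injective hab
  rw [Fintype.card_piFinset, Finset.prod_const, Finset.card_univ, Fintype.card_fin,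
    Int.card_Icc] at h1
  have h2 : ((m : ℤ) + 1 - -(m : ℤ)).toNat = 2 * m + 1 := by omega
  rw [h2] at h1
  have h3 : (F.card : ℝ) ≤ ((2 * m + 1 : ℕ) : ℝ) ^ (dg K) := by exact_mod_cast h1
  refine h3.trans (pow_le_pow_left₀ (Nat.cast_nonneg _) ?_ _)
  push_cast
  have h4 : (m : ℝ) ≤ C * R := Nat.floor_le (by positivity)
  nlinarith

/-- many integers of small house -/
theorem count_low : ∃ C : ℝ, 1 ≤ C ∧ ∀ (R : ℝ), 0 ≤ R → ∃ F : Finset (𝓞 K),
    (∀ a ∈ F, house (a : K) ≤ R) ∧ (R / C) ^ (dg K) ≤ (F.card : ℝ) := by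
  classical
  obtain ⟨C, hC1, hC⟩ := house_bound K
  refine ⟨C, hC1, fun R hR => ?_⟩
  set m : ℕ := ⌊R / C⌋₊ with hm
  have hC0 : 0 < C := by linarith
  refine ⟨(Fintype.piFinset fun _ : Fin (dg K) => Finset.Icc (0 : ℤ) m).image
    (fun c => (om K).equivFun.symm c), ?_, ?_⟩
  · intro a ha
    rw [Finset.mem_image] at ha
    obtain ⟨c, hc, rfl⟩ := ha
    rw [Fintype.mem_piFinset] at hc
    have h1 := hC (fun i => ((c i : ℤ) : ℝ)) (R / C) (((om K).equivFun.symm c : 𝓞 K) : K)
      (fun i => ?_) (fun i => ?_)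
    · rwa [mul_div_cancel₀ _ hC0.ne'] at h1
    · rw [omQ_repr]
      have h2 : (om K).repr ((om K).equivFun.symm c) i = c i :=
        congrFun ((om K).equivFun.apply_symm_apply c) i
      rw [h2]
      push_cast
      rfl
    · have h3 := Finset.mem_Icc.1 (hc i)
      have h4 : (0 : ℝ) ≤ c i := by exact_mod_cast h3.1
      have h5 : (c i : ℝ) ≤ m := by exact_mod_cast h3.2
      rw [abs_of_nonneg h4]
      exact h5.trans (Nat.floor_le (by positivity))
  · rw [Finset.card_image_of_injective _ (om K).equivFun.symm.injective, Fintype.card_piFinset,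
      Finset.prod_const, Finset.card_univ, Fintype.card_fin, Int.card_Icc]
    have h2 : ((m : ℤ) + 1 - 0).toNat = m + 1 := by omega
    rw [h2]
    push_cast
    exact pow_le_pow_left₀ (by positivity) (Nat.lt_floor_add_one _).le _

end Pool.Agent.X4.KA
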