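import Mathlib
set_option autoImplicit false

namespace Pool.Agent.X4.KA

/-- completing independent rows to a nonsingular integral matrix -/
theorem complete {d k : ℕ} (R : Fin d → Fin k → ℤ) :
    ∃ (M : Matrix (Fin k) (Fin k) ℤ) (I : Finset (Fin k)), M.det ≠ 0 ∧
      (∀ l ∈ I, ∃ i, M l = R i) ∧
      I.card = Module.finrank ℚ (Submodule.span ℚ (Set.range fun i l => ((R i l : ℤ) : ℚ))) := by
  classical
  set S : Set (Fin k → ℚ) := Set.range fun i l => ((R i l : ℤ) : ℚ) with hS
  obtain ⟨b, hbS, hbspan, hbli⟩ := exists_linearIndependent ℚ S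
  set T : Set (Fin k → ℚ) := S ∪ Set.range (fun l => Pi.single l (1 : ℚ)) with hT
  have hli : LinearIndepOn ℚ id b := hbli
  obtain ⟨b', hb'T, hbb', hTb', hb'li⟩ := exists_linearIndepOn_id_extension hli
    (hbS.trans (Set.subset_union_left (s := S) (t := Set.range (fun l => Pi.single l (1 : ℚ)))))
  have htop : Submodule.span ℚ b' = ⊤ := by
    rw [eq_top_iff, ← (Pi.basisFun ℚ (Fin k)).span_eq, Submodule.span_le]
    rintro _ ⟨l, rfl⟩
    apply hTb'
    right
    exact ⟨l, by simp⟩
  let B : Module.Basis b' ℚ (Fin k → ℚ) := Module.Basis.mk (v := ((↑) : b' → (Fin k → ℚ))) hb'li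
    (by rw [Subtype.range_coe, htop])
  haveI : Finite b' := Module.Finite.finite_basis B
  haveI : Fintype b' := Fintype.ofFinite b'
  have hcard : Fintype.card b' = k := by
    rw [← Module.finrank_eq_card_basis B]
    simp
  let e : Fin k ≃ b' := (Fintype.equivFinOfCardEq hcard).symm
  have hint : ∀ x : b', ∃ v : Fin k → ℤ, (fun l => ((v l : ℤ) : ℚ)) = (x : Fin k → ℚ) ∧
      ((x : Fin k → ℚ) ∈ b → ∃ i, v = R i) := by
    intro x
    by_cases hx : (x : Fin k → ℚ) ∈ S
    · obtain ⟨i, hi⟩ := hx
      exact ⟨R i, hi, fun _ => ⟨i, rfl⟩⟩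
    · rcases hb'T x.2 with h | ⟨l, hl⟩
      · exact absurd h hx
      · refine ⟨Pi.single l 1, ?_, fun h => absurd (hbS h) hx⟩
        rw [← hl]
        funext j
        by_cases hj : j = l
        · subst hj; simp
        · simp [hj]
  choose v hv hvb using hint
  refine ⟨fun l => v (e l), Finset.univ.filter fun l => ((e l : b') : Fin k → ℚ) ∈ b, ?_, ?_, ?_⟩
  · have h1 : LinearIndependent ℚ (fun l : Fin k => fun j => ((v (e l) j : ℤ) : ℚ)) := by
      have h2 : (fun l : Fin k => fun j => ((v (e l) j : ℤ) : ℚ)) = fun l => ((e l : b') : Fin k → ℚ) := by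
        funext l
        exact hv (e l)
      rw [h2]
      exact hb'li.comp e e.injective
    have h3 : IsUnit (Matrix.of (fun l : Fin k => fun j => ((v (e l) j : ℤ) : ℚ))) := by
      rw [← Matrix.linearIndependent_rows_iff_isUnit]
      exact h1
    rw [Matrix.isUnit_iff_isUnit_det, isUnit_iff_ne_zero] at h3
    intro h4
    apply h3
    have h5 : (Matrix.of (fun l : Fin k => fun j => ((v (e l) j : ℤ) : ℚ))) =
        (Matrix.of fun l => v (e l)).map (Int.castRingHom ℚ) := rfl
    rw [h5]
    have h6 := (RingHom.map_det (Int.castRingHom ℚ) (Matrix.of fun l => v (e l)))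
    rw [RingHom.mapMatrix_apply] at h6
    rw [← h6]
    have h7 : (Matrix.of fun l => v (e l)).det = 0 := h4
    rw [h7, map_zero]
  · intro l hl
    rw [Finset.mem_filter] at hl
    exact hvb _ hl.2
  · have h1 : Submodule.span ℚ S = Submodule.span ℚ b := hbspan.symm
    rw [h1]
    have hbfin : b.Finite := (Set.toFinite b').subset hbb'
    haveI : Fintype b := hbfin.fintype
    have h2 := finrank_span_eq_card (R := ℚ) hbli
    rw [Subtype.range_coe] at h2
    rw [h2]
    rw [← Fintype.card_coe]
    apply Fintype.card_congr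
    refine Equiv.ofBijective (fun x => ⟨((e x.1 : b') : Fin k → ℚ), (Finset.mem_filter.1 x.2).2⟩) ?_
    constructor
    · intro x y hxy
      have := congrArg Subtype.val hxy
      simp only at this
      exact Subtype.ext (e.injective (Subtype.ext this))
    · intro y
      refine ⟨⟨e.symm ⟨y.1, hbb' y.2⟩, ?_⟩, ?_⟩
      · rw [Finset.mem_filter]
        simp
      · simp

end Pool.Agent.X4.KA
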