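import Mathlib
import Pool.Agent.X4.KA.ML
import Pool.Agent.TH461.SST.Main

/-!
# No short vectors satisfying several systems of congruences
-/

set_option autoImplicit false

namespace Pool.Agent.X4.KA

open Finset Filter Topology Pool.Agent.TH461.SST

/-- common denominators on a finitely generated subgroup -/
theorem den {E : Type} [AddCommGroup E] [Module ℚ E] (Λ : Submodule ℤ E) (hΛ : Λ.FG)
    {ι : Type} [Finite ι] (c : ι → E →ₗ[ℚ] ℚ) :
    ∃ D : ℕ, 0 < D ∧ ∀ x ∈ Λ, ∀ l, ∃ m : ℤ, (D : ℚ) * c l x = m := by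
  classical
  have := Fintype.ofFinite ι
  obtain ⟨s, hs⟩ := hΛ
  refine ⟨∏ l, ∏ x ∈ s, (c l x).den,
    Finset.prod_pos fun l _ => Finset.prod_pos fun x _ => Rat.den_pos _, ?_⟩
  intro x hx l
  rw [← hs] at hx
  induction hx using Submodule.span_induction with
  | mem x hx =>
    have h1 : (c l x).den ∣ ∏ l, ∏ x ∈ s, (c l x).den :=
      (Finset.dvd_prod_of_mem (fun x => (c l x).den) hx).trans
        (Finset.dvd_prod_of_mem (fun l => ∏ x ∈ s, (c l x).den) (Finset.mem_univ l))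
    obtain ⟨t, ht⟩ := h1
    refine ⟨t * (c l x).num, ?_⟩
    rw [ht]
    push_cast
    have := Rat.mul_den_eq_num (c l x)
    rw [← this]
    ring
  | zero => exact ⟨0, by simp⟩
  | add x y _ _ hx hy =>
    obtain ⟨m, hm⟩ := hx
    obtain ⟨n, hn⟩ := hy
    exact ⟨m + n, by rw [map_add, mul_add, hm, hn]; push_cast; rfl⟩
  | smul a x _ hx =>
    obtain ⟨m, hm⟩ := hx
    refine ⟨a * m, ?_⟩
    rw [map_zsmul, zsmul_eq_mul, mul_left_comm, hm]
    push_cast
    rfl

/-- common denominator of finitely many rationals -/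
theorem den_fin {ι : Type} [Fintype ι] (c : ι → ℚ) :
    ∃ D : ℕ, 0 < D ∧ ∀ l, ∃ m : ℤ, (D : ℚ) * c l = m := by
  classical
  refine ⟨∏ l, (c l).den, Finset.prod_pos fun l _ => Rat.den_pos _, fun l => ?_⟩
  obtain ⟨t, ht⟩ := Finset.dvd_prod_of_mem (fun l => (c l).den) (Finset.mem_univ l)
  refine ⟨t * (c l).num, ?_⟩
  rw [ht]
  push_cast
  have := Rat.mul_den_eq_num (c l)
  rw [← this]
  ring

/-- rank of the rows -/
theorem rank_row {E : Type} [AddCommGroup E] [Module ℚ E] [FiniteDimensional ℚ E]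
    {k d : ℕ} {V : Submodule ℚ E} (b : Module.Basis (Fin k) ℚ V) (f : Fin d → (E →ₗ[ℚ] ℚ))
    {D : ℕ} (hD : 0 < D) (R : Fin d → Fin k → ℤ) (hR : ∀ i l, (D : ℚ) * f i (b l) = R i l) :
    k ≤ Module.finrank ℚ (Submodule.span ℚ (Set.range fun i l => ((R i l : ℤ) : ℚ))) +
      Module.finrank ℚ (V ⊓ (⨅ i, LinearMap.ker (f i)) : Submodule ℚ E) := by
  classical
  set A : Matrix (Fin d) (Fin k) ℚ := fun i l => ((R i l : ℤ) : ℚ) with hA
  have h1 : Module.finrank ℚ (Submodule.span ℚ (Set.range fun i l => ((R i l : ℤ) : ℚ))) =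
      A.rank := (Matrix.rank_eq_finrank_span_row A).symm
  rw [h1, Matrix.rank]
  have h2 := LinearMap.finrank_range_add_finrank_ker A.mulVecLin
  rw [Module.finrank_fintype_fun_eq_card, Fintype.card_fin] at h2
  have h3 : Module.finrank ℚ (LinearMap.ker A.mulVecLin) ≤
      Module.finrank ℚ (V ⊓ (⨅ i, LinearMap.ker (f i)) : Submodule ℚ E) := by
    let Ψ : (Fin k → ℚ) →ₗ[ℚ] E := V.subtype ∘ₗ b.equivFun.symm.toLinearMap
    have hΨ : Function.Injective Ψ := by
      intro x y hxy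
      exact b.equivFun.symm.injective (Subtype.ext hxy)
    have hle : (LinearMap.ker A.mulVecLin).map Ψ ≤ V ⊓ (⨅ i, LinearMap.ker (f i)) := by
      rintro _ ⟨x, hx, rfl⟩
      rw [Submodule.mem_inf]
      refine ⟨(b.equivFun.symm x).2, ?_⟩
      rw [Submodule.mem_iInf]
      intro i
      rw [LinearMap.mem_ker]
      have hx' : A.mulVecLin x = 0 := hx
      have h4 := congrFun hx' i
      simp only [Matrix.mulVecLin_apply, Matrix.mulVec, dotProduct, Pi.zero_apply] at h4
      have h5 : Ψ x = ∑ l, x l • (b l : E) := by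
        simp only [Ψ, LinearMap.comp_apply, LinearEquiv.coe_coe, Module.Basis.equivFun_symm_apply,
          Submodule.subtype_apply]
        push_cast
        rfl
      rw [h5, map_sum]
      simp only [map_smul, smul_eq_mul]
      have hD' : (D : ℚ) ≠ 0 := by exact_mod_cast hD.ne'
      have h6 : (D : ℚ) * ∑ l, x l * f i (b l) = 0 := by
        rw [← h4, Finset.mul_sum]
        refine Finset.sum_congr rfl fun l _ => ?_
        simp only [hA]
        rw [← hR i l]
        ring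
      exact (mul_eq_zero.1 h6).resolve_left hD'
    calc Module.finrank ℚ (LinearMap.ker A.mulVecLin)
        = Module.finrank ℚ ((LinearMap.ker A.mulVecLin).map Ψ) :=
          (LinearEquiv.finrank_eq (Submodule.equivMapOfInjective Ψ hΨ _))
      _ ≤ _ := Submodule.finrank_mono hle
  omega

theorem noseq {E : Type} [AddCommGroup E] [Module ℚ E] [FiniteDimensional ℚ E]
    (Λ : Submodule ℤ E) (hΛ : Λ.FG) (N : E → ℝ)
    (hN : ∀ f : E →ₗ[ℚ] ℚ, ∃ C : ℝ, 0 ≤ C ∧ ∀ x, |((f x : ℚ) : ℝ)| ≤ C * N x)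
    {q d : ℕ} (p : Fin q → ℕ) (hp : ∀ j, (p j).Prime) (hpi : Function.Injective p)
    (f : Fin q → Fin d → (E →ₗ[ℚ] ℚ)) (w : Fin q → ℝ) (hw : ∀ j, 0 ≤ w j) (a : ℝ)
    (hcond : ∀ V : Submodule ℚ E, V ≠ ⊥ → a * Module.finrank ℚ V <
      ∑ j, w j * ((Module.finrank ℚ V : ℝ) -
        Module.finrank ℚ (V ⊓ (⨅ i, LinearMap.ker (f j i)) : Submodule ℚ E)))
    {C K : ℝ} (hC : 1 ≤ C) (hK : 1 ≤ K)
    (X : ℕ → ℝ) (hX : Tendsto X atTop atTop) (e : ℕ → Fin q → ℕ)
    (he1 : ∀ t j, (X t) ^ (w j) ≤ (p j : ℝ) ^ (e t j))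
    (he2 : ∀ t j, (p j : ℝ) ^ (e t j) ≤ K * (X t) ^ (w j))
    (x : ℕ → E) (hxΛ : ∀ t, x t ∈ Λ) (hx0 : ∀ t, x t ≠ 0)
    (hdiv : ∀ t j i, ∃ m : ℤ, f j i (x t) = (m : ℚ) * (p j : ℚ) ^ (e t j))
    (hsz : ∀ t, N (x t) ≤ C * (X t) ^ a) (hXp : ∀ t, 0 < X t) : False := by
  classical
  -- a subspace of minimal dimension
  have hex : ∃ k, ∃ V : Submodule ℚ E, Module.finrank ℚ V = k ∧ ∃ᶠ t in atTop, x t ∈ V :=
    ⟨_, ⊤, rfl, (Eventually.of_forall fun _ => Submodule.mem_top).frequently⟩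
  obtain ⟨V, hVk, hVf⟩ := Nat.find_spec hex
  have hmin : ∀ V' : Submodule ℚ E, Module.finrank ℚ V' < Nat.find hex →
      ¬ ∃ᶠ t in atTop, x t ∈ V' := fun V' h h' => Nat.find_min hex h ⟨V', rfl, h'⟩
  revert hmin hVk
  generalize Nat.find hex = k
  intro hVk hmin
  have hV0 : V ≠ ⊥ := by
    rintro rfl
    obtain ⟨t, ht⟩ := hVf.exists
    exact hx0 t (by simpa using ht)
  have hk1 : 1 ≤ k := by
    by_contra h
    have h0 : k = 0 := by omega
    rw [h0] at hVk
    exact hV0 (Submodule.finrank_eq_zero.1 hVk)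
  obtain ⟨φ, hφ, hφV⟩ := extraction_of_frequently_atTop hVf
  let b : Module.Basis (Fin k) ℚ V := Module.finBasisOfFinrankEq ℚ V hVk
  have hcex : ∀ l, ∃ c : E →ₗ[ℚ] ℚ, ∀ v : V, c v = b.repr v l := by
    intro l
    obtain ⟨c, hc⟩ := LinearMap.exists_extend (b.coord l)
    refine ⟨c, fun v => ?_⟩
    have := LinearMap.congr_fun hc v
    simpa using this
  choose c hc using hcex
  obtain ⟨D, hD, hDc⟩ := den Λ hΛ c
  choose z hz using fun t l => hDc (x (φ t)) (hxΛ _) l
  have hexp : ∀ v : V, (v : E) = ∑ l, c l v • (b l : E) := by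
    intro v
    have h1 := b.sum_repr v
    have h2 : ((∑ l, b.repr v l • b l : V) : E) = (v : E) := congrArg (fun u : V => (u : E)) h1
    refine h2.symm.trans ?_
    simp only [Submodule.coe_sum, Submodule.coe_smul]
    exact Finset.sum_congr rfl fun l _ => by rw [← hc l v]
  -- the rows
  obtain ⟨D', hD', hRr⟩ := den_fin (fun s : Fin q × Fin d × Fin k => f s.1 s.2.1 (b s.2.2 : E))
  choose R hR using hRr
  have hR' : ∀ j i l, (D' : ℚ) * f j i (b l) = R (j, i, l) := fun j i l => hR (j, i, l)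
  choose M I hMdet hMI hIcard using fun j => complete (fun i l => R (j, i, l))
  have hIc : ∀ j, (k : ℝ) - Module.finrank ℚ (V ⊓ (⨅ i, LinearMap.ker (f j i)) : Submodule ℚ E) ≤
      ((I j).card : ℝ) := by
    intro j
    have h1 := rank_row b (f j) hD' (fun i l => R (j, i, l)) (hR' j)
    rw [← hIcard j] at h1
    have h2 : (k : ℝ) ≤ ((I j).card : ℝ) +
        Module.finrank ℚ (V ⊓ (⨅ i, LinearMap.ker (f j i)) : Submodule ℚ E) := by
      exact_mod_cast h1
    linarith
  -- the divisibility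
  have hdvd : ∀ t j i, ((p j : ℤ) ^ (e (φ t) j)) ∣ ∑ l, R (j, i, l) * z t l := by
    intro t j i
    obtain ⟨m, hm⟩ := hdiv (φ t) j i
    refine ⟨D' * D * m, ?_⟩
    have h1 : (((∑ l, R (j, i, l) * z t l : ℤ)) : ℚ) = D' * D * f j i (x (φ t)) := by
      push_cast
      have h2 : x (φ t) = ∑ l, c l (x (φ t)) • (b l : E) := hexp ⟨x (φ t), hφV t⟩
      conv_rhs => rw [h2]
      rw [map_sum, Finset.mul_sum]
      refine Finset.sum_congr rfl fun l _ => ?_
      rw [← hR' j i l, ← hz t l, map_smul, smul_eq_mul]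
      ring
    have h3 : (((∑ l, R (j, i, l) * z t l : ℤ)) : ℚ) =
        (((p j : ℤ) ^ (e (φ t) j) * (D' * D * m) : ℤ) : ℚ) := by
      rw [h1, hm]
      push_cast
      ring
    exact_mod_cast h3
  -- sizes
  choose Cl hCl0 hCl using fun l => hN (c l)
  set Cz : ℝ := 1 + ∑ l, D * Cl l * C with hCz
  have hCz1 : 1 ≤ Cz := by
    have : 0 ≤ ∑ l, (D : ℝ) * Cl l * C := Finset.sum_nonneg fun l _ =>
      mul_nonneg (mul_nonneg (Nat.cast_nonneg _) (hCl0 l)) (by linarith)
    rw [hCz]; linarith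
  have hzle : ∀ t l, |(z t l : ℝ)| ≤ Cz * (X (φ t)) ^ a := by
    intro t l
    have h1 : ((z t l : ℤ) : ℝ) = (D : ℝ) * ((c l (x (φ t)) : ℚ) : ℝ) := by
      have := hz t l
      have h2 : (((z t l : ℤ) : ℚ) : ℝ) = (((D : ℚ) * c l (x (φ t)) : ℚ) : ℝ) := by rw [this]
      push_cast at h2
      exact h2
    rw [h1, abs_mul, Nat.abs_cast]
    have hx' : 0 ≤ (X (φ t)) ^ a := (Real.rpow_pos_of_pos (hXp _) _).le
    have h3 : (D : ℝ) * Cl l * C ≤ Cz := by
      rw [hCz]
      have := Finset.single_le_sum (f := fun l => (D : ℝ) * Cl l * C) (fun l _ =>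
        mul_nonneg (mul_nonneg (Nat.cast_nonneg _) (hCl0 l)) (by linarith)) (Finset.mem_univ l)
      linarith
    calc (D : ℝ) * |((c l (x (φ t)) : ℚ) : ℝ)| ≤ D * (Cl l * (C * (X (φ t)) ^ a)) := by
          apply mul_le_mul_of_nonneg_left _ (Nat.cast_nonneg _)
          exact (hCl l _).trans (mul_le_mul_of_nonneg_left (hsz _) (hCl0 l))
      _ = (D : ℝ) * Cl l * C * (X (φ t)) ^ a := by ring
      _ ≤ _ := mul_le_mul_of_nonneg_right h3 hx'
  -- the gap
  set r : Fin q → ℝ := fun j => (k : ℝ) -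
    Module.finrank ℚ (V ⊓ (⨅ i, LinearMap.ker (f j i)) : Submodule ℚ E) with hr
  have hgap : 0 < ∑ j, w j * r j - a * k := by
    have := hcond V hV0
    rw [hVk] at this
    simp only [hr]
    linarith
  set γ : ℝ := (∑ j, w j * r j - a * k) / 2 with hγ
  have hγ0 : 0 < γ := by rw [hγ]; linarith
  have hW0 : 0 ≤ ∑ j, w j := Finset.sum_nonneg fun j _ => hw j
  have hlCz : 0 ≤ Real.log Cz := Real.log_nonneg hCz1
  have hlK : 0 ≤ Real.log K := Real.log_nonneg hK
  set N0 : ℝ := Real.log K + Real.log Cz + (k : ℝ) * Real.log Cz / γ + 1 with hN0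
  have hN01 : 1 ≤ N0 := by
    have : 0 ≤ (k : ℝ) * Real.log Cz / γ := by positivity
    rw [hN0]; linarith
  obtain ⟨t0, ht0⟩ := eventually_atTop.1
    (((Real.tendsto_log_atTop.comp hX).comp hφ.tendsto_atTop).eventually_ge_atTop N0)
  simp only [Function.comp_apply] at ht0
  have hplaces : Places (1 : Matrix (Fin k) (Fin k) ℤ) M p :=
    ⟨by simp, hMdet, fun j => (hp j).two_le, fun j j' hjj =>
      (Nat.coprime_primes (hp j) (hp j')).2 fun h => hjj (hpi h)⟩
  have hlp : ∀ j, 0 < Real.log (p j) := fun j => Real.log_pos (by exact_mod_cast (hp j).one_lt)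
  obtain ⟨y, hy, hfr⟩ := Main.subspace k q hk1 1 M p hplaces ((∑ j, w j) + |a| + 2) γ
    (by have := abs_nonneg a; linarith) hγ0 (fun t => Real.log (X (φ (t + t0))))
    (((Real.tendsto_log_atTop.comp hX).comp hφ.tendsto_atTop).comp (tendsto_add_atTop_nat t0))
    (fun t j l => if l ∈ I j then e (φ (t + t0)) j else 0)
    (fun t _ => Cz * (X (φ (t + t0))) ^ a)
    (by
      intro t
      have g1 := ht0 (t + t0) (by omega)
      have g2 := hXp (φ (t + t0))
      set L := Real.log (X (φ (t + t0))) with hL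
      have hL0 : 0 ≤ L := by linarith
      have hu : ∀ j, (e (φ (t + t0)) j : ℝ) * Real.log (p j) ≤ Real.log K + w j * L := by
        intro j
        have h2 := Real.log_le_log (pow_pos (by exact_mod_cast (hp j).pos) _)
          (he2 (φ (t + t0)) j)
        rw [Real.log_pow, Real.log_mul (by linarith) (by positivity), Real.log_rpow g2] at h2
        exact h2
      have hl : ∀ j, w j * L ≤ (e (φ (t + t0)) j : ℝ) * Real.log (p j) := by
        intro j
        have h2 := Real.log_le_log (by positivity) (he1 (φ (t + t0)) j)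
        rw [Real.log_pow, Real.log_rpow g2] at h2
        exact h2
      have hlogA : Real.log (Cz * (X (φ (t + t0))) ^ a) = Real.log Cz + a * L := by
        rw [Real.log_mul (by linarith) (by positivity), Real.log_rpow g2]
      have hkC : 0 ≤ (k : ℝ) * Real.log Cz / γ := by positivity
      refine ⟨?_, ?_, ?_, ?_⟩
      · intro j l
        beta_reduce
        split_ifs with h
        · have h1 : w j ≤ ∑ j, w j :=
            Finset.single_le_sum (f := w) (fun j _ => hw j) (Finset.mem_univ j)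
          have h2 := hu j
          have h3 : w j * L ≤ (∑ j, w j) * L := mul_le_mul_of_nonneg_right h1 hL0
          have h4 : 0 ≤ |a| * L := by positivity
          rw [hN0] at g1
          nlinarith
        · simp only [Nat.cast_zero, zero_mul]
          have h4 : 0 ≤ |a| := abs_nonneg a
          positivity
      · intro _
        positivity
      · intro _
        beta_reduce
        rw [hlogA]
        have h1 : |Real.log Cz + a * L| ≤ Real.log Cz + |a| * L := by
          refine (abs_add_le _ _).trans ?_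
          rw [abs_of_nonneg hlCz, abs_mul, abs_of_nonneg hL0]
        refine h1.trans ?_
        rw [hN0] at g1
        have h3 : 0 ≤ (∑ j, w j) * L := by positivity
        nlinarith
      · simp only [hlogA, Finset.sum_const, Finset.card_univ, Fintype.card_fin, nsmul_eq_mul]
        have h1 : ∀ j : Fin q, ∑ l : Fin k,
            ((if l ∈ I j then e (φ (t + t0)) j else 0 : ℕ) : ℝ) * Real.log (p j) =
            ((I j).card : ℝ) * ((e (φ (t + t0)) j : ℝ) * Real.log (p j)) := by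
          intro j
          rw [← Finset.sum_mul]
          have h3 : ∑ l : Fin k, ((if l ∈ I j then e (φ (t + t0)) j else 0 : ℕ) : ℝ) =
              ((I j).card : ℝ) * (e (φ (t + t0)) j : ℝ) := by
            push_cast
            rw [Finset.sum_ite_mem, Finset.univ_inter, Finset.sum_const, nsmul_eq_mul]
          rw [h3, mul_assoc]
        rw [Finset.sum_congr rfl fun j _ => h1 j]
        have h5 : ∑ j, w j * r j * L ≤
            ∑ j, ((I j).card : ℝ) * ((e (φ (t + t0)) j : ℝ) * Real.log (p j)) := by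
          refine Finset.sum_le_sum fun j _ => ?_
          have h6 := hIc j
          have h7 : 0 ≤ w j * L := mul_nonneg (hw j) hL0
          calc w j * r j * L = r j * (w j * L) := by ring
            _ ≤ ((I j).card : ℝ) * (w j * L) := mul_le_mul_of_nonneg_right h6 h7
            _ ≤ _ := mul_le_mul_of_nonneg_left (hl j) (Nat.cast_nonneg _)
        refine le_trans ?_ h5
        rw [← Finset.sum_mul]
        have h8 : (∑ j, w j * r j) = 2 * γ + a * k := by rw [hγ]; ring
        rw [h8]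
        have h9 : (k : ℝ) * Real.log Cz / γ ≤ L := by
          rw [hN0] at g1
          linarith
        rw [div_le_iff₀ hγ0] at h9
        nlinarith)
    (fun t => z (t + t0)) (by
      intro t h0
      apply hx0 (φ (t + t0))
      have h1 : x (φ (t + t0)) = ∑ l, c l (x (φ (t + t0))) • (b l : E) :=
        hexp ⟨x (φ (t + t0)), hφV _⟩
      rw [h1]
      refine Finset.sum_eq_zero fun l _ => ?_
      have h2 : z (t + t0) l = 0 := congrFun h0 l
      have h3 := hz (t + t0) l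
      rw [h2, Int.cast_zero] at h3
      have hD'' : (D : ℚ) ≠ 0 := by exact_mod_cast hD.ne'
      rw [(mul_eq_zero.1 h3).resolve_left hD'', zero_smul])
    (by
      intro t
      refine ⟨fun l => ?_, fun j l => ?_⟩
      · have : ∑ j, (1 : Matrix (Fin k) (Fin k) ℤ) l j * z (t + t0) j = z (t + t0) l := by
          simp [Matrix.one_apply]
        rw [this]
        exact hzle (t + t0) l
      · by_cases h : l ∈ I j
        · simp only [if_pos h]
          obtain ⟨i, hi⟩ := hMI j l h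
          rw [hi]
          exact hdvd (t + t0) j i
        · simp only [if_neg h, pow_zero]
          exact one_dvd _)
  -- the smaller subspace
  set F : E →ₗ[ℚ] ℚ := ∑ l, ((y l : ℤ) : ℚ) • c l with hF
  obtain ⟨l0, hl0⟩ := Function.ne_iff.1 hy
  have hl0' : y l0 ≠ 0 := hl0
  apply hmin (V ⊓ LinearMap.ker F)
  · rw [← hVk]
    apply Submodule.finrank_lt_finrank_of_lt
    refine lt_of_le_of_ne inf_le_left fun h => ?_
    have h1 : (b l0 : E) ∈ V ⊓ LinearMap.ker F := by
      rw [h]; exact (b l0).2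
    have h2 : F (b l0) = 0 := h1.2
    rw [hF, LinearMap.sum_apply] at h2
    simp only [LinearMap.smul_apply, hc, Module.Basis.repr_self, smul_eq_mul] at h2
    rw [Finset.sum_eq_single l0] at h2
    · simp only [Finsupp.single_eq_same, mul_one] at h2
      exact hl0' (by exact_mod_cast h2)
    · intro l _ hl
      rw [Finsupp.single_eq_of_ne hl, mul_zero]
    · simp
  · rw [Filter.frequently_atTop] at hfr ⊢
    intro n
    obtain ⟨s, hs, hs2⟩ := hfr n
    refine ⟨φ (s + t0), ?_, hφV _, ?_⟩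
    · have := hφ.id_le (s + t0)
      simp only [id] at this
      omega
    · rw [SetLike.mem_coe, LinearMap.mem_ker, hF, LinearMap.sum_apply]
      simp only [LinearMap.smul_apply, smul_eq_mul]
      have hD'' : (D : ℚ) ≠ 0 := by exact_mod_cast hD.ne'
      have h1 : (D : ℚ) * ∑ l, (y l : ℚ) * c l (x (φ (s + t0))) = 0 := by
        rw [Finset.mul_sum]
        have h2 : ∀ l, (D : ℚ) * ((y l : ℚ) * c l (x (φ (s + t0)))) = ((y l * z (s + t0) l : ℤ) : ℚ) := by
          intro l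
          push_cast
          rw [← hz (s + t0) l]
          ring
        rw [Finset.sum_congr rfl fun l _ => h2 l, ← Int.cast_sum, hs2, Int.cast_zero]
      exact (mul_eq_zero.1 h1).resolve_left hD''

/-- the uniform version -/
theorem noshort {E : Type} [AddCommGroup E] [Module ℚ E] [FiniteDimensional ℚ E]
    (Λ : Submodule ℤ E) (hΛ : Λ.FG) (N : E → ℝ)
    (hN : ∀ f : E →ₗ[ℚ] ℚ, ∃ C : ℝ, 0 ≤ C ∧ ∀ x, |((f x : ℚ) : ℝ)| ≤ C * N x)
    {q d : ℕ} (p : Fin q → ℕ) (hp : ∀ j, (p j).Prime) (hpi : Function.Injective p)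
    (f : Fin q → Fin d → (E →ₗ[ℚ] ℚ)) (w : Fin q → ℝ) (hw : ∀ j, 0 ≤ w j) (a : ℝ)
    (hcond : ∀ V : Submodule ℚ E, V ≠ ⊥ → a * Module.finrank ℚ V <
      ∑ j, w j * ((Module.finrank ℚ V : ℝ) -
        Module.finrank ℚ (V ⊓ (⨅ i, LinearMap.ker (f j i)) : Submodule ℚ E)))
    {C K : ℝ} (hC : 1 ≤ C) (hK : 1 ≤ K) :
    ∃ X0 : ℝ, 0 < X0 ∧ ∀ X : ℝ, X0 ≤ X → ∀ e : Fin q → ℕ,
      (∀ j, X ^ (w j) ≤ (p j : ℝ) ^ (e j)) → (∀ j, (p j : ℝ) ^ (e j) ≤ K * X ^ (w j)) →
      ∀ x ∈ Λ, x ≠ 0 → (∀ j i, ∃ m : ℤ, f j i x = (m : ℚ) * (p j : ℚ) ^ (e j)) →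
      C * X ^ a < N x := by
  by_contra hcon
  push Not at hcon
  have h1 : ∀ t : ℕ, ∃ X : ℝ, (t : ℝ) + 1 ≤ X ∧ ∃ (e : Fin q → ℕ),
      (∀ j, X ^ (w j) ≤ (p j : ℝ) ^ (e j)) ∧ (∀ j, (p j : ℝ) ^ (e j) ≤ K * X ^ (w j)) ∧
      ∃ x ∈ Λ, x ≠ 0 ∧ (∀ j i, ∃ m : ℤ, f j i x = (m : ℚ) * (p j : ℚ) ^ (e j)) ∧
      N x ≤ C * X ^ a := by
    intro t
    obtain ⟨X, h2, e, h3, h4, x, h5, h6, h7, h8⟩ := hcon ((t : ℝ) + 1) (by positivity)
    exact ⟨X, h2, e, h3, h4, x, h5, h6, h7, h8⟩
  choose X hX e h3 h4 x h5 h6 h7 h8 using h1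
  refine noseq Λ hΛ N hN p hp hpi f w hw a hcond hC hK X ?_ e h3 h4 x h5 h6 h7 h8 (fun t => ?_)
  · refine tendsto_atTop_mono (fun t => ?_) tendsto_natCast_atTop_atTop
    have := hX t
    linarith
  · have := hX t
    have h0 : (0 : ℝ) ≤ t := Nat.cast_nonneg t
    linarith

end Pool.Agent.X4.KA
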