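import Mathlib
import Pool.Agent.X4.KA.NF
import Pool.Agent.X4.KA.NoShort

/-!
# The lattices over a number field have no short vectors
-/

set_option autoImplicit false

namespace Pool.Agent.X4.KA

open NumberField Module Finset

variable {K : Type} [Field K] [NumberField K]

/-- the size of a pair -/
noncomputable def sz (z : 𝓞 K × 𝓞 K) : ℝ := max (house (z.1 : K)) (house (z.2 : K))

/-- the three forms -/
def form (j : Fin 3) (z : 𝓞 K × 𝓞 K) : 𝓞 K := ![z.1, z.2 - z.1, z.2] j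

/-- the lattice -/
def InL (p e : Fin 3 → ℕ) (z : 𝓞 K × 𝓞 K) : Prop :=
  ∀ j, ((p j : 𝓞 K) ^ (e j)) ∣ form j z

/-- the determinant -/
def Delta (z z' : 𝓞 K × 𝓞 K) : 𝓞 K := z.1 * z'.2 - z.2 * z'.1

/-- the three forms over the field -/
noncomputable def formK (K : Type) [Field K] [NumberField K] (j : Fin 3) : K × K →ₗ[ℚ] K :=
  ![LinearMap.fst ℚ K K, LinearMap.snd ℚ K K - LinearMap.fst ℚ K K, LinearMap.snd ℚ K K] j

theorem formK_coe (j : Fin 3) (z : 𝓞 K × 𝓞 K) :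
    formK K j ((z.1 : K), (z.2 : K)) = ((form j z : 𝓞 K) : K) := by
  fin_cases j <;> simp [formK, form]

theorem formK_ker {i j : Fin 3} (hij : i ≠ j) (z : K × K) (hi : formK K i z = 0)
    (hj : formK K j z = 0) : z = 0 := by
  obtain ⟨a, b⟩ := z
  have h : a = 0 ∧ b = 0 := by
    fin_cases i <;> fin_cases j <;>
      simp only [formK, Fin.zero_eta, Fin.mk_one, Fin.reduceFinMk, Matrix.cons_val_zero,
        Matrix.cons_val_one, Matrix.cons_val, LinearMap.fst_apply, LinearMap.snd_apply,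
        LinearMap.sub_apply, ne_eq, not_true_eq_false] at hij hi hj
    · exact ⟨hi, by rw [hi, sub_zero] at hj; exact hj⟩
    · exact ⟨hi, hj⟩
    · exact ⟨hj, by rw [hj, sub_zero] at hi; exact hi⟩
    · exact ⟨by rw [hj, zero_sub, neg_eq_zero] at hi; exact hi, hj⟩
    · exact ⟨hj, hi⟩
    · exact ⟨by rw [hi, zero_sub, neg_eq_zero] at hj; exact hj, hi⟩
  rw [h.1, h.2]
  rfl

theorem lp (w : Fin 3 → ℝ) (hw0 : ∀ j, 0 ≤ w j) (hw1 : ∀ j, w j < 1) (hs : ∑ j, w j < 2) :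
    ∃ θ : ℝ, 0 < θ ∧ ∀ (m : Fin 3 → ℝ) (k : ℝ), (∀ j, 0 ≤ m j) →
      (∀ i j, i ≠ j → m i + m j ≤ k) → ∑ j, w j * m j ≤ (1 - 2 * θ) * k := by
  rw [Fin.sum_univ_three] at hs
  set μ : ℝ := max (max (w 0) (w 1)) (max (w 2) ((w 0 + w 1 + w 2) / 2)) with hμ
  have g0 : w 0 ≤ μ := (le_max_left _ _).trans (le_max_left _ _)
  have g1 : w 1 ≤ μ := (le_max_right _ _).trans (le_max_left _ _)
  have g2 : w 2 ≤ μ := (le_max_left _ _).trans (le_max_right _ _)
  have g3 : (w 0 + w 1 + w 2) / 2 ≤ μ := (le_max_right _ _).trans (le_max_right _ _)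
  have hμ1 : μ < 1 := by
    rw [hμ]
    exact max_lt (max_lt (hw1 0) (hw1 1)) (max_lt (hw1 2) (by linarith))
  refine ⟨(1 - μ) / 2, by linarith, fun m k hm hmk => ?_⟩
  have e1 : (1 - 2 * ((1 - μ) / 2)) * k = μ * k := by ring
  rw [e1, Fin.sum_univ_three]
  have h01 := hmk 0 1 (by decide)
  have h02 := hmk 0 2 (by decide)
  have h12 := hmk 1 2 (by decide)
  have m0 := hm 0
  have m1 := hm 1
  have m2 := hm 2
  have hk : 0 ≤ k := by linarith
  have f0 := mul_le_mul_of_nonneg_right g0 hk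
  have f1 := mul_le_mul_of_nonneg_right g1 hk
  have f2 := mul_le_mul_of_nonneg_right g2 hk
  have f3 := mul_le_mul_of_nonneg_right g3 hk
  by_cases c0 : w 0 ≤ w 1 + w 2
  · by_cases c1 : w 1 ≤ w 0 + w 2
    · by_cases c2 : w 2 ≤ w 0 + w 1
      · have a1 := mul_le_mul_of_nonneg_left h01 (show 0 ≤ (w 0 + w 1 - w 2) / 2 by linarith)
        have a2 := mul_le_mul_of_nonneg_left h02 (show 0 ≤ (w 0 + w 2 - w 1) / 2 by linarith)
        have a3 := mul_le_mul_of_nonneg_left h12 (show 0 ≤ (w 1 + w 2 - w 0) / 2 by linarith)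
        nlinarith
      · push Not at c2
        have a1 := mul_le_mul_of_nonneg_left h02 (hw0 0)
        have a2 := mul_le_mul_of_nonneg_left h12 (hw0 1)
        have a3 := mul_le_mul_of_nonneg_left (show m 2 ≤ k by linarith)
          (show 0 ≤ w 2 - w 0 - w 1 by linarith)
        nlinarith
    · push Not at c1
      have a1 := mul_le_mul_of_nonneg_left h01 (hw0 0)
      have a2 := mul_le_mul_of_nonneg_left h12 (hw0 2)
      have a3 := mul_le_mul_of_nonneg_left (show m 1 ≤ k by linarith)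
        (show 0 ≤ w 1 - w 0 - w 2 by linarith)
      nlinarith
  · push Not at c0
    have a1 := mul_le_mul_of_nonneg_left h01 (hw0 1)
    have a2 := mul_le_mul_of_nonneg_left h02 (hw0 2)
    have a3 := mul_le_mul_of_nonneg_left (show m 0 ≤ k by linarith)
      (show 0 ≤ w 0 - w 1 - w 2 by linarith)
    nlinarith

theorem dims (V : Submodule ℚ (K × K)) {i j : Fin 3} (hij : i ≠ j) :
    finrank ℚ (V ⊓ LinearMap.ker (formK K i) : Submodule ℚ (K × K)) +
      finrank ℚ (V ⊓ LinearMap.ker (formK K j) : Submodule ℚ (K × K)) ≤ finrank ℚ V := by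
  have h1 := Submodule.finrank_sup_add_finrank_inf_eq (V ⊓ LinearMap.ker (formK K i))
    (V ⊓ LinearMap.ker (formK K j))
  have h2 : (V ⊓ LinearMap.ker (formK K i)) ⊓ (V ⊓ LinearMap.ker (formK K j)) = ⊥ := by
    rw [eq_bot_iff]
    rintro z ⟨⟨-, h3⟩, -, h4⟩
    rw [Submodule.mem_bot]
    exact formK_ker hij z h3 h4
  rw [h2, finrank_bot, add_zero] at h1
  rw [← h1]
  exact Submodule.finrank_mono (sup_le inf_le_left inf_le_left)

/-- the size on `K × K` -/
noncomputable def szK (z : K × K) : ℝ := max (house z.1) (house z.2)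

theorem min_bound (K : Type) [Field K] [NumberField K] (w : Fin 3 → ℝ) (hw0 : ∀ j, 0 ≤ w j)
    (hw1 : ∀ j, w j < 1) (hs : ∑ j, w j < 2) :
    ∃ θ : ℝ, 0 < θ ∧ ∀ (p : Fin 3 → ℕ) (_ : ∀ j, (p j).Prime) (_ : Function.Injective p)
      (K0 : ℝ), 1 ≤ K0 → ∃ X0 : ℝ, 0 < X0 ∧ ∀ X : ℝ, X0 ≤ X → ∀ e : Fin 3 → ℕ,
      (∀ j, X ^ (w j) ≤ (p j : ℝ) ^ (e j)) → (∀ j, (p j : ℝ) ^ (e j) ≤ K0 * X ^ (w j)) →
      ∀ z : 𝓞 K × 𝓞 K, z ≠ 0 → InL p e z → X ^ (∑ j, w j - 1 + θ) < sz z := by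
  classical
  obtain ⟨θ, hθ, hlp⟩ := lp w hw0 hw1 hs
  refine ⟨θ, hθ, fun p hp hpi K0 hK0 => ?_⟩
  -- the integral pairs
  let ι : 𝓞 K × 𝓞 K →ₗ[ℤ] K × K :=
    LinearMap.prodMap (Algebra.linearMap (𝓞 K) K).toAddMonoidHom.toIntLinearMap
      (Algebra.linearMap (𝓞 K) K).toAddMonoidHom.toIntLinearMap
  have hι : ∀ z, ι z = ((z.1 : K), (z.2 : K)) := fun z => rfl
  have hfg : (LinearMap.range ι).FG := by
    rw [LinearMap.range_eq_map]
    exact Submodule.FG.map _ Module.Finite.fg_top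
  have hN : ∀ f : (K × K) →ₗ[ℚ] ℚ, ∃ C : ℝ, 0 ≤ C ∧ ∀ x, |((f x : ℚ) : ℝ)| ≤ C * szK x := by
    intro f
    obtain ⟨C1, hC1, h1⟩ := fun_bound K (f ∘ₗ LinearMap.inl ℚ K K)
    obtain ⟨C2, hC2, h2⟩ := fun_bound K (f ∘ₗ LinearMap.inr ℚ K K)
    refine ⟨C1 + C2, by linarith, fun x => ?_⟩
    have h3 : f x = (f ∘ₗ LinearMap.inl ℚ K K) x.1 + (f ∘ₗ LinearMap.inr ℚ K K) x.2 := by
      simp only [LinearMap.comp_apply, LinearMap.inl_apply, LinearMap.inr_apply]
      rw [← map_add]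
      simp
    rw [h3, Rat.cast_add]
    refine (abs_add_le _ _).trans ?_
    have h4 := h1 x.1
    have h5 := h2 x.2
    have h6 : C1 * house x.1 ≤ C1 * szK x := mul_le_mul_of_nonneg_left (le_max_left _ _) hC1
    have h7 : C2 * house x.2 ≤ C2 * szK x := mul_le_mul_of_nonneg_left (le_max_right _ _) hC2
    linarith
  set f : Fin 3 → Fin (dg K) → ((K × K) →ₗ[ℚ] ℚ) := fun j i => (omQ K).coord i ∘ₗ formK K j with hf
  have hker : ∀ j, (⨅ i, LinearMap.ker (f j i)) = LinearMap.ker (formK K j) := by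
    intro j
    ext z
    rw [Submodule.mem_iInf, LinearMap.mem_ker]
    constructor
    · intro h
      have h1 : (omQ K).repr (formK K j z) = 0 := by
        ext i
        have := h i
        rw [LinearMap.mem_ker] at this
        exact this
      exact (omQ K).repr.map_eq_zero_iff.1 h1
    · intro h i
      rw [LinearMap.mem_ker]
      simp only [hf, LinearMap.comp_apply]
      rw [h, map_zero]
  obtain ⟨X0, hX0, H⟩ := noshort (LinearMap.range ι) hfg szK hN p hp hpi f w hw0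
    (∑ j, w j - 1 + θ) (fun V hV => by
      have h1 := hlp (fun j => (finrank ℚ (V ⊓ (⨅ i, LinearMap.ker (f j i)) :
        Submodule ℚ (K × K)) : ℝ)) (finrank ℚ V) (fun j => Nat.cast_nonneg _) (fun i j hij => by
          rw [hker, hker]
          exact_mod_cast dims V hij)
      have h2 : (0 : ℝ) < finrank ℚ V := by
        have : finrank ℚ V ≠ 0 := fun h => hV (Submodule.finrank_eq_zero.1 h)
        exact_mod_cast Nat.pos_of_ne_zero this
      simp only [mul_sub, Finset.sum_sub_distrib, ← Finset.sum_mul]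
      nlinarith) (le_refl (1 : ℝ)) hK0
  refine ⟨X0, hX0, fun X hX e he1 he2 z hz hzL => ?_⟩
  have := H X hX e he1 he2 (ι z) ⟨z, rfl⟩ (by
    intro h
    apply hz
    rw [hι, Prod.mk_eq_zero] at h
    have h1 : z.1 = 0 := RingOfIntegers.coe_eq_zero_iff.1 h.1
    have h2 : z.2 = 0 := RingOfIntegers.coe_eq_zero_iff.1 h.2
    exact Prod.ext h1 h2) (fun j i => by
      obtain ⟨y, hy⟩ := hzL j
      refine ⟨(om K).repr y i, ?_⟩
      simp only [hf, LinearMap.comp_apply, Basis.coord_apply]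
      rw [hι, formK_coe, hy, omQ_repr]
      have h1 : (p j : 𝓞 K) ^ (e j) * y = (((p j) ^ (e j) : ℕ) : ℤ) • y := by
        rw [zsmul_eq_mul]
        push_cast
        rfl
      rw [h1, map_smul, Finsupp.smul_apply, smul_eq_mul]
      push_cast
      ring)
  rw [one_mul] at this
  exact this

end Pool.Agent.X4.KA
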