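import Mathlib
import Pool.Agent.X4.KA.Ar

/-!
# Dividing by the content
-/

set_option autoImplicit false

namespace Pool.Agent.X4.KA

open NumberField Module Finset

variable {K : Type} [Field K] [NumberField K]

/-- the norm of the content -/
noncomputable def cn (z : 𝓞 K × 𝓞 K) : ℕ := Ideal.absNorm (Ideal.span {z.1, z.2})

theorem cn_pos {z : 𝓞 K × 𝓞 K} (hz : z ≠ 0) : 0 < cn z := by
  rw [Nat.pos_iff_ne_zero]
  intro h
  unfold cn at h
  rw [Ideal.absNorm_eq_zero_iff, Ideal.span_eq_bot] at h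
  apply hz
  exact Prod.ext (h z.1 (by simp)) (h z.2 (by simp))

theorem cn_mem (z : 𝓞 K × 𝓞 K) : ∃ s r : 𝓞 K, (cn z : 𝓞 K) = s * z.1 + r * z.2 := by
  have h := Ideal.absNorm_mem (Ideal.span {z.1, z.2})
  rw [Ideal.mem_span_pair] at h
  obtain ⟨s, r, h⟩ := h
  exact ⟨s, r, h.symm⟩

theorem norm_int_le (β : 𝓞 K) : ((Algebra.norm ℤ β).natAbs : ℝ) ≤ house (β : K) ^ (dg K) := by
  have h1 : ‖Algebra.norm ℚ (β : K)‖ ≤ house (β : K) ^ (dg K) := by
    classical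
    obtain ⟨σ⟩ : Nonempty (K →+* ℂ) := inferInstance
    have h2 := norm_norm_le_norm_mul_house_pow (β : K) σ
    have hd : dg K = (finrank ℚ K - 1) + 1 := by
      have : 0 < finrank ℚ K := finrank_pos
      unfold dg
      omega
    rw [hd, pow_succ, mul_comm]
    exact h2.trans (mul_le_mul_of_nonneg_right (norm_embedding_le_house _ _)
      (pow_nonneg (house_nonneg _) _))
  have h3 : ((Algebra.norm ℤ β).natAbs : ℝ) = ‖Algebra.norm ℚ (β : K)‖ := by
    rw [← Algebra.coe_norm_int, ← Rat.norm_cast_real, Real.norm_eq_abs, Nat.cast_natAbs]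
    push_cast
    rfl
  rw [h3]
  exact h1

theorem norm_lower (β : 𝓞 K) (σ : K →+* ℂ) :
    ((Algebra.norm ℤ β).natAbs : ℝ) ≤ ‖σ (β : K)‖ * house (β : K) ^ (dg K - 1) := by
  have h2 := norm_norm_le_norm_mul_house_pow (β : K) σ
  have h3 : ((Algebra.norm ℤ β).natAbs : ℝ) = ‖Algebra.norm ℚ (β : K)‖ := by
    rw [← Algebra.coe_norm_int, ← Rat.norm_cast_real, Real.norm_eq_abs, Nat.cast_natAbs]
    push_cast
    rfl
  rw [h3]
  exact h2

/-- small elements of ideals -/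
theorem small_elt (K : Type) [Field K] [NumberField K] : ∃ C : ℝ, 1 ≤ C ∧ ∀ b : Ideal (𝓞 K),
    b ≠ ⊥ → ∃ β ∈ b, β ≠ 0 ∧ house (β : K) ^ (dg K) ≤ C * (Ideal.absNorm b : ℝ) := by
  classical
  obtain ⟨C, hC1, hC⟩ := count_low K
  have hd : 0 < dg K := finrank_pos
  refine ⟨(4 * C) ^ (dg K), one_le_pow₀ (by linarith), fun b hb => ?_⟩
  have hN0 : Ideal.absNorm b ≠ 0 := fun h => hb (Ideal.absNorm_eq_zero_iff.1 h)
  set N : ℝ := (Ideal.absNorm b : ℝ) with hN
  have hN1 : 1 ≤ N := by rw [hN]; exact_mod_cast Nat.one_le_iff_ne_zero.2 hN0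
  set r : ℝ := N ^ (1 / (dg K : ℝ)) with hr
  have hr0 : 0 < r := Real.rpow_pos_of_pos (by linarith) _
  have hdR : (dg K : ℝ) ≠ 0 := by exact_mod_cast hd.ne'
  have hrd : r ^ (dg K) = N := by
    rw [hr, ← Real.rpow_natCast, ← Real.rpow_mul (by linarith), one_div, inv_mul_cancel₀ hdR,
      Real.rpow_one]
  obtain ⟨F, hF, hFc⟩ := hC (2 * C * r) (by positivity)
  have h1 : (2 * C * r / C) ^ (dg K) = 2 ^ (dg K) * N := by
    have : 2 * C * r / C = 2 * r := by field_simp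
    rw [this, mul_pow, hrd]
  rw [h1] at hFc
  have h2 : N < F.card := by
    have h3 : (2 : ℝ) ≤ 2 ^ (dg K) := by
      calc (2 : ℝ) = 2 ^ 1 := (pow_one _).symm
        _ ≤ 2 ^ (dg K) := pow_le_pow_right₀ (by norm_num) hd
    nlinarith
  have hfin : Finite (𝓞 K ⧸ b) := (Ideal.absNorm_ne_zero_iff b).1 hN0
  have := Fintype.ofFinite (𝓞 K ⧸ b)
  have h3 : (Finset.univ : Finset (𝓞 K ⧸ b)).card < F.card := by
    rw [Finset.card_univ, ← Nat.card_eq_fintype_card]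
    have : (Nat.card (𝓞 K ⧸ b) : ℝ) < F.card := h2
    exact_mod_cast this
  obtain ⟨x, hx, y, hy, hxy, heq⟩ := Finset.exists_ne_map_eq_of_card_lt_of_maps_to h3
    (f := Ideal.Quotient.mk b) (fun x _ => Finset.mem_univ _)
  refine ⟨x - y, (Ideal.Quotient.mk_eq_mk_iff_sub_mem x y).1 heq, sub_ne_zero.2 hxy, ?_⟩
  have h4 : house ((x - y : 𝓞 K) : K) ≤ 4 * C * r := by
    have h5 : ((x - y : 𝓞 K) : K) = (x : K) + (-(y : K)) := by push_cast; ring
    rw [h5]
    refine (house_add_le _ _).trans ?_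
    have h6 : house (-(y : K)) = house (y : K) := by unfold house; rw [map_neg, norm_neg]
    rw [h6]
    have := hF x hx
    have := hF y hy
    linarith
  calc house ((x - y : 𝓞 K) : K) ^ (dg K) ≤ (4 * C * r) ^ (dg K) :=
        pow_le_pow_left₀ (house_nonneg _) h4 _
    _ = _ := by rw [mul_pow, hrd]

theorem content (K : Type) [Field K] [NumberField K] : ∃ C : ℝ, 1 ≤ C ∧ ∀ z : 𝓞 K × 𝓞 K, z ≠ 0 →
    ∃ (y : 𝓞 K × 𝓞 K) (t : K), t ≠ 0 ∧ (z.1 : K) = t * y.1 ∧ (z.2 : K) = t * y.2 ∧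
      (∀ σ : K →+* ℂ, ‖σ t‖ ^ (dg K) ≤ C * cn z) ∧
      (∀ σ : K →+* ℂ, (cn z : ℝ) ≤ C * ‖σ t‖ ^ (dg K)) ∧
      (cn y : ℝ) ≤ C ∧ (∃ τ : 𝓞 K, (τ : K) = cn y * t) ∧
      (∀ N a b : 𝓞 K, IsCoprime (Ideal.span {z.1, z.2}) (Ideal.span {N}) →
        N ∣ a * z.1 + b * z.2 → N ∣ a * y.1 + b * y.2) := by
  classical
  obtain ⟨C, hC1, hC⟩ := small_elt K
  have hd : 0 < dg K := finrank_pos
  obtain ⟨d', hd'⟩ : ∃ d', dg K = d' + 1 := ⟨dg K - 1, by omega⟩
  refine ⟨C ^ (dg K), one_le_pow₀ hC1, fun z hz => ?_⟩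
  set c : Ideal (𝓞 K) := Ideal.span {z.1, z.2} with hc
  set n : ℕ := cn z with hn
  have hn0 : 0 < n := cn_pos hz
  have hnR : (0 : ℝ) < n := by exact_mod_cast hn0
  have hnc : (n : 𝓞 K) ∈ c := Ideal.absNorm_mem c
  obtain ⟨b, hb⟩ : c ∣ Ideal.span {(n : 𝓞 K)} := by
    rw [Ideal.dvd_iff_le, Ideal.span_singleton_le_iff_mem]
    exact hnc
  have hnorm : Ideal.absNorm b = n ^ d' := by
    have h1 := congrArg Ideal.absNorm hb
    rw [map_mul, Ideal.absNorm_span_singleton] at h1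
    have h2 : (Algebra.norm ℤ (n : 𝓞 K)).natAbs = n ^ (dg K) := by
      have := Algebra.norm_algebraMap (S := 𝓞 K) (n : ℤ)
      rw [eq_intCast, Int.cast_natCast, RingOfIntegers.rank] at this
      rw [this, Int.natAbs_pow, Int.natAbs_natCast]
    rw [h2, hd', pow_succ, mul_comm] at h1
    exact (Nat.eq_of_mul_eq_mul_left hn0 h1).symm
  have hb0 : b ≠ ⊥ := by
    intro h
    rw [h, Ideal.absNorm_bot] at hnorm
    exact (pow_pos hn0 d').ne hnorm
  obtain ⟨β, hβb, hβ0, hβ⟩ := hC b hb0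
  rw [hnorm] at hβ
  have hdiv : ∀ x ∈ c, ∃ w : 𝓞 K, β * x = n * w := by
    intro x hx
    have h1 : x * β ∈ c * b := Ideal.mul_mem_mul hx hβb
    rw [← hb, Ideal.mem_span_singleton] at h1
    obtain ⟨w, hw⟩ := h1
    exact ⟨w, by rw [mul_comm]; exact hw⟩
  obtain ⟨y1, hy1⟩ := hdiv z.1 (Ideal.subset_span (by simp))
  obtain ⟨y2, hy2⟩ := hdiv z.2 (Ideal.subset_span (by simp))
  have hβK : (β : K) ≠ 0 := fun h => hβ0 (RingOfIntegers.coe_eq_zero_iff.1 h)
  have hnK : (n : K) ≠ 0 := by exact_mod_cast hn0.ne'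
  have hn𝓞 : (n : 𝓞 K) ≠ 0 := by exact_mod_cast hn0.ne'
  have hz1 : (z.1 : K) = (n : K) / β * y1 := by
    have := congrArg (fun x : 𝓞 K => (x : K)) hy1
    simp only [map_mul, map_natCast] at this
    field_simp
    rw [mul_comm]; exact this
  have hz2 : (z.2 : K) = (n : K) / β * y2 := by
    have := congrArg (fun x : 𝓞 K => (x : K)) hy2
    simp only [map_mul, map_natCast] at this
    field_simp
    rw [mul_comm]; exact this
  -- norms
  have hNβ : (n ^ d' : ℕ) ≤ (Algebra.norm ℤ β).natAbs := by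
    rw [← hnorm]
    apply Nat.le_of_dvd
    · rw [Nat.pos_iff_ne_zero, Ne, Int.natAbs_eq_zero, Algebra.norm_eq_zero_iff]
      exact hβ0
    · exact Int.natCast_dvd.1 (Ideal.absNorm_dvd_norm_of_mem hβb)
  have hNβR : (n : ℝ) ^ d' ≤ ((Algebra.norm ℤ β).natAbs : ℝ) := by exact_mod_cast hNβ
  have hCn : house (β : K) ^ (dg K) ≤ C * (n : ℝ) ^ d' := by
    have := hβ
    push_cast at this
    exact this
  have hcy : (cn (y1, y2) : ℝ) ≤ C := by
    have h1 : Ideal.span {(n : 𝓞 K)} * Ideal.span {y1, y2} = Ideal.span {β} * c := by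
      rw [hc, Ideal.span_mul_span', Ideal.span_mul_span', Set.singleton_mul, Set.singleton_mul,
        Set.image_pair, Set.image_pair, ← hy1, ← hy2]
    have h2 := congrArg Ideal.absNorm h1
    rw [map_mul, map_mul, Ideal.absNorm_span_singleton, Ideal.absNorm_span_singleton] at h2
    have h3 : (Algebra.norm ℤ (n : 𝓞 K)).natAbs = n ^ (dg K) := by
      have := Algebra.norm_algebraMap (S := 𝓞 K) (n : ℤ)
      rw [eq_intCast, Int.cast_natCast, RingOfIntegers.rank] at this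
      rw [this, Int.natAbs_pow, Int.natAbs_natCast]
    rw [h3] at h2
    have h4 : (n : ℝ) ^ (dg K) * (cn (y1, y2) : ℝ) = ((Algebra.norm ℤ β).natAbs : ℝ) * n := by
      have : n ^ (dg K) * cn (y1, y2) = (Algebra.norm ℤ β).natAbs * n := h2
      exact_mod_cast this
    have h5 := norm_int_le β
    have h6 : (n : ℝ) ^ (dg K) * (cn (y1, y2) : ℝ) ≤ (n : ℝ) ^ (dg K) * C := by
      rw [h4]
      calc ((Algebra.norm ℤ β).natAbs : ℝ) * n ≤ (C * (n : ℝ) ^ d') * n :=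
            mul_le_mul_of_nonneg_right (h5.trans hCn) hnR.le
        _ = _ := by rw [hd', pow_succ]; ring
    exact le_of_mul_le_mul_left h6 (pow_pos hnR _)
  have hCd : C ≤ C ^ (dg K) := le_self_pow₀ hC1 hd.ne'
  refine ⟨(y1, y2), (n : K) / β, div_ne_zero hnK hβK, hz1, hz2, ?_, ?_, hcy.trans hCd, ?_, ?_⟩
  · intro σ
    have hσβ : 0 < ‖σ (β : K)‖ := norm_pos_iff.2 ((map_ne_zero σ).2 hβK)
    rw [map_div₀, map_natCast, norm_div, Complex.norm_natCast, div_pow, div_le_iff₀ (by positivity)]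
    -- n ^ d ≤ C^d n |σβ|^d
    have h1 := hNβR.trans (norm_lower β σ)
    have h2 : dg K - 1 = d' := by omega
    rw [h2] at h1
    -- take d-th powers
    have h3 : ((n : ℝ) ^ d') ^ (dg K) ≤ (‖σ (β : K)‖ * house (β : K) ^ d') ^ (dg K) :=
      pow_le_pow_left₀ (by positivity) h1 _
    have h4 : (‖σ (β : K)‖ * house (β : K) ^ d') ^ (dg K) ≤
        ‖σ (β : K)‖ ^ (dg K) * (C * (n : ℝ) ^ d') ^ d' := by
      rw [mul_pow]
      apply mul_le_mul_of_nonneg_left _ (by positivity)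
      rw [← pow_mul, mul_comm d', pow_mul]
      exact pow_le_pow_left₀ (pow_nonneg (house_nonneg _) _) hCn _
    have h5 := h3.trans h4
    -- multiply out
    have h6 : ((n : ℝ) ^ d') ^ (dg K) = (n : ℝ) ^ (d' * d') * (n : ℝ) ^ d' := by
      rw [← pow_mul, ← pow_add, hd', Nat.mul_succ]
    have h7 : (C * (n : ℝ) ^ d') ^ d' = C ^ d' * (n : ℝ) ^ (d' * d') := by
      rw [mul_pow, ← pow_mul]
    rw [h6, h7] at h5
    have h8 : (n : ℝ) ^ (d' * d') * (n : ℝ) ^ d' ≤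
        (n : ℝ) ^ (d' * d') * (‖σ (β : K)‖ ^ (dg K) * C ^ d') := by
      refine h5.trans (le_of_eq ?_)
      ring
    have h9 := le_of_mul_le_mul_left h8 (by positivity)
    calc (n : ℝ) ^ (dg K) = (n : ℝ) ^ d' * n := by rw [hd', pow_succ]
      _ ≤ (‖σ (β : K)‖ ^ (dg K) * C ^ d') * n := mul_le_mul_of_nonneg_right h9 hnR.le
      _ ≤ (‖σ (β : K)‖ ^ (dg K) * C ^ (dg K)) * n := by
          apply mul_le_mul_of_nonneg_right _ hnR.le
          apply mul_le_mul_of_nonneg_left _ (by positivity)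
          exact pow_le_pow_right₀ hC1 (by omega)
      _ = _ := by ring
  · intro σ
    have hσβ : 0 < ‖σ (β : K)‖ := norm_pos_iff.2 ((map_ne_zero σ).2 hβK)
    rw [map_div₀, map_natCast, norm_div, Complex.norm_natCast, div_pow, ← mul_div_assoc,
      le_div_iff₀ (by positivity)]
    have h1 : ‖σ (β : K)‖ ^ (dg K) ≤ C * (n : ℝ) ^ d' :=
      (pow_le_pow_left₀ (norm_nonneg _) (norm_embedding_le_house _ _) _).trans hCn
    calc (n : ℝ) * ‖σ (β : K)‖ ^ (dg K) ≤ n * (C * (n : ℝ) ^ d') :=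
          mul_le_mul_of_nonneg_left h1 hnR.le
      _ = C * (n : ℝ) ^ (dg K) := by rw [hd', pow_succ]; ring
      _ ≤ _ := mul_le_mul_of_nonneg_right hCd (by positivity)
  · obtain ⟨s, r, hsr⟩ := cn_mem (y1, y2)
    refine ⟨s * z.1 + r * z.2, ?_⟩
    have h1 := congrArg (fun x : 𝓞 K => (x : K)) hsr
    simp only [map_mul, map_add, map_natCast] at h1 ⊢
    rw [h1]
    linear_combination ((s : 𝓞 K) : K) * hz1 + ((r : 𝓞 K) : K) * hz2
  · intro N a b' hcop hN
    obtain ⟨w', hw'⟩ := hN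
    rw [Ideal.isCoprime_iff_exists] at hcop
    obtain ⟨x, hx, y, hy, hxy⟩ := hcop
    rw [Ideal.mem_span_singleton] at hy
    obtain ⟨v, hv⟩ := hy
    obtain ⟨x', hx'⟩ := hdiv x hx
    -- n w_y = β N w'
    have h1 : (n : 𝓞 K) * (a * y1 + b' * y2) = β * (N * w') := by
      rw [← hw']
      linear_combination (-a) * hy1 - b' * hy2
    have h2 : (n : 𝓞 K) * (x * (a * y1 + b' * y2)) = n * (N * (x' * w')) := by
      linear_combination x * h1 + N * w' * hx'
    have h3 := mul_left_cancel₀ hn𝓞 h2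
    refine ⟨x' * w' + v * (a * y1 + b' * y2), ?_⟩
    simp only
    linear_combination h3 + (-(a * y1 + b' * y2)) * hxy + (a * y1 + b' * y2) * hv

end Pool.Agent.X4.KA
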