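import Mathlib
import Pool.Agent.X4.KA.Cont

/-!
# Counting lattice points
-/

set_option autoImplicit false

namespace Pool.Agent.X4.KA

open NumberField Module Finset

variable {K : Type} [Field K] [NumberField K]

theorem sz_nonneg (z : 𝓞 K × 𝓞 K) : 0 ≤ sz z := (house_nonneg _).trans (le_max_left _ _)

theorem house_neg' (x : K) : house (-x) = house x := by unfold house; rw [map_neg, norm_neg]

theorem house_sub_le' (x y : K) : house (x - y) ≤ house x + house y := by
  rw [sub_eq_add_neg]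
  refine (house_add_le _ _).trans ?_
  rw [house_neg']

omit [NumberField K] in
theorem cop_primes {p : Fin 3 → ℕ} (hp : ∀ j, (p j).Prime) (hpi : Function.Injective p)
    {i j : Fin 3} (hij : i ≠ j) : IsCoprime (p i : 𝓞 K) (p j : 𝓞 K) := by
  have h1 : IsCoprime ((p i : ℕ) : ℤ) ((p j : ℕ) : ℤ) := Nat.isCoprime_iff_coprime.2
    ((Nat.coprime_primes (hp i) (hp j)).2 fun h => hij (hpi h))
  have := h1.map (Int.castRingHom (𝓞 K))
  simpa using this

/-- determinants of lattice vectors are divisible by the modulus -/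
theorem dvd_Delta {p e : Fin 3 → ℕ} (hp : ∀ j, (p j).Prime) (hpi : Function.Injective p)
    {z z' : 𝓞 K × 𝓞 K} (hz : InL p e z) (hz' : InL p e z') :
    (((∏ j, (p j) ^ (e j) : ℕ)) : 𝓞 K) ∣ Delta z z' := by
  push_cast
  apply Finset.prod_dvd_of_coprime
  · intro i _ j _ hij
    exact (cop_primes hp hpi hij).pow
  · intro j _
    have h1 := hz j
    have h2 := hz' j
    fin_cases j
    · simp only [form, Fin.zero_eta, Matrix.cons_val_zero] at h1 h2 ⊢
      exact dvd_sub (h1.mul_right _) (h2.mul_left _)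
    · simp only [form, Fin.mk_one, Matrix.cons_val_one] at h1 h2 ⊢
      have e1 : Delta z z' = z.1 * (z'.2 - z'.1) - (z.2 - z.1) * z'.1 := by unfold Delta; ring
      rw [e1]
      exact dvd_sub (h2.mul_left _) (h1.mul_right _)
    · simp only [form, Fin.reduceFinMk, Matrix.cons_val] at h1 h2 ⊢
      exact dvd_sub (h2.mul_left _) (h1.mul_right _)

theorem house_Delta (z z' : 𝓞 K × 𝓞 K) : house ((Delta z z' : 𝓞 K) : K) ≤ 2 * sz z * sz z' := by
  have e1 : ((Delta z z' : 𝓞 K) : K) = (z.1 : K) * z'.2 - (z.2 : K) * z'.1 := by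
    unfold Delta; push_cast; rfl
  rw [e1]
  refine (house_sub_le' _ _).trans ?_
  have h1 : house ((z.1 : K) * z'.2) ≤ sz z * sz z' := (house_mul_le _ _).trans
    (mul_le_mul (le_max_left _ _) (le_max_right _ _) (house_nonneg _) (sz_nonneg z))
  have h2 : house ((z.2 : K) * z'.1) ≤ sz z * sz z' := (house_mul_le _ _).trans
    (mul_le_mul (le_max_right _ _) (le_max_left _ _) (house_nonneg _) (sz_nonneg z))
  linarith

omit [NumberField K] in
theorem Delta_inj {g h : 𝓞 K × 𝓞 K} (hgh : Delta g h ≠ 0) {y y' : 𝓞 K × 𝓞 K}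
    (h1 : Delta y g = Delta y' g) (h2 : Delta y h = Delta y' h) : y = y' := by
  unfold Delta at *
  have e1 : (y.1 - y'.1) * (g.1 * h.2 - g.2 * h.1) = 0 := by
    linear_combination g.1 * h2 - h.1 * h1
  have e2 : (y.2 - y'.2) * (g.1 * h.2 - g.2 * h.1) = 0 := by
    linear_combination g.2 * h2 - h.2 * h1
  exact Prod.ext (sub_eq_zero.1 ((mul_eq_zero.1 e1).resolve_right hgh))
    (sub_eq_zero.1 ((mul_eq_zero.1 e2).resolve_right hgh))

/-- the number of short lattice vectors outside of the line of `g` -/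
theorem count_lat (K : Type) [Field K] [NumberField K] : ∃ C : ℝ, 1 ≤ C ∧
    ∀ (p e : Fin 3 → ℕ), (∀ j, (p j).Prime) → Function.Injective p →
    ∀ (g h : 𝓞 K × 𝓞 K), InL p e g → InL p e h → Delta g h ≠ 0 → sz g ≤ sz h →
    ∀ Cg : ℝ, 0 ≤ Cg → sz g * sz h ≤ Cg * ∏ j, (p j : ℝ) ^ (e j) →
    ∀ R : ℝ, 0 ≤ R → ∀ F : Finset (𝓞 K × 𝓞 K),
      (∀ y ∈ F, InL p e y ∧ Delta y g ≠ 0 ∧ sz y ≤ R) →
      (F.card : ℝ) ≤ (C * Cg * (R ^ 2 / ∏ j, (p j : ℝ) ^ (e j))) ^ (dg K) := by
  classical
  obtain ⟨C, hC1, hC⟩ := count_up K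
  refine ⟨16 * C ^ 2, by nlinarith, fun p e hp hpi g h hg hh hgh hsz Cg hCg hprod R hR F hF => ?_⟩
  set D : ℕ := ∏ j, (p j) ^ (e j) with hD
  have hD0 : 0 < D := Finset.prod_pos fun j _ => pow_pos (hp j).pos _
  have hDR : (0 : ℝ) < D := by exact_mod_cast hD0
  have hDe : ∏ j, (p j : ℝ) ^ (e j) = D := by rw [hD]; push_cast; rfl
  rw [hDe] at hprod ⊢
  rcases F.eq_empty_or_nonempty with rfl | ⟨y0, hy0⟩
  · simp only [Finset.card_empty, Nat.cast_zero]
    positivity
  have hA : ∀ y : 𝓞 K × 𝓞 K, ∃ a b : 𝓞 K, y ∈ F → Delta y g = D * a ∧ Delta y h = D * b := by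
    intro y
    by_cases hy : y ∈ F
    · obtain ⟨a, ha⟩ := dvd_Delta hp hpi (hF y hy).1 hg
      obtain ⟨b, hb⟩ := dvd_Delta hp hpi (hF y hy).1 hh
      exact ⟨a, b, fun _ => ⟨ha, hb⟩⟩
    · exact ⟨0, 0, fun h => absurd h hy⟩
  choose A B hAB using hA
  have hle : ∀ {y w : 𝓞 K × 𝓞 K} {a : 𝓞 K}, y ∈ F → Delta y w = D * a →
      house (a : K) ≤ 2 * R * sz w / D := by
    intro y w a hy ha
    rw [le_div_iff₀ hDR, mul_comm]
    have h1 := house_Delta y w
    rw [ha] at h1
    have h2 : (((D : 𝓞 K) * a : 𝓞 K) : K) = (D : K) * a := by push_cast; rfl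
    rw [h2, house_nat_mul] at h1
    refine h1.trans ?_
    have := (hF y hy).2.2
    have h3 := sz_nonneg w
    nlinarith
  set a : ℝ := 2 * R * sz g / D with ha
  set b : ℝ := 2 * R * sz h / D with hb
  have hab : a ≤ b := by
    rw [ha, hb]
    gcongr
  have ha1 : 1 ≤ a := by
    have h1 := hle hy0 (hAB y0 hy0).1
    have h2 : A y0 ≠ 0 := by
      intro h3
      apply (hF y0 hy0).2.1
      rw [(hAB y0 hy0).1, h3, mul_zero]
    have h4 : (1 : ℝ) ≤ house (A y0 : K) :=
      one_le_house_of_isIntegral (A y0).2 (fun h => h2 (RingOfIntegers.coe_eq_zero_iff.1 h))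
    exact h4.trans h1
  have ha0 : 0 ≤ a := by linarith
  have hb0 : 0 ≤ b := by linarith
  have hcard : F.card ≤ (F.image A).card * (F.image B).card := by
    rw [← Finset.card_product]
    apply Finset.card_le_card_of_injOn (fun y => (A y, B y))
    · intro y hy
      have hy' : y ∈ F := hy
      rw [Finset.mem_coe, Finset.mem_product]
      exact ⟨Finset.mem_image_of_mem A hy', Finset.mem_image_of_mem B hy'⟩
    · intro y hy y' hy' hyy
      have hy1 : y ∈ F := hy
      have hy2 : y' ∈ F := hy'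
      simp only [Prod.mk.injEq] at hyy
      apply Delta_inj hgh
      · rw [(hAB y hy1).1, (hAB y' hy2).1, hyy.1]
      · rw [(hAB y hy1).2, (hAB y' hy2).2, hyy.2]
  have h1 : ((F.image A).card : ℝ) ≤ (C * (a + 1)) ^ (dg K) := by
    apply hC a (by linarith)
    intro x hx
    rw [Finset.mem_image] at hx
    obtain ⟨y, hy, rfl⟩ := hx
    exact hle hy (hAB y hy).1
  have h2 : ((F.image B).card : ℝ) ≤ (C * (b + 1)) ^ (dg K) := by
    apply hC b (by linarith)
    intro x hx
    rw [Finset.mem_image] at hx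
    obtain ⟨y, hy, rfl⟩ := hx
    exact hle hy (hAB y hy).2
  calc (F.card : ℝ) ≤ ((F.image A).card : ℝ) * ((F.image B).card : ℝ) := by exact_mod_cast hcard
    _ ≤ (C * (a + 1)) ^ (dg K) * (C * (b + 1)) ^ (dg K) :=
        mul_le_mul h1 h2 (Nat.cast_nonneg _) (by positivity)
    _ = ((C * (a + 1)) * (C * (b + 1))) ^ (dg K) := (mul_pow _ _ _).symm
    _ ≤ (16 * C ^ 2 * Cg * (R ^ 2 / D)) ^ (dg K) := by
        apply pow_le_pow_left₀ (by positivity)
        calc (C * (a + 1)) * (C * (b + 1)) ≤ (C * (2 * a)) * (C * (2 * b)) := by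
              apply mul_le_mul
              · apply mul_le_mul_of_nonneg_left _ (by linarith); linarith
              · apply mul_le_mul_of_nonneg_left _ (by linarith); linarith
              · positivity
              · positivity
          _ = 4 * C ^ 2 * (a * b) := by ring
          _ = 4 * C ^ 2 * (4 * (R ^ 2 / D) * (sz g * sz h) / D) := by
              rw [ha, hb]; ring
          _ ≤ 4 * C ^ 2 * (4 * (R ^ 2 / D) * (Cg * D) / D) := by gcongr
          _ = _ := by field_simp; ring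

omit [NumberField K] in
theorem cop_pow {c : Ideal (𝓞 K)} {x : 𝓞 K} (h : IsCoprime c (Ideal.span {x})) (n : ℕ) :
    IsCoprime c (Ideal.span {x ^ n}) := by
  rw [← Ideal.span_singleton_pow]
  exact h.pow_right

/-- divisibility of the vector divided by the content -/
theorem InL_div {p e : Fin 3 → ℕ} {z y : 𝓞 K × 𝓞 K} (hz : InL p e z)
    (hc : ∀ j, IsCoprime (Ideal.span {z.1, z.2}) (Ideal.span {(p j : 𝓞 K)}))
    (H : ∀ N a b : 𝓞 K, IsCoprime (Ideal.span {z.1, z.2}) (Ideal.span {N}) →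
        N ∣ a * z.1 + b * z.2 → N ∣ a * y.1 + b * y.2) : InL p e y := by
  intro j
  have h1 := hz j
  have h2 := cop_pow (hc j) (e j)
  fin_cases j
  · have h3 := H _ 1 0 h2 (by simpa [form] using h1)
    simpa [form] using h3
  · have h3 := H _ (-1) 1 h2 (by
      have : (-1 : 𝓞 K) * z.1 + 1 * z.2 = z.2 - z.1 := by ring
      rw [this]
      simpa [form] using h1)
    have h4 : (-1 : 𝓞 K) * y.1 + 1 * y.2 = y.2 - y.1 := by ring
    rw [h4] at h3
    simpa [form] using h3
  · have h3 := H _ 0 1 h2 (by simpa [form] using h1)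
    simpa [form] using h3

end Pool.Agent.X4.KA
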