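import Mathlib
import Pool.Agent.X4.KA.Cnt

/-!
# Few lattice vectors of large content
-/

set_option autoImplicit false

namespace Pool.Agent.X4.KA

open NumberField Module Finset

variable {K : Type} [Field K] [NumberField K]

theorem house_le_of {x : K} {B : ℝ} (hB : 0 ≤ B) (h : ∀ σ : K →+* ℂ, ‖σ x‖ ≤ B) :
    house x ≤ B := by
  unfold house
  rw [pi_norm_le_iff_of_nonneg hB]
  exact h

theorem exists_root {d : ℕ} (hd : 0 < d) {A : ℝ} (hA : 0 < A) : ∃ r : ℝ, 0 < r ∧ r ^ d = A := by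
  refine ⟨A ^ (1 / (d : ℝ)), Real.rpow_pos_of_pos hA _, ?_⟩
  have hdR : (d : ℝ) ≠ 0 := by exact_mod_cast hd.ne'
  rw [← Real.rpow_natCast, ← Real.rpow_mul hA.le, one_div, inv_mul_cancel₀ hdR, Real.rpow_one]

/-- vectors with content in a dyadic interval -/
theorem bad_block (K : Type) [Field K] [NumberField K] : ∃ C : ℝ, 1 ≤ C ∧
    ∀ (p e : Fin 3 → ℕ), (∀ j, (p j).Prime) → Function.Injective p →
    ∀ (g h : 𝓞 K × 𝓞 K), InL p e g → InL p e h → Delta g h ≠ 0 → sz g ≤ sz h →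
    ∀ Cg : ℝ, 0 ≤ Cg → sz g * sz h ≤ Cg * ∏ j, (p j : ℝ) ^ (e j) →
    ∀ R : ℝ, 0 ≤ R → ∀ (k : ℕ) (S : Finset (𝓞 K × 𝓞 K)),
      (∀ z ∈ S, InL p e z ∧ Delta z g ≠ 0 ∧ sz z ≤ R ∧
        (∀ j, IsCoprime (Ideal.span {z.1, z.2}) (Ideal.span {(p j : 𝓞 K)})) ∧
        2 ^ k ≤ cn z ∧ cn z < 2 ^ (k + 1)) →
      (S.card : ℝ) ≤ C * (Cg * (R ^ 2 / ∏ j, (p j : ℝ) ^ (e j))) ^ (dg K) * (1 / 2) ^ k := by
  classical
  obtain ⟨C1, hC11, hC1⟩ := content K
  obtain ⟨C2, hC21, hC2⟩ := count_lat K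
  obtain ⟨C3, hC31, hC3⟩ := count_up K
  have hd : 0 < dg K := finrank_pos
  refine ⟨2 * (C2 ^ (dg K) * C1 ^ 2 * ((2 * C3 * C1) ^ (dg K) * C1)), ?_, ?_⟩
  · have h1 : 1 ≤ C2 ^ (dg K) := one_le_pow₀ hC21
    have h2 : 1 ≤ C1 ^ 2 := one_le_pow₀ hC11
    have h3 : 1 ≤ (2 * C3 * C1) ^ (dg K) := one_le_pow₀ (by nlinarith)
    have h4 : 1 ≤ C2 ^ (dg K) * C1 ^ 2 := one_le_mul_of_one_le_of_one_le h1 h2
    have h5 : 1 ≤ (2 * C3 * C1) ^ (dg K) * C1 := one_le_mul_of_one_le_of_one_le h3 hC11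
    have h6 := one_le_mul_of_one_le_of_one_le h4 h5
    linarith
  intro p e hp hpi g h hg hh hgh hsz Cg hCg hprod R hR k S hS
  have hex : ∀ z : 𝓞 K × 𝓞 K, ∃ (y : 𝓞 K × 𝓞 K) (t : K) (τ : 𝓞 K), z ∈ S → t ≠ 0 ∧
      (z.1 : K) = t * y.1 ∧ (z.2 : K) = t * y.2 ∧
      (∀ σ : K →+* ℂ, ‖σ t‖ ^ (dg K) ≤ C1 * cn z) ∧
      (∀ σ : K →+* ℂ, (cn z : ℝ) ≤ C1 * ‖σ t‖ ^ (dg K)) ∧
      (cn y : ℝ) ≤ C1 ∧ (τ : K) = cn y * t ∧ InL p e y ∧ Delta y g ≠ 0 := by
    intro z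
    by_cases hz : z ∈ S
    · obtain ⟨k1, k2, k3, k4, k5, k6⟩ := hS z hz
      have hz0 : z ≠ 0 := by
        rintro rfl
        apply k2
        unfold Delta
        simp
      obtain ⟨y, t, h1, h2, h3, h4, h5, h6, ⟨τ, h7⟩, h8⟩ := hC1 z hz0
      refine ⟨y, t, τ, fun _ => ⟨h1, h2, h3, h4, h5, h6, h7, InL_div k1 k4 h8, ?_⟩⟩
      intro h9
      apply k2
      have h10 : ((Delta z g : 𝓞 K) : K) = t * ((Delta y g : 𝓞 K) : K) := by
        unfold Delta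
        push_cast
        linear_combination (g.2 : K) * h2 - (g.1 : K) * h3
      rw [h9] at h10
      have h11 : ((Delta z g : 𝓞 K) : K) = 0 := by rw [h10]; simp
      exact RingOfIntegers.coe_eq_zero_iff.1 h11
    · exact ⟨0, 0, 0, fun h => absurd h hz⟩
  choose Y t τ H using hex
  set D : ℝ := ∏ j, (p j : ℝ) ^ (e j) with hD
  have hD0 : 0 < D := Finset.prod_pos fun j _ => pow_pos (by exact_mod_cast (hp j).pos) _
  have h2k : (0 : ℝ) < 2 ^ k := by positivity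
  obtain ⟨s, hs0, hsd⟩ := exists_root hd (show 0 < (2 : ℝ) ^ k / C1 by positivity)
  obtain ⟨r, hr0, hrd⟩ := exists_root hd (show 0 < C1 * (2 : ℝ) ^ (k + 1) by positivity)
  have hts : ∀ z ∈ S, ∀ σ : K →+* ℂ, s ≤ ‖σ (t z)‖ := by
    intro z hz σ
    obtain ⟨-, -, -, -, k5, -⟩ := H z hz
    obtain ⟨-, -, -, -, k6, -⟩ := hS z hz
    have h1 : (2 : ℝ) ^ k ≤ C1 * ‖σ (t z)‖ ^ (dg K) := by
      refine le_trans ?_ (k5 σ)
      exact_mod_cast k6
    have h2 : s ^ (dg K) ≤ ‖σ (t z)‖ ^ (dg K) := by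
      rw [hsd, div_le_iff₀ (by linarith), mul_comm]
      exact h1
    exact (pow_le_pow_iff_left₀ hs0.le (norm_nonneg _) hd.ne').1 h2
  have htr : ∀ z ∈ S, ∀ σ : K →+* ℂ, ‖σ (t z)‖ ≤ r := by
    intro z hz σ
    obtain ⟨-, -, -, k4, -⟩ := H z hz
    obtain ⟨-, -, -, -, -, k6⟩ := hS z hz
    have h1 : ‖σ (t z)‖ ^ (dg K) ≤ r ^ (dg K) := by
      rw [hrd]
      refine (k4 σ).trans (mul_le_mul_of_nonneg_left ?_ (by linarith))
      exact_mod_cast k6.le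
    exact (pow_le_pow_iff_left₀ (norm_nonneg _) hr0.le hd.ne').1 h1
  have hYsz : ∀ z ∈ S, sz (Y z) ≤ R / s := by
    intro z hz
    obtain ⟨k1, k2, k3, -⟩ := H z hz
    have hR' := (hS z hz).2.2.1
    have key : ∀ {a b : K}, a = t z * b → house a ≤ R → house b ≤ R / s := by
      intro a b hab ha
      apply house_le_of (by positivity)
      intro σ
      rw [le_div_iff₀ hs0]
      have h1 : ‖σ a‖ = ‖σ (t z)‖ * ‖σ b‖ := by rw [hab, map_mul, norm_mul]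
      have h2 := norm_embedding_le_house a σ
      have h3 := mul_le_mul_of_nonneg_right (hts z hz σ) (norm_nonneg (σ b))
      linarith
    exact max_le (key k2 ((le_max_left _ _).trans hR')) (key k3 ((le_max_right _ _).trans hR'))
  have hr1 : 1 ≤ r := by
    by_contra hcon
    push Not at hcon
    have h1 : r ^ (dg K) < 1 := pow_lt_one₀ hr0.le hcon hd.ne'
    rw [hrd] at h1
    have h2 : (1 : ℝ) ≤ 2 ^ (k + 1) := one_le_pow₀ (by norm_num)
    nlinarith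
  have hτsz : ∀ z ∈ S, house (τ z : K) ≤ C1 * r := by
    intro z hz
    obtain ⟨-, -, -, -, -, k6, k7, -⟩ := H z hz
    apply house_le_of (by positivity)
    intro σ
    rw [k7, map_mul, map_natCast, norm_mul, Complex.norm_natCast]
    exact mul_le_mul k6 (htr z hz σ) (norm_nonneg _) (by linarith)
  have hcard : S.card ≤ (S.image Y).card * (S.image τ).card := by
    rw [← Finset.card_product]
    apply Finset.card_le_card_of_injOn (fun y => (Y y, τ y))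
    · intro y hy
      have hy' : y ∈ S := hy
      rw [Finset.mem_coe, Finset.mem_product]
      exact ⟨Finset.mem_image_of_mem Y hy', Finset.mem_image_of_mem τ hy'⟩
    · intro z hz z' hz' hzz
      have hz1 : z ∈ S := hz
      have hz2 : z' ∈ S := hz'
      simp only [Prod.mk.injEq] at hzz
      obtain ⟨-, a2, a3, -, -, -, a7, -, a9⟩ := H z hz1
      obtain ⟨-, b2, b3, -, -, -, b7, -⟩ := H z' hz2
      have hY0 : Y z ≠ 0 := by
        intro h0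
        apply a9
        rw [h0]
        unfold Delta
        simp
      have hc0 : (cn (Y z) : K) ≠ 0 := by exact_mod_cast (cn_pos hY0).ne'
      have htt : t z = t z' := by
        have h1 : (cn (Y z) : K) * t z = cn (Y z) * t z' := by
          rw [← a7, hzz.2, b7, ← hzz.1]
        exact mul_left_cancel₀ hc0 h1
      have h1 : (z.1 : K) = z'.1 := by rw [a2, b2, htt, hzz.1]
      have h2 : (z.2 : K) = z'.2 := by rw [a3, b3, htt, hzz.1]
      exact Prod.ext (RingOfIntegers.coe_injective h1) (RingOfIntegers.coe_injective h2)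
  have h1 : ((S.image Y).card : ℝ) ≤ (C2 * Cg * ((R / s) ^ 2 / D)) ^ (dg K) := by
    apply hC2 p e hp hpi g h hg hh hgh hsz Cg hCg hprod (R / s) (by positivity)
    intro y hy
    rw [Finset.mem_image] at hy
    obtain ⟨z, hz, rfl⟩ := hy
    obtain ⟨-, -, -, -, -, -, -, k8, k9⟩ := H z hz
    exact ⟨k8, k9, hYsz z hz⟩
  have h2 : ((S.image τ).card : ℝ) ≤ (C3 * (C1 * r + 1)) ^ (dg K) := by
    apply hC3 (C1 * r) (by positivity)
    intro x hx
    rw [Finset.mem_image] at hx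
    obtain ⟨z, hz, rfl⟩ := hx
    exact hτsz z hz
  have h3 : (C2 * Cg * ((R / s) ^ 2 / D)) ^ (dg K) =
      C2 ^ (dg K) * (Cg * (R ^ 2 / D)) ^ (dg K) * (C1 ^ 2 / (2 ^ k * 2 ^ k)) := by
    have e1 : C2 * Cg * ((R / s) ^ 2 / D) = C2 * (Cg * (R ^ 2 / D)) * (1 / s ^ 2) := by
      field_simp
    rw [e1, mul_pow, mul_pow]
    congr 1
    rw [one_div, inv_pow, ← pow_mul, mul_comm 2, pow_mul, hsd]
    field_simp
  have h4 : (C3 * (C1 * r + 1)) ^ (dg K) ≤ (2 * C3 * C1) ^ (dg K) * (C1 * 2 ^ (k + 1)) := by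
    have h5 : C3 * (C1 * r + 1) ≤ (2 * C3 * C1) * r := by nlinarith [mul_pos (show 0 < C1 by linarith) hr0, one_le_mul_of_one_le_of_one_le hC11 hr1]
    calc (C3 * (C1 * r + 1)) ^ (dg K) ≤ ((2 * C3 * C1) * r) ^ (dg K) :=
          pow_le_pow_left₀ (by positivity) h5 _
      _ = _ := by rw [mul_pow, hrd]
  have hA0 : 0 ≤ (Cg * (R ^ 2 / D)) ^ (dg K) := by positivity
  calc (S.card : ℝ) ≤ ((S.image Y).card : ℝ) * ((S.image τ).card : ℝ) := by exact_mod_cast hcard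
    _ ≤ (C2 ^ (dg K) * (Cg * (R ^ 2 / D)) ^ (dg K) * (C1 ^ 2 / (2 ^ k * 2 ^ k))) *
        ((2 * C3 * C1) ^ (dg K) * (C1 * 2 ^ (k + 1))) :=
        mul_le_mul (h1.trans h3.le) (h2.trans h4) (Nat.cast_nonneg _) (by positivity)
    _ = _ := by
        have e2 : (2 : ℝ) ^ (k + 1) = 2 ^ k * 2 := pow_succ _ _
        rw [e2, one_div, inv_pow]
        field_simp

/-- vectors with large content -/
theorem bad_total (K : Type) [Field K] [NumberField K] : ∃ C : ℝ, 1 ≤ C ∧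
    ∀ (p e : Fin 3 → ℕ), (∀ j, (p j).Prime) → Function.Injective p →
    ∀ (g h : 𝓞 K × 𝓞 K), InL p e g → InL p e h → Delta g h ≠ 0 → sz g ≤ sz h →
    ∀ Cg : ℝ, 0 ≤ Cg → sz g * sz h ≤ Cg * ∏ j, (p j : ℝ) ^ (e j) →
    ∀ R : ℝ, 0 ≤ R → ∀ (k : ℕ) (S : Finset (𝓞 K × 𝓞 K)),
      (∀ z ∈ S, InL p e z ∧ Delta z g ≠ 0 ∧ sz z ≤ R ∧
        (∀ j, IsCoprime (Ideal.span {z.1, z.2}) (Ideal.span {(p j : 𝓞 K)})) ∧
        2 ^ k ≤ cn z) →
      (S.card : ℝ) ≤ C * (Cg * (R ^ 2 / ∏ j, (p j : ℝ) ^ (e j))) ^ (dg K) * (1 / 2) ^ k := by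
  classical
  obtain ⟨C, hC1, hC⟩ := bad_block K
  refine ⟨2 * C, by linarith, ?_⟩
  intro p e hp hpi g h hg hh hgh hsz Cg hCg hprod R hR k S hS
  set D : ℝ := ∏ j, (p j : ℝ) ^ (e j) with hD
  have hD0 : 0 < D := Finset.prod_pos fun j _ => pow_pos (by exact_mod_cast (hp j).pos) _
  set M : ℕ := S.sup (fun z => Nat.log 2 (cn z)) + 1 with hM
  have hmaps : ∀ z ∈ S, Nat.log 2 (cn z) ∈ Finset.Ico k M := by
    intro z hz
    rw [Finset.mem_Ico]
    constructor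
    · exact Nat.le_log_of_pow_le (by norm_num) (hS z hz).2.2.2.2
    · have h1 : Nat.log 2 (cn z) ≤ S.sup (fun z => Nat.log 2 (cn z)) :=
        Finset.le_sup (f := fun z => Nat.log 2 (cn z)) hz
      omega
  have h1 := Finset.card_eq_sum_card_fiberwise (s := S) (t := Finset.Ico k M)
    (f := fun z => Nat.log 2 (cn z)) hmaps
  have h2 : (S.card : ℝ) ≤ ∑ i ∈ Finset.Ico k M,
      C * (Cg * (R ^ 2 / D)) ^ (dg K) * (1 / 2) ^ i := by
    rw [h1, Nat.cast_sum]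
    refine Finset.sum_le_sum fun i _ => ?_
    apply hC p e hp hpi g h hg hh hgh hsz Cg hCg hprod R hR i
    intro z hz
    rw [Finset.mem_filter] at hz
    obtain ⟨k1, k2, k3, k4, k5⟩ := hS z hz.1
    have hz0 : cn z ≠ 0 := by
      have : 0 < 2 ^ k := by positivity
      omega
    refine ⟨k1, k2, k3, k4, ?_, ?_⟩
    · rw [← hz.2]
      exact Nat.pow_log_le_self 2 hz0
    · rw [← hz.2]
      exact Nat.lt_pow_succ_log_self (by norm_num) _
  refine h2.trans ?_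
  rw [← Finset.mul_sum]
  have h3 := geom_sum_Ico_le_of_lt_one (x := (1 / 2 : ℝ)) (m := k) (n := M) (by norm_num)
    (by norm_num)
  have h4 : 0 ≤ C * (Cg * (R ^ 2 / D)) ^ (dg K) := by positivity
  calc C * (Cg * (R ^ 2 / D)) ^ (dg K) * ∑ i ∈ Finset.Ico k M, (1 / 2 : ℝ) ^ i ≤
      C * (Cg * (R ^ 2 / D)) ^ (dg K) * ((1 / 2) ^ k / (1 - 1 / 2)) :=
        mul_le_mul_of_nonneg_left h3 h4
    _ = _ := by ring

end Pool.Agent.X4.KA
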