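import Mathlib
import Pool.Agent.X4.KA.Cnt

/-!
# The family of lattice vectors in a given direction and residue class
-/

set_option autoImplicit false

namespace Pool.Agent.X4.KA

open NumberField Module Finset

variable {K : Type} [Field K] [NumberField K]

theorem crt2 {R : Type} [CommRing R] {a b : R} (h : IsCoprime a b) (x y : R) :
    ∃ z, a ∣ z - x ∧ b ∣ z - y := by
  obtain ⟨u, v, huv⟩ := h
  refine ⟨x + a * (u * (y - x)), ⟨u * (y - x), by ring⟩, ⟨v * (x - y), ?_⟩⟩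
  linear_combination (y - x) * huv

theorem crt4 {R : Type} [CommRing R] {a b c d : R} (hab : IsCoprime a b) (hac : IsCoprime a c)
    (had : IsCoprime a d) (hbc : IsCoprime b c) (hbd : IsCoprime b d) (hcd : IsCoprime c d)
    (x y z w : R) : ∃ s, a ∣ s - x ∧ b ∣ s - y ∧ c ∣ s - z ∧ d ∣ s - w := by
  obtain ⟨s1, h1, h2⟩ := crt2 hab x y
  obtain ⟨s2, h3, h4⟩ := crt2 (hac.mul_left hbc) s1 z
  obtain ⟨s3, h5, h6⟩ := crt2 ((had.mul_left hbd).mul_left hcd) s2 w
  refine ⟨s3, ?_, ?_, ?_, h6⟩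
  · have e1 : s3 - x = (s3 - s2) + (s2 - s1) + (s1 - x) := by ring
    rw [e1]
    exact dvd_add (dvd_add (((dvd_mul_right a b).mul_right c).trans h5)
      ((dvd_mul_right a b).trans h3)) h1
  · have e1 : s3 - y = (s3 - s2) + (s2 - s1) + (s1 - y) := by ring
    rw [e1]
    exact dvd_add (dvd_add (((dvd_mul_left b a).mul_right c).trans h5)
      ((dvd_mul_left b a).trans h3)) h2
  · have e1 : s3 - z = (s3 - s2) + (s2 - z) := by ring
    rw [e1]
    exact dvd_add ((dvd_mul_left c _).trans h5) h4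

theorem one_le_sz {z : 𝓞 K × 𝓞 K} (hz : z ≠ 0) : 1 ≤ sz z := by
  have key : ∀ a : 𝓞 K, a ≠ 0 → 1 ≤ house (a : K) := fun a ha =>
    one_le_house_of_isIntegral a.2 (fun h => ha (RingOfIntegers.coe_eq_zero_iff.1 h))
  by_cases h1 : z.1 = 0
  · have h2 : z.2 ≠ 0 := fun h2 => hz (Prod.ext h1 h2)
    exact (key _ h2).trans (le_max_right _ _)
  · exact (key _ h1).trans (le_max_left _ _)

/-- the starting vector -/
theorem start (p : Fin 3 → ℕ) (hp : ∀ j, (p j).Prime) (hpi : Function.Injective p) (m : ℕ)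
    (hpm : ∀ j, ¬ p j ∣ m) (r : 𝓞 K) (e : Fin 3 → ℕ) (he : ∀ j, 1 ≤ e j) :
    ∃ z : 𝓞 K × 𝓞 K, InL p e z ∧ (m : 𝓞 K) ∣ z.1 - r ∧ (m : 𝓞 K) ∣ z.2 - 1 ∧
      (p 0 : 𝓞 K) ∣ z.2 - 1 ∧ (p 1 : 𝓞 K) ∣ z.1 - 1 ∧ (p 2 : 𝓞 K) ∣ z.1 - 1 := by
  have hc : ∀ i j, i ≠ j → IsCoprime ((p i : 𝓞 K) ^ (e i)) ((p j : 𝓞 K) ^ (e j)) :=
    fun i j hij => (cop_primes hp hpi hij).pow
  have hcm : ∀ i, IsCoprime ((p i : 𝓞 K) ^ (e i)) (m : 𝓞 K) := by
    intro i
    apply IsCoprime.pow_left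
    have h1 : IsCoprime ((p i : ℕ) : ℤ) ((m : ℕ) : ℤ) := Nat.isCoprime_iff_coprime.2
      ((Nat.Prime.coprime_iff_not_dvd (hp i)).2 (hpm i))
    have := h1.map (Int.castRingHom (𝓞 K))
    simpa using this
  obtain ⟨a, a0, a1, a2, a3⟩ := crt4 (hc 0 1 (by decide)) (hc 0 2 (by decide)) (hcm 0)
    (hc 1 2 (by decide)) (hcm 1) (hcm 2) 0 1 1 r
  obtain ⟨b, b0, b1, b2, b3⟩ := crt4 (hc 0 1 (by decide)) (hc 0 2 (by decide)) (hcm 0)
    (hc 1 2 (by decide)) (hcm 1) (hcm 2) 1 1 0 1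
  have hpd : ∀ j, (p j : 𝓞 K) ∣ (p j : 𝓞 K) ^ (e j) := fun j =>
    dvd_pow_self _ (by have := he j; omega)
  refine ⟨(a, b), ?_, a3, b3, (hpd 0).trans b0, (hpd 1).trans a1, (hpd 2).trans a2⟩
  intro j
  fin_cases j
  · have h1 : form 0 ((a, b) : 𝓞 K × 𝓞 K) = a - 0 := by simp [form]
    rw [Fin.zero_eta, h1]
    exact a0
  · have h1 : form 1 ((a, b) : 𝓞 K × 𝓞 K) = (b - 1) - (a - 1) := by simp [form]
    rw [Fin.mk_one, h1]
    exact dvd_sub b1 a1
  · have h1 : form 2 ((a, b) : 𝓞 K × 𝓞 K) = b - 0 := by simp [form]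
    change (p 2 : 𝓞 K) ^ (e 2) ∣ form 2 ((a, b) : 𝓞 K × 𝓞 K)
    rw [h1]
    exact b2

theorem cop_of {z1 z2 x w : 𝓞 K} (h : x ∣ w - 1) (hw : w = z1 ∨ w = z2) :
    IsCoprime (Ideal.span {z1, z2}) (Ideal.span {x}) := by
  rw [Ideal.isCoprime_iff_exists]
  obtain ⟨v, hv⟩ := h
  refine ⟨w, ?_, -(x * v), ?_, by rw [← hv]; ring⟩
  · rcases hw with rfl | rfl
    · exact Ideal.subset_span (by simp)
    · exact Ideal.subset_span (by simp)
  · rw [Ideal.mem_span_singleton]
    exact (dvd_mul_right x v).neg_right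

theorem fam (K : Type) [Field K] [NumberField K] (η : ℝ) (hη : 0 < η) (p : Fin 3 → ℕ)
    (hp : ∀ j, (p j).Prime) (hpi : Function.Injective p) (m : ℕ) (hm : 0 < m)
    (hpm : ∀ j, ¬ p j ∣ m) (r : 𝓞 K) (τ0 : K) :
    ∃ c : ℝ, 0 < c ∧ ∀ (e : Fin 3 → ℕ), (∀ j, 1 ≤ e j) → ∀ g h : 𝓞 K × 𝓞 K, InL p e g →
      InL p e h → Delta g h ≠ 0 → sz g ≤ sz h → ∀ Y : ℕ, sz h ≤ c * Y →
      ∃ S : Finset (𝓞 K × 𝓞 K), (∀ z ∈ S, InL p e z ∧ Delta z g ≠ 0 ∧
        (∀ j, IsCoprime (Ideal.span {z.1, z.2}) (Ideal.span {(p j : 𝓞 K)})) ∧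
        (m : 𝓞 K) ∣ z.1 - r ∧ (m : 𝓞 K) ∣ z.2 - 1 ∧ house ((z.1 : K) - τ0 * Y) ≤ η * Y ∧
        house ((z.2 : K) - Y) ≤ η * Y) ∧
        (c * (Y ^ 2 / (sz g * sz h))) ^ (dg K) ≤ (S.card : ℝ) := by
  classical
  obtain ⟨Cr, hCr1, hCr⟩ := round K
  obtain ⟨C, hC1, hC⟩ := count_low K
  have hd : 0 < dg K := finrank_pos
  set Q : ℕ := m * (p 0 * p 1 * p 2) with hQ
  have hQ0 : 0 < Q := Nat.mul_pos hm (Nat.mul_pos (Nat.mul_pos (hp 0).pos (hp 1).pos) (hp 2).pos)
  have hQR : (0 : ℝ) < Q := by exact_mod_cast hQ0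
  set c : ℝ := min (η ^ 2 / (32 * Q ^ 2 * C ^ 2)) (min (η / (4 * Q * Cr)) (η / (8 * Q * C))) with hc
  have hc0 : 0 < c := by
    rw [hc]
    refine lt_min (by positivity) (lt_min (by positivity) (by positivity))
  refine ⟨c, hc0, fun e he g h hg hh hgh hgsz Y hY => ?_⟩
  have hg0 : g ≠ 0 := by rintro rfl; apply hgh; unfold Delta; simp
  have hh0 : h ≠ 0 := by rintro rfl; apply hgh; unfold Delta; simp
  have hg1 := one_le_sz hg0
  have hh1 := one_le_sz hh0
  have hY0 : (0 : ℝ) < Y := by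
    by_contra hcon
    push Not at hcon
    have : c * Y ≤ 0 := mul_nonpos_of_nonneg_of_nonpos hc0.le hcon
    linarith
  obtain ⟨z1, i1, i2, i3, i4, i5, i6⟩ := start p hp hpi m hpm r e he
  set Δ : K := (g.1 : K) * h.2 - (g.2 : K) * h.1 with hΔ
  have hΔ0 : Δ ≠ 0 := by
    intro h0
    apply hgh
    apply RingOfIntegers.coe_eq_zero_iff.1
    rw [← h0, hΔ]
    unfold Delta
    push_cast
    rfl
  have hQK : (Q : K) ≠ 0 := by exact_mod_cast hQ0.ne'
  set W1 : K := τ0 * Y - z1.1 with hW1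
  set W2 : K := (Y : K) - z1.2 with hW2
  set us : K := (W1 * h.2 - W2 * h.1) / (Q * Δ) with hus
  set vs : K := ((g.1 : K) * W2 - g.2 * W1) / (Q * Δ) with hvs
  obtain ⟨u0, hu0⟩ := hCr us
  obtain ⟨v0, hv0⟩ := hCr vs
  have hQ1 : (Q : K) * (us * g.1 + vs * h.1) = W1 := by
    rw [hus, hvs]
    field_simp
    rw [hΔ]
    ring
  have hQ2 : (Q : K) * (us * g.2 + vs * h.2) = W2 := by
    rw [hus, hvs]
    field_simp
    rw [hΔ]
    ring
  set U : ℝ := η * Y / (4 * Q * sz g) with hU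
  set V : ℝ := η * Y / (4 * Q * sz h) with hV
  obtain ⟨FU, hFU, hFUc⟩ := hC U (by positivity)
  obtain ⟨FV, hFV, hFVc⟩ := hC V (by positivity)
  set f : 𝓞 K × 𝓞 K → 𝓞 K × 𝓞 K := fun w =>
    (z1.1 + Q * ((u0 + w.1) * g.1 + (v0 + w.2) * h.1),
      z1.2 + Q * ((u0 + w.1) * g.2 + (v0 + w.2) * h.2)) with hf
  have hfinj : Function.Injective f := by
    intro w w' hww
    simp only [hf, Prod.mk.injEq, add_right_inj] at hww
    have hQ𝓞 : (Q : 𝓞 K) ≠ 0 := by exact_mod_cast hQ0.ne'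
    have h1 := mul_left_cancel₀ hQ𝓞 hww.1
    have h2 := mul_left_cancel₀ hQ𝓞 hww.2
    have h3 : (w.1 - w'.1) * Delta g h = 0 := by
      unfold Delta; linear_combination h.2 * h1 - h.1 * h2
    have h4 : (w.2 - w'.2) * Delta g h = 0 := by
      unfold Delta; linear_combination g.1 * h2 - g.2 * h1
    exact Prod.ext (sub_eq_zero.1 ((mul_eq_zero.1 h3).resolve_right hgh))
      (sub_eq_zero.1 ((mul_eq_zero.1 h4).resolve_right hgh))
  -- the bad values of the second parameter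
  set FV' : Finset (𝓞 K) := FV.filter fun v => Delta (f (0, v)) g ≠ 0 with hFV'
  have hΔf : ∀ w : 𝓞 K × 𝓞 K, Delta (f w) g =
      Delta z1 g - Q * (v0 + w.2) * Delta g h := by
    intro w
    simp only [hf]
    unfold Delta
    ring
  have hbadcard : (FV.filter fun v => ¬ (Delta (f (0, v)) g ≠ 0)).card ≤ 1 := by
    rw [Finset.card_le_one]
    intro v hv v' hv'
    rw [Finset.mem_filter, not_not, hΔf] at hv hv'
    have h1 : (Q : 𝓞 K) * Delta g h * (v - v') = 0 := by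
      linear_combination hv'.2 - hv.2
    have hQ𝓞 : (Q : 𝓞 K) ≠ 0 := by exact_mod_cast hQ0.ne'
    exact sub_eq_zero.1 ((mul_eq_zero.1 h1).resolve_left (mul_ne_zero hQ𝓞 hgh))
  have hFVcard : FV.card ≤ FV'.card + 1 := by
    have h1 : FV'.card + (FV.filter fun v => ¬ (Delta (f (0, v)) g ≠ 0)).card = FV.card :=
      Finset.card_filter_add_card_filter_not (s := FV) (fun v => Delta (f (0, v)) g ≠ 0)
    omega
  refine ⟨(FU ×ˢ FV').image f, ?_, ?_⟩
  · intro z hz
    rw [Finset.mem_image] at hz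
    obtain ⟨w, hw, rfl⟩ := hz
    rw [Finset.mem_product, Finset.mem_filter] at hw
    obtain ⟨hw1, hw2, hw3⟩ := hw
    have hwU := hFU w.1 hw1
    have hwV := hFV w.2 hw2
    have hdQ : ∀ x y a : 𝓞 K, x ∣ (Q : 𝓞 K) → x ∣ y - a → ∀ t, x ∣ (y + Q * t) - a := by
      intro x y a h1 h2 t
      have : (y + Q * t) - a = (y - a) + Q * t := by ring
      rw [this]
      exact dvd_add h2 (h1.mul_right _)
    have hmQ : (m : 𝓞 K) ∣ (Q : 𝓞 K) := by rw [hQ]; push_cast; exact dvd_mul_right _ _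
    have hp0Q : (p 0 : 𝓞 K) ∣ (Q : 𝓞 K) := by
      rw [hQ]; push_cast
      exact (((dvd_mul_right _ _).mul_right _).mul_left _)
    have hp1Q : (p 1 : 𝓞 K) ∣ (Q : 𝓞 K) := by
      rw [hQ]; push_cast
      exact (((dvd_mul_left _ _).mul_right _).mul_left _)
    have hp2Q : (p 2 : 𝓞 K) ∣ (Q : 𝓞 K) := by
      rw [hQ]; push_cast
      exact ((dvd_mul_left _ _).mul_left _)
    refine ⟨?_, ?_, ?_, hdQ _ _ _ hmQ i2 _, hdQ _ _ _ hmQ i3 _, ?_, ?_⟩
    · intro j
      have h1 : form j (f w) = form j z1 + Q * ((u0 + w.1) * form j g + (v0 + w.2) * form j h) := by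
        simp only [hf]
        fin_cases j
        · simp [form]
        · simp [form]; ring
        · simp [form]
      rw [h1]
      exact dvd_add (i1 j) (dvd_mul_of_dvd_right (dvd_add (dvd_mul_of_dvd_right (hg j) _)
        (dvd_mul_of_dvd_right (hh j) _)) _)
    · rw [hΔf] at hw3 ⊢
      exact hw3
    · intro j
      fin_cases j
      · exact cop_of (hdQ _ _ _ hp0Q i4 _) (Or.inr rfl)
      · exact cop_of (hdQ _ _ _ hp1Q i5 _) (Or.inl rfl)
      · exact cop_of (hdQ _ _ _ hp2Q i6 _) (Or.inl rfl)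
    · -- sizes
      have key : ∀ (a b : 𝓞 K), house (a : K) ≤ sz g → house (b : K) ≤ sz h →
          house ((Q : K) * ((w.1 - (us - u0)) * a + (w.2 - (vs - v0)) * b)) ≤ η * Y := by
        intro a b ha hb
        rw [house_nat_mul]
        have h1 : house (((w.1 : K) - (us - u0)) * a) ≤ (U + Cr) * sz g := by
          refine (house_mul_le _ _).trans (mul_le_mul ?_ ha (house_nonneg _) (by positivity))
          exact (house_sub_le' _ _).trans (add_le_add hwU hu0)
        have h2 : house (((w.2 : K) - (vs - v0)) * b) ≤ (V + Cr) * sz h := by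
          refine (house_mul_le _ _).trans (mul_le_mul ?_ hb (house_nonneg _) (by positivity))
          exact (house_sub_le' _ _).trans (add_le_add hwV hv0)
        have h3 := (house_add_le (((w.1 : K) - (us - u0)) * a) (((w.2 : K) - (vs - v0)) * b)).trans
          (add_le_add h1 h2)
        have h4 : (Q : ℝ) * (U * sz g) = η * Y / 4 := by rw [hU]; field_simp
        have h5 : (Q : ℝ) * (V * sz h) = η * Y / 4 := by rw [hV]; field_simp
        have h6 : (Q : ℝ) * (Cr * sz h) ≤ η * Y / 4 := by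
          have h7 : sz h ≤ η / (4 * Q * Cr) * Y :=
            hY.trans (mul_le_mul_of_nonneg_right ((min_le_right _ _).trans (min_le_left _ _)) hY0.le)
          calc (Q : ℝ) * (Cr * sz h) ≤ Q * (Cr * (η / (4 * Q * Cr) * Y)) := by gcongr
            _ = η * Y / 4 := by field_simp
        have h8 : (Q : ℝ) * (Cr * sz g) ≤ (Q : ℝ) * (Cr * sz h) := by gcongr
        calc (Q : ℝ) * house (((w.1 : K) - (us - u0)) * a + ((w.2 : K) - (vs - v0)) * b) ≤
            Q * ((U + Cr) * sz g + (V + Cr) * sz h) := mul_le_mul_of_nonneg_left h3 hQR.le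
          _ = Q * (U * sz g) + Q * (V * sz h) + Q * (Cr * sz g) + Q * (Cr * sz h) := by ring
          _ ≤ _ := by linarith
      have h9 : (((f w).1 : 𝓞 K) : K) - τ0 * Y =
          (Q : K) * ((w.1 - (us - u0)) * g.1 + (w.2 - (vs - v0)) * h.1) := by
        simp only [hf]
        push_cast
        linear_combination hQ1 + hW1
      rw [h9]
      exact key g.1 h.1 (le_max_left _ _) (le_max_left _ _)
    · have key : ∀ (a b : 𝓞 K), house (a : K) ≤ sz g → house (b : K) ≤ sz h →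
          house ((Q : K) * ((w.1 - (us - u0)) * a + (w.2 - (vs - v0)) * b)) ≤ η * Y := by
        intro a b ha hb
        rw [house_nat_mul]
        have h1 : house (((w.1 : K) - (us - u0)) * a) ≤ (U + Cr) * sz g := by
          refine (house_mul_le _ _).trans (mul_le_mul ?_ ha (house_nonneg _) (by positivity))
          exact (house_sub_le' _ _).trans (add_le_add hwU hu0)
        have h2 : house (((w.2 : K) - (vs - v0)) * b) ≤ (V + Cr) * sz h := by
          refine (house_mul_le _ _).trans (mul_le_mul ?_ hb (house_nonneg _) (by positivity))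
          exact (house_sub_le' _ _).trans (add_le_add hwV hv0)
        have h3 := (house_add_le (((w.1 : K) - (us - u0)) * a) (((w.2 : K) - (vs - v0)) * b)).trans
          (add_le_add h1 h2)
        have h4 : (Q : ℝ) * (U * sz g) = η * Y / 4 := by rw [hU]; field_simp
        have h5 : (Q : ℝ) * (V * sz h) = η * Y / 4 := by rw [hV]; field_simp
        have h6 : (Q : ℝ) * (Cr * sz h) ≤ η * Y / 4 := by
          have h7 : sz h ≤ η / (4 * Q * Cr) * Y :=
            hY.trans (mul_le_mul_of_nonneg_right ((min_le_right _ _).trans (min_le_left _ _)) hY0.le)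
          calc (Q : ℝ) * (Cr * sz h) ≤ Q * (Cr * (η / (4 * Q * Cr) * Y)) := by gcongr
            _ = η * Y / 4 := by field_simp
        have h8 : (Q : ℝ) * (Cr * sz g) ≤ (Q : ℝ) * (Cr * sz h) := by gcongr
        calc (Q : ℝ) * house (((w.1 : K) - (us - u0)) * a + ((w.2 : K) - (vs - v0)) * b) ≤
            Q * ((U + Cr) * sz g + (V + Cr) * sz h) := mul_le_mul_of_nonneg_left h3 hQR.le
          _ = Q * (U * sz g) + Q * (V * sz h) + Q * (Cr * sz g) + Q * (Cr * sz h) := by ring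
          _ ≤ _ := by linarith
      have h9 : (((f w).2 : 𝓞 K) : K) - Y =
          (Q : K) * ((w.1 - (us - u0)) * g.2 + (w.2 - (vs - v0)) * h.2) := by
        simp only [hf]
        push_cast
        linear_combination hQ2 + hW2
      rw [h9]
      exact key g.2 h.2 (le_max_right _ _) (le_max_right _ _)
  · rw [Finset.card_image_of_injective _ hfinj, Finset.card_product]
    push_cast
    have hV2 : 2 ≤ V / C := by
      have h7 : sz h ≤ η / (8 * Q * C) * Y :=
        hY.trans (mul_le_mul_of_nonneg_right ((min_le_right _ _).trans (min_le_right _ _)) hY0.le)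
      rw [hV, le_div_iff₀ (by linarith), le_div_iff₀ (by positivity)]
      calc 2 * C * (4 * Q * sz h) ≤ 2 * C * (4 * Q * (η / (8 * Q * C) * Y)) := by gcongr
        _ = η * Y := by field_simp; norm_num
    have hVd : 2 ≤ (V / C) ^ (dg K) := by
      calc (2 : ℝ) ≤ V / C := hV2
        _ ≤ (V / C) ^ (dg K) := le_self_pow₀ (by linarith) hd.ne'
    have hFV'c : (V / C) ^ (dg K) / 2 ≤ (FV'.card : ℝ) := by
      have h1 : (FV.card : ℝ) ≤ FV'.card + 1 := by exact_mod_cast hFVcard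
      linarith
    calc (c * (Y ^ 2 / (sz g * sz h))) ^ (dg K) ≤
        (1 / 2 * ((U / C) * (V / C))) ^ (dg K) := by
          apply pow_le_pow_left₀ (by positivity)
          have h1 : c ≤ η ^ 2 / (32 * Q ^ 2 * C ^ 2) := min_le_left _ _
          calc c * (Y ^ 2 / (sz g * sz h)) ≤
              η ^ 2 / (32 * Q ^ 2 * C ^ 2) * (Y ^ 2 / (sz g * sz h)) := by gcongr
            _ = _ := by
              rw [hU, hV]
              field_simp
              norm_num
      _ = (1 / 2) ^ (dg K) * ((U / C) ^ (dg K) * (V / C) ^ (dg K)) := by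
          rw [mul_pow, mul_pow]
      _ ≤ (1 / 2) * ((U / C) ^ (dg K) * (V / C) ^ (dg K)) := by
          apply mul_le_mul_of_nonneg_right _ (by positivity)
          exact pow_le_of_le_one (by norm_num) (by norm_num) hd.ne'
      _ = (U / C) ^ (dg K) * ((V / C) ^ (dg K) / 2) := by ring
      _ ≤ (FU.card : ℝ) * FV'.card :=
          mul_le_mul hFUc hFV'c (by positivity) (Nat.cast_nonneg _)

end Pool.Agent.X4.KA
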