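import Mathlib
import Pool.Agent.X4.KA.Ar
import Pool.Agent.TH461.SST.Basis
import Pool.Agent.H393R2.Geom3

/-!
# Two short independent vectors
-/

set_option autoImplicit false

namespace Pool.Agent.X4.KA

open NumberField Module Finset Pool.Agent.TH461.SST Pool.Agent.H393R2 Pool.Agent.H393R2.Geom

/-- the sup norm of an integer vector -/
noncomputable def nn {m : ℕ} (x : Fin m → ℤ) : ℝ := ‖(fun l => (x l : ℝ))‖

theorem abs_le_nn {m : ℕ} (x : Fin m → ℤ) (l : Fin m) : |(x l : ℝ)| ≤ nn x :=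
  norm_le_pi_norm (fun l => (x l : ℝ)) l

variable (K : Type) [Field K] [NumberField K]

/-- the basis of the pairs -/
noncomputable def bp : Basis (Fin (dg K + dg K)) ℤ (𝓞 K × 𝓞 K) :=
  ((om K).prod (om K)).reindex finSumFinEquiv

/-- the rational basis of the pairs -/
noncomputable def bpQ : Basis (Fin (dg K + dg K)) ℚ (K × K) :=
  ((omQ K).prod (omQ K)).reindex finSumFinEquiv

theorem bp_repr (z : 𝓞 K × 𝓞 K) (l : Fin (dg K + dg K)) :
    (bp K).repr z l = Sum.elim (fun i => (om K).repr z.1 i) (fun i => (om K).repr z.2 i)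
      (finSumFinEquiv.symm l) := by
  unfold bp
  rw [Basis.repr_reindex_apply]
  rcases finSumFinEquiv.symm l with i | i
  · rw [Basis.prod_repr_inl]; rfl
  · rw [Basis.prod_repr_inr]; rfl

theorem bpQ_repr (z : K × K) (l : Fin (dg K + dg K)) :
    (bpQ K).repr z l = Sum.elim (fun i => (omQ K).repr z.1 i) (fun i => (omQ K).repr z.2 i)
      (finSumFinEquiv.symm l) := by
  unfold bpQ
  rw [Basis.repr_reindex_apply]
  rcases finSumFinEquiv.symm l with i | i
  · rw [Basis.prod_repr_inl]; rfl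
  · rw [Basis.prod_repr_inr]; rfl

theorem bpQ_coe (z : 𝓞 K × 𝓞 K) (l : Fin (dg K + dg K)) :
    (bpQ K).repr ((z.1 : K), (z.2 : K)) l = (((bp K).repr z l : ℤ) : ℚ) := by
  rw [bpQ_repr, bp_repr]
  rcases finSumFinEquiv.symm l with i | i
  · simp only [Sum.elim_inl]; exact omQ_repr K z.1 i
  · simp only [Sum.elim_inr]; exact omQ_repr K z.2 i

theorem sz_le : ∃ C : ℝ, 1 ≤ C ∧ ∀ z : 𝓞 K × 𝓞 K, sz z ≤ C * nn (fun l => (bp K).repr z l) := by
  obtain ⟨C, hC1, hC⟩ := house_bound K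
  refine ⟨C, hC1, fun z => ?_⟩
  unfold sz
  apply max_le
  · refine hC (fun i => (((om K).repr z.1 i : ℤ) : ℝ)) _ _ (fun i => ?_) (fun i => ?_)
    · rw [omQ_repr]; push_cast; rfl
    · have := abs_le_nn (fun l => (bp K).repr z l) (finSumFinEquiv (Sum.inl i))
      rw [bp_repr, Equiv.symm_apply_apply] at this
      exact this
  · refine hC (fun i => (((om K).repr z.2 i : ℤ) : ℝ)) _ _ (fun i => ?_) (fun i => ?_)
    · rw [omQ_repr]; push_cast; rfl
    · have := abs_le_nn (fun l => (bp K).repr z l) (finSumFinEquiv (Sum.inr i))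
      rw [bp_repr, Equiv.symm_apply_apply] at this
      exact this

/-- the endomorphism attached to a form -/
noncomputable def T (v : Fin 3) : 𝓞 K × 𝓞 K →ₗ[ℤ] 𝓞 K × 𝓞 K :=
  LinearMap.inl ℤ (𝓞 K) (𝓞 K) ∘ₗ
    ![LinearMap.fst ℤ (𝓞 K) (𝓞 K), LinearMap.snd ℤ (𝓞 K) (𝓞 K) - LinearMap.fst ℤ (𝓞 K) (𝓞 K),
      LinearMap.snd ℤ (𝓞 K) (𝓞 K)] v

omit [NumberField K] in
theorem T_apply (v : Fin 3) (z : 𝓞 K × 𝓞 K) : T K v z = (form v z, 0) := by
  fin_cases v <;> simp [T, form]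

theorem dvd_iff_coord (m : ℕ) (x : 𝓞 K) :
    ((m : 𝓞 K)) ∣ x ↔ ∀ i, ((m : ℤ)) ∣ (om K).repr x i := by
  constructor
  · rintro ⟨y, hy⟩ i
    refine ⟨(om K).repr y i, ?_⟩
    have h1 : (m : 𝓞 K) * y = (m : ℤ) • y := by rw [zsmul_eq_mul]; push_cast; rfl
    rw [hy, h1, map_smul, Finsupp.smul_apply, smul_eq_mul]
  · intro h
    choose c hc using h
    refine ⟨∑ i, c i • om K i, ?_⟩
    rw [← (om K).sum_repr x, Finset.mul_sum]
    refine Finset.sum_congr rfl fun i _ => ?_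
    have h1 : (om K).repr (∑ i, (om K).repr x i • om K i) i = (om K).repr x i := by
      rw [(om K).sum_repr x]
    rw [hc i, mul_smul, zsmul_eq_mul]
    push_cast
    rfl

theorem inL_iff (p e : Fin 3 → ℕ) (z : 𝓞 K × 𝓞 K) :
    (∀ (v : Fin 3) (l : Fin (dg K + dg K)), ((p v : ℤ) ^ (if (l : ℕ) < dg K then e v else 0)) ∣
      ∑ j, LinearMap.toMatrix (bp K) (bp K) (T K v) l j * (bp K).repr z j) ↔ InL p e z := by
  have h1 : ∀ v l, ∑ j, LinearMap.toMatrix (bp K) (bp K) (T K v) l j * (bp K).repr z j =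
      (bp K).repr (T K v z) l := by
    intro v l
    have := congrFun (LinearMap.toMatrix_mulVec_repr (bp K) (bp K) (T K v) z) l
    rw [← this]
    rfl
  simp only [h1, T_apply]
  constructor
  · intro h v
    have h2 : ((p v : 𝓞 K) ^ (e v)) = (((p v) ^ (e v) : ℕ) : 𝓞 K) := by push_cast; rfl
    rw [h2, dvd_iff_coord]
    intro i
    have h3 := h v (finSumFinEquiv (Sum.inl i))
    rw [bp_repr, Equiv.symm_apply_apply] at h3
    have h4 : ((finSumFinEquiv (Sum.inl i) : Fin (dg K + dg K)) : ℕ) < dg K := by simp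
    rw [if_pos h4] at h3
    push_cast
    exact h3
  · intro h v l
    rw [bp_repr]
    rcases hl : finSumFinEquiv.symm l with i | i
    · have h4 : l = finSumFinEquiv (Sum.inl i) := by rw [← hl, Equiv.apply_symm_apply]
      have h5 : (l : ℕ) < dg K := by rw [h4]; simp
      rw [if_pos h5]
      have h6 := h v
      have h2 : ((p v : 𝓞 K) ^ (e v)) = (((p v) ^ (e v) : ℕ) : 𝓞 K) := by push_cast; rfl
      rw [h2, dvd_iff_coord] at h6
      have := h6 i
      push_cast at this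
      exact this
    · simp

theorem exists_gh : ∃ C : ℝ, 1 ≤ C ∧ ∀ (p e : Fin 3 → ℕ), (∀ j, (p j).Prime) →
    ∃ g h : 𝓞 K × 𝓞 K, InL p e g ∧ InL p e h ∧ Delta g h ≠ 0 ∧ sz g ≤ sz h ∧
      sz g * sz h ≤ C * ∏ j, (p j : ℝ) ^ (e j) := by
  classical
  obtain ⟨C2, hC21, hC2⟩ := sz_le K
  have hd0 : 0 < dg K := finrank_pos
  obtain ⟨n, hn⟩ : ∃ n, n = dg K + dg K := ⟨_, rfl⟩
  have hn0 : 0 < dg K + dg K := by omega
  have hKK := one_le_KK hn0
  set C3 : ℝ := (2 * KK (dg K + dg K)) ^ (dg K + dg K) with hC3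
  have hC31 : 1 ≤ C3 := one_le_pow₀ (by linarith)
  refine ⟨C2 ^ 2 * C3, by nlinarith, fun p e hp => ?_⟩
  obtain ⟨B, hB0, hBle, hB⟩ := Basis.basis (dg K + dg K) 3
    (fun v => LinearMap.toMatrix (bp K) (bp K) (T K v)) p (fun j => (hp j).two_le)
    (fun v l => if (l : ℕ) < dg K then e v else 0)
  set DD : ℝ := ∏ j, (p j : ℝ) ^ (e j) with hDD
  have hDD0 : 0 < DD := Finset.prod_pos fun j _ => pow_pos (by exact_mod_cast (hp j).pos) _
  have hBD : |(B.det : ℝ)| ≤ DD ^ (dg K) := by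
    have h1 : |(B.det : ℝ)| ≤ ∏ v : Fin 3, ∏ l : Fin (dg K + dg K),
        (p v : ℝ) ^ (if (l : ℕ) < dg K then e v else 0) := by
      have h2 : ((|B.det| : ℤ) : ℝ) ≤ ((∏ v : Fin 3, ∏ l : Fin (dg K + dg K),
        (p v : ℤ) ^ (if (l : ℕ) < dg K then e v else 0) : ℤ) : ℝ) := by exact_mod_cast hBle
      rw [Int.cast_abs] at h2
      simp only [Int.cast_prod, Int.cast_pow, Int.cast_natCast] at h2
      exact h2
    refine h1.trans (le_of_eq ?_)
    rw [hDD, ← Finset.prod_pow]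
    refine Finset.prod_congr rfl fun v _ => ?_
    rw [Fin.prod_univ_add]
    simp
  set D : ℝ := |(B.det : ℝ)| with hD
  have hDR : 0 < D := abs_pos.2 (by exact_mod_cast hB0)
  set s : ℝ := D ^ (-(1 / ((dg K + dg K : ℕ) : ℝ))) with hs
  have hs0 : 0 < s := Real.rpow_pos_of_pos hDR _
  have hnR : (0 : ℝ) < ((dg K + dg K : ℕ) : ℝ) := by exact_mod_cast hn0
  have hsm : s ^ (dg K + dg K) = D⁻¹ := by
    rw [hs, ← Real.rpow_natCast, ← Real.rpow_mul hDR.le, neg_mul, one_div,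
      inv_mul_cancel₀ hnR.ne', Real.rpow_neg_one]
  set BR : Matrix (Fin (dg K + dg K)) (Fin (dg K + dg K)) ℝ := B.map (fun z : ℤ => (z : ℝ))
    with hBR
  have hBRdet : BR.det = (B.det : ℝ) := det_map_cast B
  set L : Matrix (Fin (dg K + dg K)) (Fin (dg K + dg K)) ℝ := s • BR with hL
  have hLdet : |L.det| = 1 := by
    rw [hL, Matrix.det_smul, hBRdet, Fintype.card_fin, abs_mul, abs_of_pos (by positivity), hsm]
    exact inv_mul_cancel₀ hDR.ne'
  have hL0 : L.det ≠ 0 := by intro h; rw [h] at hLdet; simp at hLdet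
  have hLs : (L⁻¹.transpose).transpose * L = 1 := by
    rw [Matrix.transpose_transpose]
    exact Matrix.nonsing_inv_mul L (isUnit_iff_ne_zero.2 hL0)
  obtain ⟨G, hG, hmono, hmin⟩ := minima L (L⁻¹.transpose) hLs
  have hup := prod_upper L G hn0 hLdet hG hmono hmin
  have happ : ∀ x : Fin (dg K + dg K) → ℤ, ‖app L x‖ = s * nn (B.mulVec x) := by
    intro x
    have e1 : app L x = s • (fun l => ((B.mulVec x l : ℤ) : ℝ)) := by
      rw [app_apply, hL, Matrix.smul_mulVec]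
      congr 1
      funext l
      simp [Matrix.mulVec, dotProduct, hBR]
    rw [e1, norm_smul, Real.norm_of_nonneg hs0.le]
    rfl
  set g : Matrix (Fin (dg K + dg K)) (Fin (dg K + dg K)) ℤ := fun i => B.mulVec (G i) with hg
  have hgG : g = G * B.transpose := by
    ext i l
    simp only [hg, Matrix.mulVec, dotProduct, Matrix.mul_apply, Matrix.transpose_apply]
    exact Finset.sum_congr rfl fun _ _ => mul_comm _ _
  have hgdet : g.det ≠ 0 := by
    rw [hgG, Matrix.det_mul, Matrix.det_transpose]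
    exact mul_ne_zero hG hB0
  have hprod : ∏ i, nn (g i) ≤ C3 * DD ^ (dg K) := by
    have h1 : ∏ i, ‖app L (G i)‖ = D⁻¹ * ∏ i, nn (g i) := by
      simp only [happ, Finset.prod_mul_distrib, Finset.prod_const, Finset.card_univ,
        Fintype.card_fin, hsm]
      rfl
    rw [h1] at hup
    have h2 := mul_le_mul_of_nonneg_left hup hDR.le
    have h3 : D * (D⁻¹ * ∏ i, nn (g i)) = ∏ i, nn (g i) := by
      rw [← mul_assoc, mul_inv_cancel₀ hDR.ne', one_mul]
    rw [h3] at h2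
    calc ∏ i, nn (g i) ≤ D * C3 := h2
      _ ≤ DD ^ (dg K) * C3 := mul_le_mul_of_nonneg_right hBD (by linarith)
      _ = _ := mul_comm _ _
  have hmono' : ∀ i i', i ≤ i' → nn (g i) ≤ nn (g i') := by
    intro i i' hii
    have h1 := hmono i i' hii
    rw [happ, happ] at h1
    exact le_of_mul_le_mul_left h1 hs0
  -- the vectors
  set γ : Fin (dg K + dg K) → 𝓞 K × 𝓞 K := fun i => (bp K).equivFun.symm (g i) with hγ
  have hγr : ∀ i, (fun l => (bp K).repr (γ i) l) = g i := fun i =>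
    (bp K).equivFun.apply_symm_apply (g i)
  have hγL : ∀ i, InL p e (γ i) := by
    intro i
    rw [← inL_iff]
    have h1 := (hB (g i)).2 ⟨G i, rfl⟩
    intro v l
    have h2 := h1 v l
    rw [← hγr i] at h2
    exact h2
  have hγsz : ∀ i, sz (γ i) ≤ C2 * nn (g i) := by
    intro i
    have := hC2 (γ i)
    rwa [hγr i] at this
  have hli : LinearIndependent ℚ (fun i => ((((γ i).1 : 𝓞 K) : K), (((γ i).2 : 𝓞 K) : K))) := by
    have h1 : LinearIndependent ℚ (fun i : Fin (dg K + dg K) => fun l => ((g i l : ℤ) : ℚ)) := by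
      have h3 : IsUnit (Matrix.of (fun i : Fin (dg K + dg K) => fun l => ((g i l : ℤ) : ℚ))) := by
        rw [Matrix.isUnit_iff_isUnit_det, isUnit_iff_ne_zero]
        have h6 := (RingHom.map_det (Int.castRingHom ℚ) g)
        rw [RingHom.mapMatrix_apply] at h6
        have h7 : (Matrix.of (fun i : Fin (dg K + dg K) => fun l => ((g i l : ℤ) : ℚ))) =
          g.map (Int.castRingHom ℚ) := rfl
        rw [h7, ← h6]
        simpa using hgdet
      rw [← Matrix.linearIndependent_rows_iff_isUnit] at h3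
      exact h3
    have h2 := h1.map' (bpQ K).equivFun.symm.toLinearMap (LinearEquiv.ker _)
    have h3 : (fun i => ((((γ i).1 : 𝓞 K) : K), (((γ i).2 : 𝓞 K) : K))) =
        ((bpQ K).equivFun.symm.toLinearMap : (Fin (dg K + dg K) → ℚ) → K × K) ∘
          (fun i : Fin (dg K + dg K) => fun l => ((g i l : ℤ) : ℚ)) := by
      funext i
      simp only [Function.comp_apply, LinearEquiv.coe_coe]
      rw [LinearEquiv.eq_symm_apply]
      funext l
      rw [Basis.equivFun_apply, bpQ_coe]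
      have := congrFun (hγr i) l
      rw [← this]
    rw [h3]
    exact h2
  have h0 : (⟨0, hn0⟩ : Fin (dg K + dg K)) ≤ ⟨0, hn0⟩ := le_refl _
  obtain ⟨i0, hi0, hΔ⟩ : ∃ i0 : Fin (dg K + dg K), (i0 : ℕ) ≤ dg K ∧
      Delta (γ ⟨0, hn0⟩) (γ i0) ≠ 0 := by
    by_contra hcon
    push Not at hcon
    set δ : K × K →ₗ[ℚ] K :=
      (LinearMap.mulLeft ℚ (((γ ⟨0, hn0⟩).1 : 𝓞 K) : K)) ∘ₗ LinearMap.snd ℚ K K -
        (LinearMap.mulLeft ℚ (((γ ⟨0, hn0⟩).2 : 𝓞 K) : K)) ∘ₗ LinearMap.fst ℚ K K with hδ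
    have hδz : ∀ z : K × K, δ z = (((γ ⟨0, hn0⟩).1 : 𝓞 K) : K) * z.2 -
        (((γ ⟨0, hn0⟩).2 : 𝓞 K) : K) * z.1 := fun z => rfl
    have hsurj : LinearMap.range δ = ⊤ := by
      rw [LinearMap.range_eq_top]
      intro y
      have h1 := hli.ne_zero ⟨0, hn0⟩
      by_cases h2 : (((γ ⟨0, hn0⟩).1 : 𝓞 K) : K) = 0
      · have h3 : (((γ ⟨0, hn0⟩).2 : 𝓞 K) : K) ≠ 0 := by
          intro h3
          apply h1
          simp only [h2, h3]
          rfl
        refine ⟨(-y / (((γ ⟨0, hn0⟩).2 : 𝓞 K) : K), 0), ?_⟩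
        rw [hδz]
        simp only
        field_simp
        ring
      · refine ⟨(0, y / (((γ ⟨0, hn0⟩).1 : 𝓞 K) : K)), ?_⟩
        rw [hδz]
        simp only
        field_simp
        ring
    have h4 := LinearMap.finrank_range_add_finrank_ker δ
    rw [hsurj, finrank_top, Module.finrank_prod] at h4
    have h5 : finrank ℚ (LinearMap.ker δ) = dg K := by
      have : dg K = finrank ℚ K := rfl
      omega
    have h6 : ∀ i : Fin (dg K + 1), ((((γ ⟨i, by omega⟩).1 : 𝓞 K) : K),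
        (((γ ⟨i, by omega⟩).2 : 𝓞 K) : K)) ∈ LinearMap.ker δ := by
      intro i
      rw [LinearMap.mem_ker, hδz]
      have h7 := hcon ⟨i, by omega⟩ (by simp only; omega)
      unfold Delta at h7
      have h8 := congrArg (fun x : 𝓞 K => (x : K)) h7
      simpa using h8
    have h7 : LinearIndependent ℚ (fun i : Fin (dg K + 1) =>
        (⟨_, h6 i⟩ : LinearMap.ker δ)) := by
      apply LinearIndependent.of_comp (LinearMap.ker δ).subtype
      exact hli.comp (fun i : Fin (dg K + 1) => (⟨i, by omega⟩ : Fin (dg K + dg K)))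
        (fun a b hab => by
          simp only [Fin.mk.injEq] at hab
          exact Fin.ext hab)
    have h8 := h7.fintype_card_le_finrank
    rw [Fintype.card_fin, h5] at h8
    omega
  have hnn0 : ∀ i, 0 ≤ nn (g i) := fun i => norm_nonneg _
  have hkey : nn (g ⟨0, hn0⟩) * nn (g i0) ≤ C3 * DD := by
    have h1 : (nn (g ⟨0, hn0⟩) * nn (g i0)) ^ (dg K) ≤ (C3 * DD) ^ (dg K) := by
      calc (nn (g ⟨0, hn0⟩) * nn (g i0)) ^ (dg K) =
          (∏ _i : Fin (dg K), nn (g ⟨0, hn0⟩)) * (∏ _i : Fin (dg K), nn (g i0)) := by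
            rw [mul_pow, Finset.prod_const, Finset.prod_const, Finset.card_univ, Fintype.card_fin]
        _ ≤ (∏ i : Fin (dg K), nn (g (Fin.castAdd (dg K) i))) *
            (∏ i : Fin (dg K), nn (g (Fin.natAdd (dg K) i))) := by
            refine mul_le_mul ?_ ?_ (Finset.prod_nonneg fun _ _ => hnn0 _)
              (Finset.prod_nonneg fun _ _ => hnn0 _)
            · refine Finset.prod_le_prod (fun _ _ => hnn0 _) fun i _ => hmono' _ _ ?_
              rw [Fin.le_def]; simp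
            · refine Finset.prod_le_prod (fun _ _ => hnn0 _) fun i _ => hmono' _ _ ?_
              rw [Fin.le_def, Fin.val_natAdd]; omega
        _ = ∏ i, nn (g i) := (Fin.prod_univ_add (fun i => nn (g i))).symm
        _ ≤ C3 * DD ^ (dg K) := hprod
        _ ≤ C3 ^ (dg K) * DD ^ (dg K) := by
            apply mul_le_mul_of_nonneg_right _ (by positivity)
            exact le_self_pow₀ hC31 hd0.ne'
        _ = _ := (mul_pow _ _ _).symm
    exact (pow_le_pow_iff_left₀ (mul_nonneg (hnn0 _) (hnn0 _)) (by positivity) hd0.ne').1 h1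
  have hszn : ∀ i, 0 ≤ sz (γ i) := fun i => (house_nonneg _).trans (le_max_left _ _)
  have hfin : sz (γ ⟨0, hn0⟩) * sz (γ i0) ≤ C2 ^ 2 * C3 * DD := by
    calc sz (γ ⟨0, hn0⟩) * sz (γ i0) ≤ (C2 * nn (g ⟨0, hn0⟩)) * (C2 * nn (g i0)) :=
          mul_le_mul (hγsz _) (hγsz _) (hszn _) (mul_nonneg (by linarith) (hnn0 _))
      _ = C2 ^ 2 * (nn (g ⟨0, hn0⟩) * nn (g i0)) := by ring
      _ ≤ C2 ^ 2 * (C3 * DD) := mul_le_mul_of_nonneg_left hkey (by positivity)
      _ = _ := by ring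
  rcases le_total (sz (γ ⟨0, hn0⟩)) (sz (γ i0)) with h | h
  · exact ⟨γ ⟨0, hn0⟩, γ i0, hγL _, hγL _, hΔ, h, hfin⟩
  · refine ⟨γ i0, γ ⟨0, hn0⟩, hγL _, hγL _, ?_, h, by rw [mul_comm]; exact hfin⟩
    intro h1
    apply hΔ
    have : Delta (γ ⟨0, hn0⟩) (γ i0) = -Delta (γ i0) (γ ⟨0, hn0⟩) := by unfold Delta; ring
    rw [this, h1, neg_zero]

end Pool.Agent.X4.KA
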