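import Mathlib
import Pool.Agent.X4.KA.Bad
import Pool.Agent.X4.KA.Fam
import Pool.Agent.X4.KA.Geo

/-!
# The multiplicity of the parameter and the number of the points
-/

set_option autoImplicit false

namespace Pool.Agent.X4.KA

open NumberField Module Finset

variable {K : Type} [Field K] [NumberField K]

theorem mult (K : Type) [Field K] [NumberField K] : ∃ C : ℝ, 1 ≤ C ∧ ∀ (B : ℝ), 0 ≤ B →
    ∀ Y : ℝ, 0 < Y → ∀ S : Finset (𝓞 K × 𝓞 K),
    (∀ z ∈ S, (cn z : ℝ) ≤ B ∧ (∀ σ : K →+* ℂ, Y / 2 ≤ ‖σ (z.2 : K)‖) ∧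
      house (z.2 : K) ≤ 2 * Y) →
    ∀ F : Finset K, (∀ z ∈ S, (z.1 : K) / z.2 ∈ F) →
    (S.card : ℝ) ≤ (C * (4 * B + 1)) ^ (dg K) * (F.card : ℝ) := by
  classical
  obtain ⟨C, hC1, hC⟩ := count_up K
  refine ⟨C, hC1, fun B hB Y hY S hS F hF => ?_⟩
  have hz2 : ∀ z ∈ S, (z.2 : K) ≠ 0 := by
    intro z hz h0
    obtain ⟨σ⟩ : Nonempty (K →+* ℂ) := inferInstance
    have := (hS z hz).2.1 σ
    rw [h0, map_zero, norm_zero] at this
    linarith
  have hnn : 0 ≤ (C * (4 * B + 1)) ^ (dg K) := by positivity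
  have h1 : S.card ≤ ⌊(C * (4 * B + 1)) ^ (dg K)⌋₊ * F.card := by
    apply Finset.card_le_mul_card_image_of_maps_to (f := fun z => (z.1 : K) / z.2)
    · intro z hz
      exact hF z hz
    · intro x _
      apply Nat.le_floor
      by_cases hne : (S.filter fun z => (z.1 : K) / z.2 = x).Nonempty
      · obtain ⟨z, hz⟩ := hne
        rw [Finset.mem_filter] at hz
        obtain ⟨hzS, hzx⟩ := hz
        have hz20 := hz2 z hzS
        have hz0 : z ≠ 0 := fun h0 => hz20 (by rw [h0]; simp)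
        obtain ⟨s, r, hsr⟩ := cn_mem z
        have hsrK : (cn z : K) = (s : K) * z.1 + (r : K) * z.2 := by
          have := congrArg (fun x : 𝓞 K => (x : K)) hsr
          simpa using this
        have hcn0 : (cn z : K) ≠ 0 := by exact_mod_cast (cn_pos hz0).ne'
        have hinj : Set.InjOn (fun z' : 𝓞 K × 𝓞 K => s * z'.1 + r * z'.2)
            (S.filter fun z => (z.1 : K) / z.2 = x : Finset (𝓞 K × 𝓞 K)) := by
          intro a ha b hb hab
          rw [Finset.mem_coe, Finset.mem_filter] at ha hb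
          have ha2 := hz2 a ha.1
          have hb2 := hz2 b hb.1
          have key : ∀ y : 𝓞 K × 𝓞 K, y ∈ S → (y.1 : K) / y.2 = x →
              ((s * y.1 + r * y.2 : 𝓞 K) : K) * z.2 = cn z * y.2 ∧
              ((s * y.1 + r * y.2 : 𝓞 K) : K) * z.1 = cn z * y.1 := by
            intro y hy hyx
            have hy2 := hz2 y hy
            rw [← hzx, div_eq_div_iff hy2 hz20] at hyx
            push_cast
            rw [hsrK]
            constructor
            · linear_combination (s : K) * hyx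
            · linear_combination (-(r : K)) * hyx
          obtain ⟨a1, a2⟩ := key a ha.1 ha.2
          obtain ⟨b1, b2⟩ := key b hb.1 hb.2
          have hab' : (s * a.1 + r * a.2 : 𝓞 K) = s * b.1 + r * b.2 := hab
          rw [hab'] at a1 a2
          have e1 : (a.2 : K) = b.2 := mul_left_cancel₀ hcn0 (a1.symm.trans b1)
          have e2 : (a.1 : K) = b.1 := mul_left_cancel₀ hcn0 (a2.symm.trans b2)
          exact Prod.ext (RingOfIntegers.coe_injective e2) (RingOfIntegers.coe_injective e1)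
        have h2 := hC (4 * B) (by positivity) ((S.filter fun z => (z.1 : K) / z.2 = x).image
          (fun z' : 𝓞 K × 𝓞 K => s * z'.1 + r * z'.2)) (by
            intro τ hτ
            rw [Finset.mem_image] at hτ
            obtain ⟨y, hy, rfl⟩ := hτ
            rw [Finset.mem_filter] at hy
            obtain ⟨hyS, hyx⟩ := hy
            have hy2 := hz2 y hyS
            rw [← hzx, div_eq_div_iff hy2 hz20] at hyx
            have h3 : ((s * y.1 + r * y.2 : 𝓞 K) : K) = cn z * (y.2 / z.2) := by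
              rw [mul_div_assoc', eq_div_iff hz20]
              push_cast
              rw [hsrK]
              linear_combination (s : K) * hyx
            rw [h3]
            apply house_le_of (by positivity)
            intro σ
            rw [map_mul, map_natCast, norm_mul, Complex.norm_natCast, map_div₀, norm_div]
            have h4 := (hS z hzS).2.1 σ
            have h5 : ‖σ (y.2 : K)‖ ≤ 2 * Y :=
              (norm_embedding_le_house _ _).trans (hS y hyS).2.2
            have h6 : ‖σ (y.2 : K)‖ / ‖σ (z.2 : K)‖ ≤ 4 := by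
              rw [div_le_iff₀ (by linarith)]
              linarith
            calc (cn z : ℝ) * (‖σ (y.2 : K)‖ / ‖σ (z.2 : K)‖) ≤ B * 4 :=
                  mul_le_mul (hS z hzS).1 h6 (by positivity) hB
              _ = 4 * B := mul_comm _ _)
        rw [Finset.card_image_of_injOn hinj] at h2
        exact h2
      · rw [Finset.not_nonempty_iff_eq_empty] at hne
        rw [hne, Finset.card_empty, Nat.cast_zero]
        exact hnn
  calc (S.card : ℝ) ≤ (⌊(C * (4 * B + 1)) ^ (dg K)⌋₊ : ℝ) * F.card := by exact_mod_cast h1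
    _ ≤ _ := mul_le_mul_of_nonneg_right (Nat.floor_le hnn) (Nat.cast_nonneg _)

/-- **Many lattice vectors of bounded content.** -/
theorem points (K : Type) [Field K] [NumberField K] (η : ℝ) (hη : 0 < η) (p : Fin 3 → ℕ)
    (hp : ∀ j, (p j).Prime) (hpi : Function.Injective p) (m : ℕ) (hm : 0 < m)
    (hpm : ∀ j, ¬ p j ∣ m) (r : 𝓞 K) (τ0 : K) :
    ∃ (c : ℝ) (k : ℕ), 0 < c ∧ ∀ (e : Fin 3 → ℕ), (∀ j, 1 ≤ e j) → ∀ (s : ℝ), 0 < s →
      (∀ z : 𝓞 K × 𝓞 K, z ≠ 0 → InL p e z → s < sz z) → ∀ Y : ℕ,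
      ∏ j, (p j : ℝ) ^ (e j) ≤ c * s * Y →
      ∃ S : Finset (𝓞 K × 𝓞 K), (∀ z ∈ S, InL p e z ∧
        (m : 𝓞 K) ∣ z.1 - r ∧ (m : 𝓞 K) ∣ z.2 - 1 ∧ house ((z.1 : K) - τ0 * Y) ≤ η * Y ∧
        house ((z.2 : K) - Y) ≤ η * Y ∧ cn z < 2 ^ k) ∧
        c * (Y ^ 2 / ∏ j, (p j : ℝ) ^ (e j)) ^ (dg K) ≤ (S.card : ℝ) := by
  classical
  obtain ⟨Cg, hCg1, hCg⟩ := exists_gh K
  obtain ⟨Cb, hCb1, hCb⟩ := bad_total K
  obtain ⟨cf, hcf0, hcf⟩ := fam K η hη p hp hpi m hm hpm r τ0
  set R0 : ℝ := 1 + η + house τ0 with hR0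
  have hτ0n := house_nonneg τ0
  have hR01 : 0 < R0 := by rw [hR0]; linarith
  have hCg0 : 0 < Cg := by linarith
  obtain ⟨k, hk⟩ : ∃ k : ℕ, Cb * (Cg * R0 ^ 2) ^ (dg K) * (1 / 2) ^ k <
      (cf / Cg) ^ (dg K) / 2 := by
    have h1 : 0 < (cf / Cg) ^ (dg K) / 2 := by positivity
    have h2 : 0 < Cb * (Cg * R0 ^ 2) ^ (dg K) := by positivity
    obtain ⟨k, hk⟩ := exists_pow_lt_of_lt_one (div_pos h1 h2)
      (show (1 / 2 : ℝ) < 1 by norm_num)
    refine ⟨k, ?_⟩
    rw [lt_div_iff₀ h2] at hk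
    linarith
  set c : ℝ := min ((cf / Cg) ^ (dg K) / 2) (cf / Cg) with hc
  have hc0 : 0 < c := lt_min (by positivity) (by positivity)
  refine ⟨c, k, hc0, fun e he s hs hmin Y hY => ?_⟩
  obtain ⟨g, h, hg, hh, hgh, hsz, hprod⟩ := hCg p e hp
  set D : ℝ := ∏ j, (p j : ℝ) ^ (e j) with hD
  have hD0 : 0 < D := Finset.prod_pos fun j _ => pow_pos (by exact_mod_cast (hp j).pos) _
  have hg0 : g ≠ 0 := by rintro rfl; apply hgh; unfold Delta; simp
  have hgs := hmin g hg0 hg
  have hY0 : (0 : ℝ) ≤ Y := Nat.cast_nonneg _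
  have hhY : sz h ≤ cf * Y := by
    have h1 : s * sz h ≤ Cg * D := by
      refine le_trans ?_ hprod
      exact mul_le_mul_of_nonneg_right hgs.le (sz_nonneg h)
    have h2 : Cg * D ≤ Cg * (cf / Cg * s * Y) := by
      apply mul_le_mul_of_nonneg_left _ hCg0.le
      refine hY.trans ?_
      have : c ≤ cf / Cg := min_le_right _ _
      gcongr
    have h3 : Cg * (cf / Cg * s * Y) = s * (cf * Y) := by field_simp
    rw [h3] at h2
    exact le_of_mul_le_mul_left (h1.trans h2) hs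
  obtain ⟨S, hS, hSc⟩ := hcf e he g h hg hh hgh hsz Y hhY
  set G : Finset (𝓞 K × 𝓞 K) := S.filter fun z => cn z < 2 ^ k with hG
  refine ⟨G, ?_, ?_⟩
  · intro z hz
    rw [Finset.mem_filter] at hz
    obtain ⟨k1, k2, k3, k4, k5, k6, k7⟩ := hS z hz.1
    exact ⟨k1, k4, k5, k6, k7, hz.2⟩
  · have hbad := hCb p e hp hpi g h hg hh hgh hsz Cg hCg0.le hprod (R0 * Y) (by positivity) k
      (S.filter fun z => ¬ cn z < 2 ^ k) (by
        intro z hz
        rw [Finset.mem_filter, not_lt] at hz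
        obtain ⟨k1, k2, k3, k4, k5, k6, k7⟩ := hS z hz.1
        refine ⟨k1, k2, ?_, k3, hz.2⟩
        apply max_le
        · have e1 : (z.1 : K) = ((z.1 : K) - τ0 * Y) + (Y : K) * τ0 := by ring
          rw [e1]
          refine (house_add_le _ _).trans ?_
          rw [house_nat_mul, hR0]
          nlinarith
        · have e1 : (z.2 : K) = ((z.2 : K) - Y) + ((Y : ℤ) : K) := by push_cast; ring
          rw [e1]
          refine (house_add_le _ _).trans ?_
          rw [house_intCast, hR0]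
          have : ((|(Y : ℤ)| : ℤ) : ℝ) = Y := by
            rw [abs_of_nonneg (Int.natCast_nonneg Y)]; push_cast; rfl
          rw [this]
          nlinarith)
    have hsum : (G.card : ℝ) + ((S.filter fun z => ¬ cn z < 2 ^ k).card : ℝ) = S.card := by
      exact_mod_cast Finset.card_filter_add_card_filter_not (s := S) (fun z => cn z < 2 ^ k)
    have hP0 : 0 < sz g * sz h := by
      have h1 := one_le_sz hg0
      have h2 : 1 ≤ sz h := h1.trans hsz
      positivity
    have h1 : (cf / Cg) ^ (dg K) * (Y ^ 2 / D) ^ (dg K) ≤ (S.card : ℝ) := by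
      refine le_trans ?_ hSc
      rw [← mul_pow]
      apply pow_le_pow_left₀ (by positivity)
      have h2 : (Y : ℝ) ^ 2 / (Cg * D) ≤ Y ^ 2 / (sz g * sz h) :=
        div_le_div_of_nonneg_left (by positivity) hP0 hprod
      calc cf / Cg * (Y ^ 2 / D) = cf * (Y ^ 2 / (Cg * D)) := by field_simp
        _ ≤ _ := mul_le_mul_of_nonneg_left h2 hcf0.le
    have h3 : ((S.filter fun z => ¬ cn z < 2 ^ k).card : ℝ) ≤
        (cf / Cg) ^ (dg K) / 2 * (Y ^ 2 / D) ^ (dg K) := by
      refine hbad.trans ?_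
      have e2 : Cg * ((R0 * Y) ^ 2 / D) = (Cg * R0 ^ 2) * (Y ^ 2 / D) := by ring
      rw [e2, mul_pow]
      have h4 : 0 ≤ ((Y : ℝ) ^ 2 / D) ^ (dg K) := by positivity
      calc Cb * ((Cg * R0 ^ 2) ^ (dg K) * ((Y : ℝ) ^ 2 / D) ^ (dg K)) * (1 / 2) ^ k =
          (Cb * (Cg * R0 ^ 2) ^ (dg K) * (1 / 2) ^ k) * ((Y : ℝ) ^ 2 / D) ^ (dg K) := by ring
        _ ≤ _ := mul_le_mul_of_nonneg_right hk.le h4
    have h5 : c * (Y ^ 2 / D) ^ (dg K) ≤ (cf / Cg) ^ (dg K) / 2 * (Y ^ 2 / D) ^ (dg K) :=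
      mul_le_mul_of_nonneg_right (min_le_left _ _) (by positivity)
    linarith

end Pool.Agent.X4.KA
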