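import Mathlib
import Pool.Agent.X4.KA.Cnt

/-!
# Heights and radicals
-/

set_option autoImplicit false

namespace Pool.Agent.X4.KA

open NumberField Module Finset IsDedekindDomain

variable {K : Type} [Field K] [NumberField K]

/-- the point of the line `a + b + c = 0` with parameter `x` -/
def pt (x : K) : Fin 3 → K := ![x, 1 - x, -1]

/-- the absolute logarithmic height -/
noncomputable def ht (P : Fin 3 → K) : ℝ := Height.logHeight P / finrank ℚ K

open Classical in
/-- the radical of a point -/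
noncomputable def rad (P : Fin 3 → K) : ℝ :=
  (∑ᶠ v : HeightOneSpectrum (𝓞 K),
    if ¬ (v.valuation K (P 0) = v.valuation K (P 1) ∧ v.valuation K (P 1) = v.valuation K (P 2))
      then Real.log (Ideal.absNorm v.asIdeal) else 0) / finrank ℚ K

open Classical in
/-- the part of the radical which comes from the `i`-th coordinate -/
noncomputable def part (i : Fin 3) (P : Fin 3 → K) : ℝ :=
  (∑ᶠ v : HeightOneSpectrum (𝓞 K),
    if ∃ j, v.valuation K (P i) < v.valuation K (P j)
      then Real.log (Ideal.absNorm v.asIdeal) else 0) / finrank ℚ K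

/-- the three integral coordinates -/
def tri (z : 𝓞 K × 𝓞 K) : Fin 3 → 𝓞 K := ![z.1, z.2 - z.1, -z.2]

theorem span_tri (z : 𝓞 K × 𝓞 K) : Ideal.span (Set.range (tri z)) = Ideal.span {z.1, z.2} := by
  apply le_antisymm
  · rw [Ideal.span_le]
    rintro _ ⟨i, rfl⟩
    have h1 : z.1 ∈ Ideal.span {z.1, z.2} := Ideal.subset_span (by simp)
    have h2 : z.2 ∈ Ideal.span {z.1, z.2} := Ideal.subset_span (by simp)
    fin_cases i
    · exact h1
    · exact sub_mem h2 h1
    · exact neg_mem h2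
  · rw [Ideal.span_le]
    have h0 : z.1 ∈ Ideal.span (Set.range (tri z)) := Ideal.subset_span ⟨0, rfl⟩
    have h2 : -z.2 ∈ Ideal.span (Set.range (tri z)) := Ideal.subset_span ⟨2, rfl⟩
    rintro x (rfl | hx)
    · exact h0
    · rw [Set.mem_singleton_iff] at hx
      rw [hx]
      have := neg_mem h2
      rwa [neg_neg] at this

theorem mulHeight_pt {z : 𝓞 K × 𝓞 K} (hz : z.2 ≠ 0) :
    Height.mulHeight (pt ((z.1 : K) / z.2)) * cn z =
      ∏ v : InfinitePlace K, (⨆ i, v (tri z i : K)) ^ v.mult := by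
  have hzK : (z.2 : K) ≠ 0 := fun h => hz (RingOfIntegers.coe_eq_zero_iff.1 h)
  have h1 : (fun i => ((tri z i : 𝓞 K) : K)) = (z.2 : K) • pt ((z.1 : K) / z.2) := by
    funext i
    fin_cases i
    · simp [tri, pt]; field_simp
    · simp [tri, pt]; field_simp
    · simp [tri, pt]
  have h2 : (fun i => ((tri z i : 𝓞 K) : K)) ≠ 0 := by
    intro h
    have := congrFun h 2
    simp [tri] at this
    exact hz this
  have h3 : tri z ≠ 0 := by
    intro h
    apply h2
    funext i
    rw [h]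
    simp
  rw [← Height.mulHeight_smul_eq_mulHeight _ hzK, ← h1, NumberField.mulHeight_eq h2]
  have h4 := absNorm_mul_finprod_finitePlace_eq_one h3
  rw [span_tri] at h4
  unfold cn
  rw [mul_assoc, mul_comm (∏ᶠ v : FinitePlace K, ⨆ i, v ((tri z i : 𝓞 K) : K)), h4, mul_one]

theorem ht_lower {z : 𝓞 K × 𝓞 K} {A B : ℝ} (hA : 0 < A) (h : ∀ σ : K →+* ℂ, A ≤ ‖σ (z.2 : K)‖)
    (hB1 : 1 ≤ B) (hB : (cn z : ℝ) ≤ B) :
    Real.log A - Real.log B ≤ ht (pt ((z.1 : K) / z.2)) := by
  classical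
  have hd : (0 : ℝ) < finrank ℚ K := by exact_mod_cast finrank_pos
  have hz : z.2 ≠ 0 := by
    intro h0
    obtain ⟨σ⟩ : Nonempty (K →+* ℂ) := inferInstance
    have := h σ
    rw [h0] at this
    simp at this
    linarith
  have hz0 : z ≠ 0 := fun h0 => hz (by rw [h0]; rfl)
  have hc : (0 : ℝ) < cn z := by exact_mod_cast cn_pos hz0
  have hc1 : (1 : ℝ) ≤ cn z := by exact_mod_cast cn_pos hz0
  have h1 := mulHeight_pt hz
  have h2 : A ^ (finrank ℚ K) ≤ ∏ v : InfinitePlace K, (⨆ i, v (tri z i : K)) ^ v.mult := by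
    rw [← InfinitePlace.sum_mult_eq, ← Finset.prod_pow_eq_pow_sum]
    refine Finset.prod_le_prod (fun v _ => by positivity) fun v _ => ?_
    apply pow_le_pow_left₀ hA.le
    have h3 : v (tri z 2 : K) ≤ ⨆ i, v (tri z i : K) :=
      le_ciSup (f := fun i => v (tri z i : K)) (Set.toFinite _).bddAbove 2
    refine le_trans ?_ h3
    have h4 : v (tri z 2 : K) = ‖v.embedding (z.2 : K)‖ := by
      rw [InfinitePlace.norm_embedding_eq]
      have : ((tri z 2 : 𝓞 K) : K) = -(z.2 : K) := by simp [tri]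
      rw [this, InfinitePlace.coe_apply, AbsoluteValue.map_neg]
      rfl
    rw [h4]
    exact h _
  rw [← h1] at h2
  have hpos : 0 < Height.mulHeight (pt ((z.1 : K) / z.2)) := by
    by_contra hcon
    push Not at hcon
    have : Height.mulHeight (pt ((z.1 : K) / z.2)) * cn z ≤ 0 :=
      mul_nonpos_of_nonpos_of_nonneg hcon hc.le
    have := pow_pos hA (finrank ℚ K)
    linarith
  have h5 := Real.log_le_log (pow_pos hA _) h2
  rw [Real.log_pow, Real.log_mul hpos.ne' hc.ne'] at h5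
  unfold ht
  rw [Height.logHeight_eq_log_mulHeight, le_div_iff₀ hd]
  have h6 : Real.log (cn z) ≤ Real.log B := Real.log_le_log hc hB
  have h7 : 0 ≤ Real.log B := Real.log_nonneg hB1
  have h8 : (1 : ℝ) ≤ finrank ℚ K := by exact_mod_cast finrank_pos
  have h9 : Real.log B ≤ Real.log B * finrank ℚ K := le_mul_of_one_le_right h7 h8
  nlinarith

theorem ht_upper {z : 𝓞 K × 𝓞 K} (hz : z.2 ≠ 0) {A : ℝ} (h : ∀ i, house (tri z i : K) ≤ A) :
    ht (pt ((z.1 : K) / z.2)) ≤ Real.log A := by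
  classical
  have hd : (0 : ℝ) < finrank ℚ K := by exact_mod_cast finrank_pos
  have hz0 : z ≠ 0 := fun h0 => hz (by rw [h0]; rfl)
  have hc : (0 : ℝ) < cn z := by exact_mod_cast cn_pos hz0
  have hc1 : (1 : ℝ) ≤ cn z := by exact_mod_cast cn_pos hz0
  have h1 := mulHeight_pt hz
  have hpos : 0 < Height.mulHeight (pt ((z.1 : K) / z.2)) := Height.mulHeight_pos _
  have h2 : ∏ v : InfinitePlace K, (⨆ i, v (tri z i : K)) ^ v.mult ≤ A ^ (finrank ℚ K) := by
    rw [← InfinitePlace.sum_mult_eq, ← Finset.prod_pow_eq_pow_sum]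
    have h0 : ∀ v : InfinitePlace K, 0 ≤ ⨆ i, v (tri z i : K) := fun v =>
      Real.iSup_nonneg fun i => apply_nonneg _ _
    refine Finset.prod_le_prod (fun v _ => pow_nonneg (h0 v) _) fun v _ => ?_
    apply pow_le_pow_left₀ (h0 v)
    apply ciSup_le
    intro i
    rw [← InfinitePlace.norm_embedding_eq]
    exact (norm_embedding_le_house _ _).trans (h i)
  have h3 : Height.mulHeight (pt ((z.1 : K) / z.2)) ≤ A ^ (finrank ℚ K) := by
    refine le_trans ?_ (h1.le.trans h2)
    exact le_mul_of_one_le_right hpos.le hc1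
  have h5 := Real.log_le_log hpos h3
  rw [Real.log_pow] at h5
  unfold ht
  rw [Height.logHeight_eq_log_mulHeight, div_le_iff₀ hd, mul_comm]
  exact h5

/-- the sum of `log N v` over primes containing `w` -/
theorem sum_log_le {w : 𝓞 K} (hw : w ≠ 0) (F : Finset (HeightOneSpectrum (𝓞 K)))
    (hF : ∀ v ∈ F, w ∈ v.asIdeal) :
    ∑ v ∈ F, Real.log (Ideal.absNorm v.asIdeal) ≤ Real.log ((Algebra.norm ℤ w).natAbs : ℝ) := by
  classical
  have h1 : ∏ I ∈ F.image (fun v => v.asIdeal), I ∣ Ideal.span {w} := by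
    apply Finset.prod_primes_dvd
    · intro I hI
      rw [Finset.mem_image] at hI
      obtain ⟨v, -, rfl⟩ := hI
      exact v.prime
    · intro I hI
      rw [Finset.mem_image] at hI
      obtain ⟨v, hv, rfl⟩ := hI
      rw [Ideal.dvd_span_singleton]
      exact hF v hv
  rw [Finset.prod_image (fun v _ v' _ h => HeightOneSpectrum.ext h)] at h1
  have h2 := map_dvd Ideal.absNorm h1
  rw [map_prod, Ideal.absNorm_span_singleton] at h2
  have h3 : 0 < (Algebra.norm ℤ w).natAbs := by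
    rw [Nat.pos_iff_ne_zero, Ne, Int.natAbs_eq_zero, Algebra.norm_eq_zero_iff]
    exact hw
  have h4 := Nat.le_of_dvd h3 h2
  have hpos : ∀ v ∈ F, (Ideal.absNorm v.asIdeal : ℝ) ≠ 0 := by
    intro v _
    have : Ideal.absNorm v.asIdeal ≠ 0 := fun h => v.ne_bot (Ideal.absNorm_eq_zero_iff.1 h)
    exact_mod_cast this
  rw [← Real.log_prod hpos]
  apply Real.log_le_log
  · exact Finset.prod_pos fun v hv => lt_of_le_of_ne (Nat.cast_nonneg _) (hpos v hv).symm
  · exact_mod_cast h4

theorem finite_primes {w : 𝓞 K} (hw : w ≠ 0) :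
    {v : HeightOneSpectrum (𝓞 K) | w ∈ v.asIdeal}.Finite := by
  have h := Ideal.finite_factors (I := Ideal.span {w}) (by
    rw [Ne, Ideal.zero_eq_bot, Ideal.span_singleton_eq_bot]; exact hw)
  refine h.subset ?_
  intro v hv
  exact Ideal.dvd_span_singleton.2 hv

/-- the radical part in terms of a power dividing the coordinate -/
theorem sum_log_pow {w : 𝓞 K} (hw : w ≠ 0) {p e : ℕ} (hp : p.Prime)
    (hpe : (p : 𝓞 K) ^ e ∣ w) (F : Finset (HeightOneSpectrum (𝓞 K)))
    (hF : ∀ v ∈ F, w ∈ v.asIdeal) :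
    ∑ v ∈ F, Real.log (Ideal.absNorm v.asIdeal) ≤
      (dg K : ℝ) * (Real.log p + Real.log (house (w : K)) - e * Real.log p) := by
  classical
  obtain ⟨y, hy⟩ := hpe
  have hy0 : y ≠ 0 := by rintro rfl; apply hw; rw [hy, mul_zero]
  have hp0 : (p : 𝓞 K) ≠ 0 := by exact_mod_cast hp.ne_zero
  have hpR : (0 : ℝ) < p := by exact_mod_cast hp.pos
  have hnn : ∀ v : HeightOneSpectrum (𝓞 K), 0 ≤ Real.log (Ideal.absNorm v.asIdeal : ℝ) :=
    fun v => Real.log_natCast_nonneg _
  have h1 := sum_log_le hp0 (F.filter fun v => (p : 𝓞 K) ∈ v.asIdeal)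
    (fun v hv => (Finset.mem_filter.1 hv).2)
  have h2 := sum_log_le hy0 (F.filter fun v => ¬ (p : 𝓞 K) ∈ v.asIdeal) (fun v hv => by
    rw [Finset.mem_filter] at hv
    have h3 := hF v hv.1
    rw [hy] at h3
    rcases v.isPrime.mem_or_mem h3 with h4 | h4
    · exact absurd (v.isPrime.mem_of_pow_mem _ h4) hv.2
    · exact h4)
  have h3 := Finset.sum_filter_add_sum_filter_not F (fun v => (p : 𝓞 K) ∈ v.asIdeal)
    (fun v => Real.log (Ideal.absNorm v.asIdeal : ℝ))
  have hn : ∀ n : ℕ, ((Algebra.norm ℤ (n : 𝓞 K)).natAbs : ℝ) = (n : ℝ) ^ (dg K) := by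
    intro n
    have := Algebra.norm_algebraMap (S := 𝓞 K) (n : ℤ)
    rw [eq_intCast, Int.cast_natCast, RingOfIntegers.rank] at this
    rw [this, Int.natAbs_pow, Int.natAbs_natCast]
    push_cast
    rfl
  have h4 : ((Algebra.norm ℤ w).natAbs : ℝ) =
      ((p : ℝ) ^ (dg K)) ^ e * ((Algebra.norm ℤ y).natAbs : ℝ) := by
    rw [hy, map_mul, map_pow, Int.natAbs_mul, Int.natAbs_pow]
    push_cast
    rw [hn p]
  have hyn : (0 : ℝ) < ((Algebra.norm ℤ y).natAbs : ℝ) := by
    have : 0 < (Algebra.norm ℤ y).natAbs := by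
      rw [Nat.pos_iff_ne_zero, Ne, Int.natAbs_eq_zero, Algebra.norm_eq_zero_iff]
      exact hy0
    exact_mod_cast this
  have hwn : (0 : ℝ) < ((Algebra.norm ℤ w).natAbs : ℝ) := by rw [h4]; positivity
  have h5 : Real.log ((Algebra.norm ℤ w).natAbs : ℝ) =
      e * ((dg K : ℝ) * Real.log p) + Real.log ((Algebra.norm ℤ y).natAbs : ℝ) := by
    rw [h4, Real.log_mul (by positivity) hyn.ne', Real.log_pow, Real.log_pow]
  have h6 : Real.log ((Algebra.norm ℤ w).natAbs : ℝ) ≤ (dg K : ℝ) * Real.log (house (w : K)) := by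
    rw [← Real.log_pow]
    exact Real.log_le_log hwn (norm_int_le w)
  rw [hn p, Real.log_pow] at h1
  rw [← h3]
  nlinarith

end Pool.Agent.X4.KA
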