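import Mathlib
import Pool.Agent.X4.KA.Ht

/-!
# The parts of the radical
-/

set_option autoImplicit false

namespace Pool.Agent.X4.KA

open NumberField Module Finset IsDedekindDomain

variable {K : Type} [Field K] [NumberField K]

theorem val_sub_le (v : HeightOneSpectrum (𝓞 K)) (x : K) :
    v.valuation K (1 - x) ≤ max 1 (v.valuation K x) := by
  have := (v.valuation K).map_sub 1 x
  rwa [map_one] at this

/-- the three possible configurations -/
theorem val_cases (v : HeightOneSpectrum (𝓞 K)) (x : K) :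
    (v.valuation K x < 1 ∧ v.valuation K (1 - x) = 1) ∨
    (v.valuation K x = 1 ∧ v.valuation K (1 - x) ≤ 1) ∨
    (1 < v.valuation K x ∧ v.valuation K (1 - x) = v.valuation K x) := by
  rcases lt_trichotomy (v.valuation K x) 1 with h | h | h
  · left
    refine ⟨h, ?_⟩
    have := (v.valuation K).map_sub_eq_of_lt_left (x := 1) (y := x) (by rwa [map_one])
    rw [map_one] at this
    exact this
  · right; left
    refine ⟨h, ?_⟩
    have := val_sub_le v x
    rwa [h, max_self] at this
  · right; right
    refine ⟨h, ?_⟩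
    exact (v.valuation K).map_sub_eq_of_lt_right (x := 1) (y := x) (by rwa [map_one])

theorem pt0 (x : K) : pt x 0 = x := rfl
theorem pt1 (x : K) : pt x 1 = 1 - x := rfl
theorem pt2 (x : K) : pt x 2 = -1 := rfl

theorem val_neg_one (v : HeightOneSpectrum (𝓞 K)) : v.valuation K (-1) = 1 := by
  rw [Valuation.map_neg, map_one]

theorem part0_iff (v : HeightOneSpectrum (𝓞 K)) (x : K) :
    (∃ j, v.valuation K (pt x 0) < v.valuation K (pt x j)) ↔ v.valuation K x < 1 := by
  constructor
  · rintro ⟨j, hj⟩
    fin_cases j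
    · exact absurd hj (lt_irrefl _)
    · change v.valuation K x < v.valuation K (1 - x) at hj
      rcases val_cases v x with h | h | h
      · exact h.1
      · rw [h.1] at hj; exact absurd (hj.trans_le h.2) (lt_irrefl _)
      · rw [h.2] at hj; exact absurd hj (lt_irrefl _)
    · change v.valuation K x < v.valuation K (-1) at hj
      rwa [val_neg_one] at hj
  · intro h
    refine ⟨2, ?_⟩
    rw [pt0, pt2, val_neg_one]
    exact h

theorem part1_iff (v : HeightOneSpectrum (𝓞 K)) (x : K) :
    (∃ j, v.valuation K (pt x 1) < v.valuation K (pt x j)) ↔ v.valuation K (1 - x) < 1 := by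
  constructor
  · rintro ⟨j, hj⟩
    fin_cases j
    · change v.valuation K (1 - x) < v.valuation K x at hj
      rcases val_cases v x with h | h | h
      · rw [h.2] at hj; exact absurd (hj.trans h.1) (lt_irrefl _)
      · rwa [h.1] at hj
      · rw [h.2] at hj; exact absurd hj (lt_irrefl _)
    · exact absurd hj (lt_irrefl _)
    · change v.valuation K (1 - x) < v.valuation K (-1) at hj
      rwa [val_neg_one] at hj
  · intro h
    refine ⟨2, ?_⟩
    rw [pt1, pt2, val_neg_one]
    exact h

theorem part2_iff (v : HeightOneSpectrum (𝓞 K)) (x : K) :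
    (∃ j, v.valuation K (pt x 2) < v.valuation K (pt x j)) ↔ 1 < v.valuation K x := by
  constructor
  · rintro ⟨j, hj⟩
    fin_cases j
    · change v.valuation K (-1) < v.valuation K x at hj
      rwa [val_neg_one] at hj
    · change v.valuation K (-1) < v.valuation K (1 - x) at hj
      rw [val_neg_one] at hj
      rcases val_cases v x with h | h | h
      · rw [h.2] at hj; exact absurd hj (lt_irrefl _)
      · exact absurd (hj.trans_le h.2) (lt_irrefl _)
      · exact h.1
    · exact absurd hj (lt_irrefl _)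
  · intro h
    refine ⟨0, ?_⟩
    rw [pt0, pt2, val_neg_one]
    exact h

/-- the primes of the `i`-th part divide the `i`-th form -/
theorem mem_of_part {z : 𝓞 K × 𝓞 K} (hz : z.2 ≠ 0) (v : HeightOneSpectrum (𝓞 K)) (i : Fin 3)
    (h : ∃ j, v.valuation K (pt ((z.1 : K) / z.2) i) < v.valuation K (pt ((z.1 : K) / z.2) j)) :
    form i z ∈ v.asIdeal := by
  have hzK : (z.2 : K) ≠ 0 := fun h => hz (RingOfIntegers.coe_eq_zero_iff.1 h)
  have hle : ∀ w : 𝓞 K, v.valuation K (w : K) ≤ 1 := fun w => v.valuation_le_one w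
  have hmem : ∀ w : 𝓞 K, v.valuation K (w : K) < 1 → w ∈ v.asIdeal := fun w hw =>
    (v.valuation_lt_one_iff_mem w).1 hw
  fin_cases i
  · rw [Fin.zero_eta, part0_iff] at h
    apply hmem
    have e1 : ((form 0 z : 𝓞 K) : K) = (z.1 : K) / z.2 * z.2 := by
      rw [div_mul_cancel₀ _ hzK]; rfl
    change v.valuation K ((form 0 z : 𝓞 K) : K) < 1
    rw [e1, map_mul]
    exact (mul_le_of_le_one_right' (hle z.2)).trans_lt h
  · rw [Fin.mk_one, part1_iff] at h
    apply hmem
    have e1 : ((form 1 z : 𝓞 K) : K) = (1 - (z.1 : K) / z.2) * z.2 := by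
      have : ((form 1 z : 𝓞 K) : K) = (z.2 : K) - z.1 := by simp [form]
      rw [this]
      field_simp
    change v.valuation K ((form 1 z : 𝓞 K) : K) < 1
    rw [e1, map_mul]
    exact (mul_le_of_le_one_right' (hle z.2)).trans_lt h
  · change ∃ j, v.valuation K (pt ((z.1 : K) / z.2) 2) < v.valuation K (pt ((z.1 : K) / z.2) j)
      at h
    rw [part2_iff] at h
    change z.2 ∈ v.asIdeal
    apply hmem
    refine lt_of_le_of_ne (hle z.2) fun h1 => ?_
    have e1 : (z.1 : K) = (z.1 : K) / z.2 * z.2 := (div_mul_cancel₀ _ hzK).symm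
    have h2 := hle z.1
    rw [e1, map_mul, h1, mul_one] at h2
    exact absurd (h.trans_le h2) (lt_irrefl _)

theorem part_finite {z : 𝓞 K × 𝓞 K} (hz : z.2 ≠ 0) (i : Fin 3) (hi : form i z ≠ 0) :
    {v : HeightOneSpectrum (𝓞 K) | ∃ j, v.valuation K (pt ((z.1 : K) / z.2) i) <
      v.valuation K (pt ((z.1 : K) / z.2) j)}.Finite :=
  (finite_primes hi).subset fun v hv => mem_of_part hz v i hv

theorem part_le {z : 𝓞 K × 𝓞 K} (hz : z.2 ≠ 0) (i : Fin 3) (hi : form i z ≠ 0) {p e : ℕ}
    (hp : p.Prime) (hpe : (p : 𝓞 K) ^ e ∣ form i z) :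
    part i (pt ((z.1 : K) / z.2)) ≤
      Real.log p + Real.log (house ((form i z : 𝓞 K) : K)) - e * Real.log p := by
  classical
  have hd : (0 : ℝ) < finrank ℚ K := by exact_mod_cast finrank_pos
  have hfin := part_finite hz i hi
  unfold part
  rw [div_le_iff₀ hd]
  rw [finsum_eq_sum_of_support_subset (s := hfin.toFinset)]
  · have h1 : ∀ v ∈ hfin.toFinset, (if ∃ j, v.valuation K (pt ((z.1 : K) / z.2) i) <
        v.valuation K (pt ((z.1 : K) / z.2) j) then Real.log (Ideal.absNorm v.asIdeal) else 0) =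
        Real.log (Ideal.absNorm v.asIdeal) := by
      intro v hv
      rw [Set.Finite.mem_toFinset] at hv
      exact if_pos hv
    rw [Finset.sum_congr rfl h1, mul_comm]
    apply sum_log_pow hi hp hpe
    intro v hv
    rw [Set.Finite.mem_toFinset] at hv
    exact mem_of_part hz v i hv
  · intro v hv
    rw [Set.Finite.coe_toFinset]
    by_contra h
    apply hv
    exact if_neg h

/-- the radical is the sum of its parts -/
theorem rad_eq {x : K} (hx0 : x ≠ 0) (hx1 : x ≠ 1) :
    rad (pt x) = part 0 (pt x) + part 1 (pt x) + part 2 (pt x) := by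
  classical
  obtain ⟨a, b, hb, rfl⟩ : ∃ a b : 𝓞 K, b ≠ 0 ∧ x = (a : K) / b := by
    obtain ⟨a, b, hb, h⟩ := IsFractionRing.div_surjective (A := 𝓞 K) x
    exact ⟨a, b, nonZeroDivisors.ne_zero hb, h.symm⟩
  have hbK : (b : K) ≠ 0 := fun h => hb (RingOfIntegers.coe_eq_zero_iff.1 h)
  have hf : ∀ i : Fin 3, form i ((a, b) : 𝓞 K × 𝓞 K) ≠ 0 := by
    intro i
    fin_cases i
    · intro h
      apply hx0
      have : a = 0 := h
      rw [this]
      simp
    · intro h
      apply hx1
      have h1 : b - a = 0 := h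
      rw [sub_eq_zero.1 h1]
      exact div_self (by rw [sub_eq_zero.1 h1] at hbK; exact hbK)
    · exact hb
  have hfin := fun i => part_finite (z := (a, b)) hb i (hf i)
  have hsupp : ∀ i : Fin 3, (Function.support fun v : HeightOneSpectrum (𝓞 K) =>
      if ∃ j, v.valuation K (pt ((a : K) / b) i) < v.valuation K (pt ((a : K) / b) j)
        then Real.log (Ideal.absNorm v.asIdeal) else 0).Finite := by
    intro i
    refine (hfin i).subset ?_
    intro v hv
    by_contra h
    apply hv
    exact if_neg h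
  unfold rad part
  rw [← add_div, ← add_div, ← finsum_add_distrib (hsupp 0) (hsupp 1),
    ← finsum_add_distrib ((hsupp 0).union (hsupp 1) |>.subset (Function.support_add _ _)) (hsupp 2)]
  congr 1
  apply finsum_congr
  intro v
  have hn : v.valuation K (pt ((a : K) / b) 2) = 1 := val_neg_one v
  rcases val_cases v ((a : K) / b) with h | h | h
  · have h1 : ¬ (v.valuation K (pt ((a : K) / b) 0) = v.valuation K (pt ((a : K) / b) 1) ∧
        v.valuation K (pt ((a : K) / b) 1) = v.valuation K (pt ((a : K) / b) 2)) := fun h2 => by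
      rw [hn, pt0, pt1] at h2
      rw [h2.1, h.2] at h
      exact lt_irrefl _ h.1
    rw [if_pos h1, if_pos ((part0_iff v _).2 h.1),
      if_neg (mt (part1_iff v _).1 (by rw [h.2]; exact lt_irrefl _)),
      if_neg (mt (part2_iff v _).1 (not_lt.2 h.1.le)), add_zero, add_zero]
  · rcases eq_or_lt_of_le h.2 with h2 | h2
    · have h1 : ¬ ¬ (v.valuation K (pt ((a : K) / b) 0) = v.valuation K (pt ((a : K) / b) 1) ∧
          v.valuation K (pt ((a : K) / b) 1) = v.valuation K (pt ((a : K) / b) 2)) := by
        rw [not_not, hn, pt0, pt1, h.1, h2]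
        exact ⟨rfl, rfl⟩
      rw [if_neg h1, if_neg (mt (part0_iff v _).1 (by rw [h.1]; exact lt_irrefl _)),
        if_neg (mt (part1_iff v _).1 (by rw [h2]; exact lt_irrefl _)),
        if_neg (mt (part2_iff v _).1 (by rw [h.1]; exact lt_irrefl _)), add_zero, add_zero]
    · have h1 : ¬ (v.valuation K (pt ((a : K) / b) 0) = v.valuation K (pt ((a : K) / b) 1) ∧
          v.valuation K (pt ((a : K) / b) 1) = v.valuation K (pt ((a : K) / b) 2)) := fun h3 => by
        rw [hn, pt0, pt1] at h3
        exact h2.ne h3.2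
      rw [if_pos h1, if_neg (mt (part0_iff v _).1 (by rw [h.1]; exact lt_irrefl _)),
        if_pos ((part1_iff v _).2 h2),
        if_neg (mt (part2_iff v _).1 (by rw [h.1]; exact lt_irrefl _)), add_zero, zero_add]
  · have h1 : ¬ (v.valuation K (pt ((a : K) / b) 0) = v.valuation K (pt ((a : K) / b) 1) ∧
        v.valuation K (pt ((a : K) / b) 1) = v.valuation K (pt ((a : K) / b) 2)) := fun h3 => by
      rw [hn, pt0, pt1] at h3
      exact h.1.ne' (h.2.symm.trans h3.2)
    rw [if_pos h1, if_neg (mt (part0_iff v _).1 (not_lt.2 h.1.le)),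
      if_neg (mt (part1_iff v _).1 (by rw [h.2]; exact not_lt.2 h.1.le)),
      if_pos ((part2_iff v _).2 h.1), zero_add, zero_add]

end Pool.Agent.X4.KA
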