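import Mathlib
import Pool.Agent.X4.KA.Mult
import Pool.Agent.X4.KA.Rad

/-!
# Many points with small parts of the radical
-/

set_option autoImplicit false

namespace Pool.Agent.X4.KA

open NumberField Module Finset Filter Topology

variable {K : Type} [Field K] [NumberField K]

theorem exists_exp {p : ℕ} (hp : p.Prime) {A : ℝ} (hA : 1 ≤ A) :
    ∃ e : ℕ, 1 ≤ e ∧ A ≤ (p : ℝ) ^ e ∧ (p : ℝ) ^ e ≤ p * A := by
  obtain ⟨n, h1, h2⟩ := exists_nat_pow_near hA (show (1 : ℝ) < p by exact_mod_cast hp.one_lt)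
  refine ⟨n + 1, by omega, h2.le, ?_⟩
  rw [pow_succ, mul_comm]
  exact mul_le_mul_of_nonneg_left h1 (Nat.cast_nonneg _)

theorem exists_three (m : ℕ) (hm : 0 < m) : ∃ p : Fin 3 → ℕ, (∀ j, (p j).Prime) ∧
    Function.Injective p ∧ ∀ j, ¬ p j ∣ m := by
  obtain ⟨a, ha, hap⟩ := Nat.exists_infinite_primes (m + 1)
  obtain ⟨b, hb, hbp⟩ := Nat.exists_infinite_primes (a + 1)
  obtain ⟨c, hc, hcp⟩ := Nat.exists_infinite_primes (b + 1)
  refine ⟨![a, b, c], ?_, ?_, ?_⟩
  · intro j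
    fin_cases j
    · exact hap
    · exact hbp
    · exact hcp
  · intro i j hij
    fin_cases i <;> fin_cases j <;> simp at hij ⊢ <;> omega
  · intro j hj
    have := Nat.le_of_dvd hm hj
    fin_cases j
    · change a ≤ m at this; omega
    · change b ≤ m at this; omega
    · change c ≤ m at this; omega

theorem house_zero_lt {x : K} (hx : x ≠ 0) (σ : K →+* ℂ) : 0 < ‖σ x‖ :=
  norm_pos_iff.2 ((map_ne_zero σ).2 hx)

theorem core (K : Type) [Field K] [NumberField K] (α : Fin 3 → ℝ) (hα0 : ∀ i, 0 < α i)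
    (hα1 : ∀ i, α i ≤ 1) (hs : 1 < ∑ i, α i) (τ0 : K) (hτ0 : τ0 ≠ 0) (hτ1 : τ0 ≠ 1) (r : 𝓞 K)
    (m : ℕ) (hm : 0 < m) (ε : ℝ) (hε : 0 < ε) (T : ℝ) :
    ∃ c X0 : ℝ, 0 < c ∧ ∀ X : ℝ, X0 ≤ X → ∃ F : Finset K,
      (∀ x ∈ F, x ≠ 0 ∧ x ≠ 1 ∧ ht (pt x) ≤ Real.log X ∧
        (∀ i, part i (pt x) ≤ α i * ht (pt x) - T) ∧ (∀ σ : K →+* ℂ, ‖σ x - σ τ0‖ < ε) ∧
        ∃ a b : 𝓞 K, b ≠ 0 ∧ x = (a : K) / b ∧ (m : 𝓞 K) ∣ a - r ∧ (m : 𝓞 K) ∣ b - 1) ∧
      c * X ^ ((finrank ℚ K : ℝ) * (∑ i, α i - 1)) ≤ (F.card : ℝ) := by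
  classical
  have hd : 0 < dg K := finrank_pos
  obtain ⟨σ0⟩ : Nonempty (K →+* ℂ) := inferInstance
  have hM0 := house_nonneg τ0
  set M0 := house τ0 with hM0d
  -- the precision
  set η : ℝ := min (1 / 2) (min (‖σ0 τ0‖ / 2) (min (‖σ0 (1 - τ0)‖ / 4) (ε / (4 * (1 + M0)))))
    with hη
  have hση : 0 < ‖σ0 τ0‖ := house_zero_lt hτ0 σ0
  have hση1 : 0 < ‖σ0 (1 - τ0)‖ := house_zero_lt (sub_ne_zero.2 (Ne.symm hτ1)) σ0
  have hη0 : 0 < η := lt_min (by norm_num) (lt_min (by positivity)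
    (lt_min (by positivity) (by positivity)))
  have hη1 : η ≤ 1 / 2 := min_le_left _ _
  have hη2 : η ≤ ‖σ0 τ0‖ / 2 := (min_le_right _ _).trans (min_le_left _ _)
  have hη3 : η ≤ ‖σ0 (1 - τ0)‖ / 4 :=
    (min_le_right _ _).trans ((min_le_right _ _).trans (min_le_left _ _))
  have hη4 : η ≤ ε / (4 * (1 + M0)) :=
    (min_le_right _ _).trans ((min_le_right _ _).trans (min_le_right _ _))
  obtain ⟨p, hp, hpi, hpm⟩ := exists_three m hm
  set w : Fin 3 → ℝ := fun j => 1 - α j with hw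
  have hws : ∑ j, w j = 3 - ∑ i, α i := by
    simp only [hw, Finset.sum_sub_distrib, Finset.sum_const, Finset.card_univ, Fintype.card_fin,
      nsmul_eq_mul, mul_one]
    norm_num
  obtain ⟨θ, hθ, hmin⟩ := min_bound K w (fun j => by simp only [hw]; linarith [hα1 j])
    (fun j => by simp only [hw]; linarith [hα0 j]) (by rw [hws]; linarith)
  obtain ⟨c1, k, hc1, hpts⟩ := points K η hη0 p hp hpi m hm hpm r τ0
  obtain ⟨Cm, hCm1, hmult⟩ := mult K
  set B : ℝ := 2 ^ k with hB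
  have hB1 : 1 ≤ B := one_le_pow₀ (by norm_num)
  set R0 : ℝ := 2 + M0 with hR0
  have hR01 : 1 ≤ R0 := by rw [hR0]; linarith
  set P : ℝ := ∏ j, (p j : ℝ) with hP
  have hp1 : ∀ j, (1 : ℝ) ≤ p j := fun j => by exact_mod_cast (hp j).one_lt.le
  have hpP : ∀ j, (p j : ℝ) ≤ P := by
    intro j
    have h1 : ∏ i ∈ (Finset.univ.erase j), (1 : ℝ) ≤ ∏ i ∈ (Finset.univ.erase j), (p i : ℝ) :=
      Finset.prod_le_prod (fun _ _ => zero_le_one) fun i _ => hp1 i
    rw [Finset.prod_const_one] at h1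
    rw [hP, ← Finset.mul_prod_erase _ _ (Finset.mem_univ j)]
    exact le_mul_of_one_le_right (by linarith [hp1 j]) h1
  have hP1 : 1 ≤ P := (hp1 0).trans (hpP 0)
  set E : ℝ := P * (8 * R0) * B * Real.exp |T| with hE
  have hexp1 : 1 ≤ Real.exp |T| := Real.one_le_exp (abs_nonneg T)
  have hE1 : 1 ≤ E := by
    rw [hE]
    have h1 : 1 ≤ P * (8 * R0) := one_le_mul_of_one_le_of_one_le hP1 (by linarith)
    exact one_le_mul_of_one_le_of_one_le (one_le_mul_of_one_le_of_one_le h1 hB1) hexp1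
  obtain ⟨X1, hX1, hminX⟩ := hmin p hp hpi (E * P) (one_le_mul_of_one_le_of_one_le hE1 hP1)
  -- the final constant
  set c2 : ℝ := (1 / (16 * R0 ^ 2 * (E ^ 3 * P))) ^ (dg K) with hc2
  set Mu : ℝ := (Cm * (4 * B + 1)) ^ (dg K) with hMu
  have hMu0 : 0 < Mu := by positivity
  have hc20 : 0 < c2 := by positivity
  -- large X
  have hev : ∀ᶠ X : ℝ in atTop, X1 ≤ X ∧ 4 * R0 ≤ X ∧
      E ^ 3 * P * (4 * R0) / c1 ≤ X ^ θ := by
    have h1 : ∀ᶠ X : ℝ in atTop, E ^ 3 * P * (4 * R0) / c1 ≤ X ^ θ :=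
      (tendsto_rpow_atTop hθ).eventually_ge_atTop _
    filter_upwards [eventually_ge_atTop X1, eventually_ge_atTop (4 * R0), h1] with X a b c
    exact ⟨a, b, c⟩
  obtain ⟨X0, hX0⟩ := eventually_atTop.1 hev
  refine ⟨c1 * c2 / Mu, X0, by positivity, fun X hX => ?_⟩
  obtain ⟨hXa, hXb, hXc⟩ := hX0 X hX
  have hXp : 0 < X := by linarith
  have hX1' : 1 ≤ X := by linarith
  have hlX : 0 ≤ Real.log X := Real.log_nonneg hX1'
  -- the exponents
  have hex : ∀ j, ∃ e : ℕ, 1 ≤ e ∧ E * X ^ (w j) ≤ (p j : ℝ) ^ e ∧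
      (p j : ℝ) ^ e ≤ p j * (E * X ^ (w j)) := by
    intro j
    apply exists_exp (hp j)
    apply one_le_mul_of_one_le_of_one_le hE1
    apply Real.one_le_rpow hX1'
    simp only [hw]
    linarith [hα1 j]
  choose e he1 he2 he3 using hex
  have hXw : ∀ j, 0 < X ^ (w j) := fun j => Real.rpow_pos_of_pos hXp _
  set Y : ℕ := ⌊X / (2 * R0)⌋₊ with hY
  have hYle : (Y : ℝ) ≤ X / (2 * R0) := Nat.floor_le (by positivity)
  have hYge : X / (4 * R0) ≤ Y := by
    have h1 : X / (2 * R0) < Y + 1 := Nat.lt_floor_add_one _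
    have h2 : 1 ≤ X / (4 * R0) := by rw [le_div_iff₀ (by positivity)]; linarith
    have h3 : X / (2 * R0) = X / (4 * R0) + X / (4 * R0) := by field_simp; norm_num
    linarith
  have hY0 : (0 : ℝ) < Y := lt_of_lt_of_le (by positivity) hYge
  set D : ℝ := ∏ j, (p j : ℝ) ^ (e j) with hD
  have hD0 : 0 < D := Finset.prod_pos fun j _ => pow_pos (by linarith [hp1 j]) _
  have hDle : D ≤ E ^ 3 * P * X ^ (∑ j, w j) := by
    calc D ≤ ∏ j, ((p j : ℝ) * (E * X ^ (w j))) :=
          Finset.prod_le_prod (fun j _ => pow_nonneg (by linarith [hp1 j]) _) fun j _ => he3 j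
      _ = E ^ 3 * P * ∏ j, X ^ (w j) := by
          rw [Finset.prod_mul_distrib, Finset.prod_mul_distrib, Finset.prod_const,
            Finset.card_univ, Fintype.card_fin, hP]
          ring
      _ = _ := by rw [Real.rpow_sum_of_pos hXp]
  set s : ℝ := X ^ (∑ j, w j - 1 + θ) with hsd
  have hs0 : 0 < s := Real.rpow_pos_of_pos hXp _
  have hDs : D ≤ c1 * s * Y := by
    refine hDle.trans ?_
    have h1 : X ^ (∑ j, w j) * X ^ θ = s * X := by
      rw [hsd, ← Real.rpow_add hXp]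
      nth_rewrite 3 [← Real.rpow_one X]
      rw [← Real.rpow_add hXp]
      congr 1
      ring
    have h2 : E ^ 3 * P * (4 * R0) ≤ c1 * X ^ θ := by
      rw [div_le_iff₀ hc1] at hXc
      linarith
    have h3 : E ^ 3 * P * X ^ (∑ j, w j) * (4 * R0) ≤ c1 * s * X := by
      calc E ^ 3 * P * X ^ (∑ j, w j) * (4 * R0) = (E ^ 3 * P * (4 * R0)) * X ^ (∑ j, w j) := by
            ring
        _ ≤ (c1 * X ^ θ) * X ^ (∑ j, w j) :=
            mul_le_mul_of_nonneg_right h2 (Real.rpow_pos_of_pos hXp _).le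
        _ = c1 * (X ^ (∑ j, w j) * X ^ θ) := by ring
        _ = _ := by rw [h1]; ring
    calc E ^ 3 * P * X ^ (∑ j, w j) ≤ c1 * s * X / (4 * R0) := by
          rw [le_div_iff₀ (by positivity)]; exact h3
      _ = c1 * s * (X / (4 * R0)) := by ring
      _ ≤ _ := mul_le_mul_of_nonneg_left hYge (by positivity)
  obtain ⟨S, hS, hSc⟩ := hpts e he1 s hs0 (fun z hz hzL => hminX X hXa e (fun j => by
      refine le_trans ?_ (he2 j)
      exact le_mul_of_one_le_left (hXw j).le hE1) (fun j => by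
      refine (he3 j).trans ?_
      calc (p j : ℝ) * (E * X ^ (w j)) ≤ P * (E * X ^ (w j)) :=
            mul_le_mul_of_nonneg_right (hpP j) (by have := hXw j; positivity)
        _ = _ := by ring) z hz hzL) Y hDs
  -- estimates for the members
  have hηY : η * Y ≤ 1 / 2 * Y := mul_le_mul_of_nonneg_right hη1 hY0.le
  have hMY : 0 ≤ M0 * Y := mul_nonneg hM0 hY0.le
  have hz2 : ∀ z ∈ S, ∀ σ : K →+* ℂ, (Y : ℝ) / 2 ≤ ‖σ (z.2 : K)‖ := by
    intro z hz σ
    obtain ⟨-, -, -, -, k5, -⟩ := hS z hz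
    have h1 := (norm_embedding_le_house ((z.2 : K) - Y) σ).trans k5
    rw [map_sub, map_natCast] at h1
    have h2 : ‖((Y : ℕ) : ℂ)‖ ≤ ‖σ (z.2 : K)‖ + ‖σ (z.2 : K) - (Y : ℂ)‖ := by
      have : ((Y : ℕ) : ℂ) = σ (z.2 : K) - (σ (z.2 : K) - (Y : ℂ)) := by ring
      calc ‖((Y : ℕ) : ℂ)‖ = ‖σ (z.2 : K) - (σ (z.2 : K) - (Y : ℂ))‖ := by rw [← this]
        _ ≤ _ := norm_sub_le _ _
    rw [Complex.norm_natCast] at h2
    linarith
  have hz2h : ∀ z ∈ S, house (z.2 : K) ≤ 3 / 2 * Y := by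
    intro z hz
    obtain ⟨-, -, -, -, k5, -⟩ := hS z hz
    have e1 : (z.2 : K) = ((z.2 : K) - Y) + ((Y : ℤ) : K) := by push_cast; ring
    rw [e1]
    refine (house_add_le _ _).trans ?_
    rw [house_intCast]
    have : ((|(Y : ℤ)| : ℤ) : ℝ) = Y := by
      rw [abs_of_nonneg (Int.natCast_nonneg Y)]; push_cast; rfl
    rw [this]
    linarith
  have hz1h : ∀ z ∈ S, house (z.1 : K) ≤ (1 / 2 + M0) * Y := by
    intro z hz
    obtain ⟨-, -, -, k4, -, -⟩ := hS z hz
    have e1 : (z.1 : K) = ((z.1 : K) - τ0 * Y) + (Y : K) * τ0 := by ring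
    rw [e1]
    refine (house_add_le _ _).trans ?_
    rw [house_nat_mul]
    have e2 : (Y : ℝ) * house τ0 = M0 * Y := by rw [hM0d, mul_comm]
    rw [e2]
    linarith
  have hz20 : ∀ z ∈ S, z.2 ≠ 0 := by
    intro z hz h0
    have := hz2 z hz σ0
    rw [h0] at this
    simp at this
    linarith
  have hz10 : ∀ z ∈ S, z.1 ≠ 0 := by
    intro z hz h0
    obtain ⟨-, -, -, k4, -, -⟩ := hS z hz
    have h1 := (norm_embedding_le_house ((z.1 : K) - τ0 * Y) σ0).trans k4
    rw [h0] at h1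
    have h2 : (((0 : 𝓞 K) : K) - τ0 * Y) = -(τ0 * Y) := by simp
    rw [h2, map_neg, norm_neg, map_mul, norm_mul, map_natCast, Complex.norm_natCast] at h1
    have h3 := le_of_mul_le_mul_right h1 hY0
    linarith
  have hz21 : ∀ z ∈ S, z.2 - z.1 ≠ 0 := by
    intro z hz h0
    obtain ⟨-, -, -, k4, k5, -⟩ := hS z hz
    have h1 := (norm_embedding_le_house ((z.1 : K) - τ0 * Y) σ0).trans k4
    have h2 := (norm_embedding_le_house ((z.2 : K) - Y) σ0).trans k5
    have h3 : (z.2 : K) = z.1 := by rw [sub_eq_zero.1 h0]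
    have h4 : (1 - τ0) * (Y : K) = ((z.1 : K) - τ0 * Y) - ((z.2 : K) - Y) := by rw [h3]; ring
    have h5 : ‖σ0 ((1 - τ0) * (Y : K))‖ = ‖σ0 (((z.1 : K) - τ0 * Y) - ((z.2 : K) - Y))‖ := by
      rw [h4]
    rw [map_mul, norm_mul, map_natCast, Complex.norm_natCast,
      map_sub σ0 ((z.1 : K) - τ0 * Y) ((z.2 : K) - Y)] at h5
    have h6 := norm_sub_le (σ0 ((z.1 : K) - τ0 * Y)) (σ0 ((z.2 : K) - Y))
    have h7 : ‖σ0 (1 - τ0)‖ * Y ≤ (2 * η) * Y := by linarith
    have h8 := le_of_mul_le_mul_right h7 hY0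
    linarith
  refine ⟨S.image (fun z => (z.1 : K) / z.2), ?_, ?_⟩
  · intro x hx
    rw [Finset.mem_image] at hx
    obtain ⟨z, hz, rfl⟩ := hx
    obtain ⟨k1, k2, k3, k4, k5, k6⟩ := hS z hz
    have hzK : (z.2 : K) ≠ 0 := fun h => hz20 z hz (RingOfIntegers.coe_eq_zero_iff.1 h)
    have hz1K : (z.1 : K) ≠ 0 := fun h => hz10 z hz (RingOfIntegers.coe_eq_zero_iff.1 h)
    have hup : ∀ i, house ((tri z i : 𝓞 K) : K) ≤ X := by
      intro i
      have h1 := hz1h z hz
      have h2 := hz2h z hz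
      have h3 : 2 * R0 * Y ≤ X := by
        rw [le_div_iff₀ (by positivity)] at hYle
        linarith
      have h4 : house ((z.2 : K) - z.1) ≤ house (z.2 : K) + house (z.1 : K) := house_sub_le' _ _
      have h5 : house (z.2 : K) + house (z.1 : K) ≤ 2 * R0 * Y := by
        rw [hR0]; linarith
      have h6 := house_nonneg (z.1 : K)
      have h7 := house_nonneg (z.2 : K)
      fin_cases i
      · have e1 : ((tri z 0 : 𝓞 K) : K) = z.1 := rfl
        change house ((tri z 0 : 𝓞 K) : K) ≤ X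
        rw [e1]; linarith
      · have e1 : ((tri z 1 : 𝓞 K) : K) = (z.2 : K) - z.1 := by simp [tri]
        change house ((tri z 1 : 𝓞 K) : K) ≤ X
        rw [e1]; linarith
      · have e1 : ((tri z 2 : 𝓞 K) : K) = -(z.2 : K) := by simp [tri]
        change house ((tri z 2 : 𝓞 K) : K) ≤ X
        rw [e1, house_neg']; linarith
    have hform : ∀ i, house ((form i z : 𝓞 K) : K) ≤ X := by
      intro i
      have h1 := hup i
      fin_cases i
      · exact h1
      · exact h1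
      · have e1 : ((tri z 2 : 𝓞 K) : K) = -(z.2 : K) := by simp [tri]
        change house ((tri z 2 : 𝓞 K) : K) ≤ X at h1
        rw [e1, house_neg'] at h1
        exact h1
    have hform0 : ∀ i, form i z ≠ 0 := by
      intro i
      fin_cases i
      · exact hz10 z hz
      · exact hz21 z hz
      · exact hz20 z hz
    have hlow := ht_lower (z := z) (A := X / (8 * R0)) (B := B) (by positivity) (fun σ => by
      have h1 := hz2 z hz σ
      have h2 : X / (8 * R0) = X / (4 * R0) / 2 := by field_simp; norm_num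
      rw [h2]
      linarith) hB1 (by
        rw [hB]
        exact_mod_cast k6.le)
    refine ⟨div_ne_zero hz1K hzK, ?_, ht_upper (hz20 z hz) hup, ?_, ?_, z.1, z.2, hz20 z hz, rfl,
      k2, k3⟩
    · intro h
      rw [div_eq_one_iff_eq hzK] at h
      apply hz21 z hz
      rw [sub_eq_zero]
      exact (RingOfIntegers.coe_injective h).symm
    · intro i
      have h1 := part_le (hz20 z hz) i (hform0 i) (hp i) (k1 i)
      have h2 : Real.log (house ((form i z : 𝓞 K) : K)) ≤ Real.log X := by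
        apply Real.log_le_log _ (hform i)
        have : (1 : ℝ) ≤ house ((form i z : 𝓞 K) : K) :=
          one_le_house_of_isIntegral (form i z).2
            (fun h => hform0 i (RingOfIntegers.coe_eq_zero_iff.1 h))
        linarith
      have h3 : Real.log E + w i * Real.log X ≤ e i * Real.log (p i) := by
        have := Real.log_le_log (by have := hXw i; positivity) (he2 i)
        rw [Real.log_pow, Real.log_mul (by linarith) (hXw i).ne', Real.log_rpow hXp] at this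
        exact this
      have h4 : Real.log E = Real.log P + Real.log (8 * R0) + Real.log B + |T| := by
        rw [hE, Real.log_mul (by positivity) (by positivity), Real.log_exp,
          Real.log_mul (by positivity) (by positivity), Real.log_mul (by positivity) (by positivity)]
      have h5 : Real.log (p i) ≤ Real.log P := Real.log_le_log (by linarith [hp1 i]) (hpP i)
      have h6 : Real.log (X / (8 * R0)) = Real.log X - Real.log (8 * R0) :=
        Real.log_div hXp.ne' (by positivity)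
      rw [h6] at hlow
      have h7 : α i * (Real.log X - Real.log (8 * R0) - Real.log B) ≤
          α i * ht (pt ((z.1 : K) / z.2)) := mul_le_mul_of_nonneg_left hlow (hα0 i).le
      have h8 : 0 ≤ Real.log (8 * R0) := Real.log_nonneg (by linarith)
      have h9 : 0 ≤ Real.log B := Real.log_nonneg hB1
      have h10 : α i * (Real.log (8 * R0) + Real.log B) ≤ Real.log (8 * R0) + Real.log B :=
        mul_le_of_le_one_left (by linarith) (hα1 i)
      have h11 : T ≤ |T| := le_abs_self T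
      have h12 : w i = 1 - α i := rfl
      rw [h12] at h3
      linarith
    · intro σ
      have h1 := (norm_embedding_le_house ((z.1 : K) - τ0 * Y) σ).trans k4
      have h2 := (norm_embedding_le_house ((z.2 : K) - Y) σ).trans k5
      have h3 := hz2 z hz σ
      have h4 : (z.1 : K) / z.2 - τ0 = (((z.1 : K) - τ0 * Y) - τ0 * ((z.2 : K) - Y)) / z.2 := by
        field_simp
        ring
      have h5 : ‖σ ((z.1 : K) / z.2) - σ τ0‖ = ‖σ ((z.1 : K) / z.2 - τ0)‖ := by rw [map_sub]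
      rw [h5, h4, map_div₀, norm_div, div_lt_iff₀ (by linarith), map_sub, map_mul]
      have h6 := norm_sub_le (σ ((z.1 : K) - τ0 * Y)) (σ τ0 * σ ((z.2 : K) - Y))
      rw [norm_mul] at h6
      have h7 : ‖σ τ0‖ * ‖σ ((z.2 : K) - Y)‖ ≤ M0 * (η * Y) :=
        mul_le_mul (norm_embedding_le_house _ _) h2 (norm_nonneg _) hM0
      have h8 : η * (4 * (1 + M0)) ≤ ε := by
        rw [le_div_iff₀ (by positivity)] at hη4
        exact hη4
      have h9 : η * Y + M0 * (η * Y) = (η * (4 * (1 + M0))) * (Y / 4) := by ring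
      have h10 : (η * (4 * (1 + M0))) * (Y / 4) ≤ ε * (Y / 4) :=
        mul_le_mul_of_nonneg_right h8 (by positivity)
      have h11 : ε * (Y / 4) < ε * (Y / 2) := mul_lt_mul_of_pos_left (by linarith) hε
      have h12 : ε * (Y / 2) ≤ ε * ‖σ (z.2 : K)‖ := mul_le_mul_of_nonneg_left h3 hε.le
      linarith
  · have hm1 := hmult B (by linarith) Y hY0 S (fun z hz => ⟨by
        rw [hB]; exact_mod_cast (hS z hz).2.2.2.2.2.le, hz2 z hz, by
        have := hz2h z hz
        linarith⟩) (S.image (fun z => (z.1 : K) / z.2))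
        (fun z hz => Finset.mem_image_of_mem (fun z : 𝓞 K × 𝓞 K => (z.1 : K) / z.2) hz)
    have h1 : c2 * X ^ ((finrank ℚ K : ℝ) * (∑ i, α i - 1)) ≤ ((Y : ℝ) ^ 2 / D) ^ (dg K) := by
      have h2 : X ^ ((finrank ℚ K : ℝ) * (∑ i, α i - 1)) =
          (X ^ (∑ i, α i - 1)) ^ (dg K) := by
        rw [mul_comm, Real.rpow_mul hXp.le, Real.rpow_natCast]
      rw [h2, hc2, ← mul_pow]
      apply pow_le_pow_left₀ (by positivity)
      rw [le_div_iff₀ hD0]
      have h3 : X ^ (∑ i, α i - 1) * X ^ (∑ j, w j) = X ^ 2 := by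
        rw [← Real.rpow_add hXp, hws]
        have : ∑ i, α i - 1 + (3 - ∑ i, α i) = (2 : ℕ) := by push_cast; ring
        rw [this, Real.rpow_natCast]
      calc 1 / (16 * R0 ^ 2 * (E ^ 3 * P)) * X ^ (∑ i, α i - 1) * D ≤
          1 / (16 * R0 ^ 2 * (E ^ 3 * P)) * X ^ (∑ i, α i - 1) *
            (E ^ 3 * P * X ^ (∑ j, w j)) := mul_le_mul_of_nonneg_left hDle (by positivity)
        _ = 1 / (16 * R0 ^ 2 * (E ^ 3 * P)) * (E ^ 3 * P) *
            (X ^ (∑ i, α i - 1) * X ^ (∑ j, w j)) := by ring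
        _ = (X / (4 * R0)) ^ 2 := by
            rw [h3]
            have hE0 : E ≠ 0 := by linarith
            have hP0 : P ≠ 0 := by linarith
            have hR00 : R0 ≠ 0 := by linarith
            field_simp
            norm_num
        _ ≤ (Y : ℝ) ^ 2 := pow_le_pow_left₀ (by positivity) hYge 2
    have h2 : c1 * (c2 * X ^ ((finrank ℚ K : ℝ) * (∑ i, α i - 1))) ≤
        Mu * ((S.image (fun z => (z.1 : K) / z.2)).card : ℝ) :=
      (mul_le_mul_of_nonneg_left h1 hc1.le).trans (hSc.trans hm1)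
    rw [div_mul_eq_mul_div, div_le_iff₀ hMu0]
    calc c1 * c2 * X ^ ((finrank ℚ K : ℝ) * (∑ i, α i - 1)) =
        c1 * (c2 * X ^ ((finrank ℚ K : ℝ) * (∑ i, α i - 1))) := by ring
      _ ≤ _ := h2
      _ = _ := mul_comm _ _

end Pool.Agent.X4.KA
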